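import Pool.Agent.Helper44K9.AL.ZetaP
import Pool.Agent.H382P.Mom
import Pool.Agent.Helper44K9.AR.ZB

/-! Negative moments of `ζ'` at nice zeros: counting with the moments of the prime polynomial. -/

set_option autoImplicit false

namespace Pool.Agent.Helper44K9.AL

open Complex Filter Topology Set MeasureTheory
open Pool.Agent.Helper44K9.AR (hh ll log_ge_one ev_log sep_card zeta_low)

lemma QQ_cont (L : ℝ) : Continuous (QQ L) := by
  unfold QQ
  apply continuous_finsetSum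
  intro p hp
  have hp0 : (p : ℂ) ≠ 0 := by
    have := (Finset.mem_Icc.1 (Finset.mem_filter.1 hp).1).1
    exact_mod_cast (by omega : p ≠ 0)
  apply Continuous.mul continuous_const
  exact Continuous.const_cpow (by fun_prop) (Or.inl hp0)

/-- moments of the prime polynomial -/
lemma mom_QQ : ∃ C X0 : ℝ, 0 < C ∧ 3 ≤ X0 ∧ ∀ X : ℝ, X0 ≤ X → ∀ L : ℝ, 16 ≤ L → L ≤ Real.log X → ∀ k : ℕ, 1 ≤ k →
    4 * L * k ≤ Real.log X / 2 →
    ∫ t in Icc (X / 2 - 1) (3 * X + 1), ‖QQ L t‖ ^ (2 * k) ≤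
      27 * X * (k : ℝ) ^ k * (36 * (Real.log (Real.log X) + C)) ^ k := by
  obtain ⟨T0, h10, hmom⟩ := SP.mom_prime (1 / 4) (by norm_num) (by norm_num)
  obtain ⟨C, hC, hpr⟩ := primes_le
  refine ⟨C, max T0 3, hC, le_max_right _ _, fun X hX L hL hLX k hk hLk => ?_⟩
  have hXa := (le_max_left _ _).trans hX
  have hX3 := (le_max_right _ _).trans hX
  have hX0 : 0 < X := by linarith
  set l := Real.log X with hl
  have hl16 : 16 ≤ l := hL.trans hLX
  have hXe : Real.exp l = X := Real.exp_log hX0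
  set T := Real.exp (8 / 7 * l) with hT
  have hTX : X ≤ T := by
    rw [← hXe, hT]; apply Real.exp_le_exp.2; linarith
  have hdd : SG.dd (1 / 4) T = X := by
    unfold SG.dd
    rw [hT, ← Real.exp_mul, ← hXe]
    congr 1
    ring
  have hpow : ((⌊Real.exp (4 * L)⌋₊ : ℕ) : ℝ) ^ k ≤ T ^ (1 - 1 / 4 : ℝ) := by
    have h1 : ((⌊Real.exp (4 * L)⌋₊ : ℕ) : ℝ) ≤ Real.exp (4 * L) := Nat.floor_le (Real.exp_pos _).le
    calc ((⌊Real.exp (4 * L)⌋₊ : ℕ) : ℝ) ^ k ≤ (Real.exp (4 * L)) ^ k := by gcongr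
      _ = Real.exp (4 * L * k) := by rw [← Real.exp_nat_mul]; congr 1; ring
      _ ≤ Real.exp (8 / 7 * l * (1 - 1 / 4)) := by apply Real.exp_le_exp.2; linarith
      _ = T ^ (1 - 1 / 4 : ℝ) := by rw [hT, Real.exp_mul]
  obtain ⟨hi, hm⟩ := hmom T (hXa.trans hTX) (2 * X) k ⌊Real.exp (4 * L)⌋₊ (fun p => (wq L p : ℂ)) hk hpow
  have hQ : ∀ t : ℝ, ∑ p ∈ (Finset.Icc 1 ⌊Real.exp (4 * L)⌋₊).filter Nat.Prime,
      (wq L p : ℂ) * (p : ℂ) ^ (-(I * t)) = QQ L t := fun t => rfl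
  simp only [hQ] at hi hm
  rw [hdd] at hi hm
  have hS : ∑ p ∈ (Finset.Icc 1 ⌊Real.exp (4 * L)⌋₊).filter Nat.Prime, ‖(wq L p : ℂ)‖ ^ 2 ≤
      36 * (Real.log l + C) := by
    have h1 := hpr l ⌊Real.exp (4 * L)⌋₊ (by linarith)
      ((Nat.floor_le (Real.exp_pos _).le).trans (Real.exp_le_exp.2 (by linarith)))
    calc _ ≤ ∑ p ∈ (Finset.Icc 1 ⌊Real.exp (4 * L)⌋₊).filter Nat.Prime, 36 * ((1 : ℝ) / p) := by
          apply Finset.sum_le_sum
          intro p hp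
          have hpp := (Finset.mem_filter.1 hp).2
          have hp0 : (0 : ℝ) < p := by exact_mod_cast hpp.pos
          rw [Complex.norm_real, Real.norm_eq_abs]
          have h2 := wq_prime hL hpp
          calc |wq L p| ^ 2 ≤ (6 * (p : ℝ) ^ (-(1 / 2) : ℝ)) ^ 2 := by gcongr
            _ = 36 * ((1 : ℝ) / p) := by
                rw [mul_pow, ← Real.rpow_natCast ((p : ℝ) ^ (-(1 / 2) : ℝ)), ← Real.rpow_mul hp0.le]
                norm_num [Real.rpow_neg_one]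
      _ = 36 * ∑ p ∈ (Finset.Icc 1 ⌊Real.exp (4 * L)⌋₊).filter Nat.Prime, ((1 : ℝ) / p) := by
          rw [Finset.mul_sum]
      _ ≤ _ := by gcongr
  have hfac : ((k.factorial : ℕ) : ℝ) ≤ (k : ℝ) ^ k := by exact_mod_cast Nat.factorial_le_pow k
  have hcont : Continuous (fun t : ℝ => ‖QQ L t‖ ^ (2 * k)) := (QQ_cont L).norm.pow _
  have h1 : ∫ t in Icc (X / 2 - 1) (3 * X + 1), ‖QQ L t‖ ^ (2 * k) ≤
      ∫ t in Icc (X / 2 - 1) (3 * X + 1), 9 * (SP.wt (2 * X) X t * ‖QQ L t‖ ^ (2 * k)) := by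
    apply setIntegral_mono_on
    · exact hcont.continuousOn.integrableOn_Icc
    · exact (hi.const_mul 9).integrableOn
    · exact measurableSet_Icc
    · intro t ht
      have h2 : Real.exp (-2) ≤ SP.wt (2 * X) X t := by
        unfold SP.wt
        apply Real.exp_le_exp.2
        rw [neg_div, neg_le_neg_iff, div_le_iff₀ (by positivity)]
        have h3 : |t - 2 * X| ≤ 2 * X := by
          rw [abs_le]
          constructor <;> linarith [ht.1, ht.2]
        have h4 := sq_abs (t - 2 * X)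
        have h5 : |t - 2 * X| ^ 2 ≤ (2 * X) ^ 2 := by gcongr
        nlinarith
      have h3 : 1 ≤ 9 * Real.exp (-2) := by
        rw [Real.exp_neg]
        have h4 : Real.exp 2 ≤ 9 := by
          have h5 := Real.exp_one_lt_d9
          have h6 : Real.exp 2 = Real.exp 1 * Real.exp 1 := by rw [← Real.exp_add]; norm_num
          rw [h6]
          have := Real.exp_pos 1
          nlinarith
        have := Real.exp_pos 2
        rw [← div_eq_mul_inv, le_div_iff₀ this]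
        linarith
      have h4 : 1 ≤ 9 * SP.wt (2 * X) X t := h3.trans (by gcongr)
      have h5 : 0 ≤ ‖QQ L t‖ ^ (2 * k) := by positivity
      calc ‖QQ L t‖ ^ (2 * k) = 1 * ‖QQ L t‖ ^ (2 * k) := (one_mul _).symm
        _ ≤ (9 * SP.wt (2 * X) X t) * ‖QQ L t‖ ^ (2 * k) := by gcongr
        _ = _ := by ring
  have h2 : ∫ t in Icc (X / 2 - 1) (3 * X + 1), 9 * (SP.wt (2 * X) X t * ‖QQ L t‖ ^ (2 * k)) ≤
      ∫ t : ℝ, 9 * (SP.wt (2 * X) X t * ‖QQ L t‖ ^ (2 * k)) := by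
    apply setIntegral_le_integral (hi.const_mul 9)
    apply Eventually.of_forall
    intro t
    have : 0 ≤ SP.wt (2 * X) X t := (Real.exp_pos _).le
    positivity
  rw [show ∫ t : ℝ, 9 * (SP.wt (2 * X) X t * ‖QQ L t‖ ^ (2 * k)) =
    9 * ∫ t : ℝ, SP.wt (2 * X) X t * ‖QQ L t‖ ^ (2 * k) from integral_const_mul _ _] at h2
  have hlog : 0 ≤ Real.log l := Real.log_nonneg (by linarith)
  calc _ ≤ 9 * ∫ t : ℝ, SP.wt (2 * X) X t * ‖QQ L t‖ ^ (2 * k) := h1.trans h2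
    _ ≤ 9 * (3 * X * k.factorial * (∑ p ∈ (Finset.Icc 1 ⌊Real.exp (4 * L)⌋₊).filter Nat.Prime,
        ‖(wq L p : ℂ)‖ ^ 2) ^ k) := by gcongr
    _ ≤ 9 * (3 * X * (k : ℝ) ^ k * (36 * (Real.log l + C)) ^ k) := by gcongr
    _ = _ := by ring

/-- a nice zero with ordinate `γ` in `[X/2, 3X]` -/
def NZr (c1 X γ : ℝ) : Prop :=
  X / 2 ≤ γ ∧ γ ≤ 3 * X ∧ NiceG c1 X γ ∧ riemannZeta (⟨1 / 2, γ⟩ : ℂ) = 0

lemma NZr.sep {c1 X γ γ' : ℝ} (hX : 3 ≤ X) (hc1 : c1 ≤ 1) (h : NZr c1 X γ) (h' : NZr c1 X γ') (hne : γ ≠ γ') :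
    c1 / Real.log X ≤ |γ - γ'| := by
  have hl1 := log_ge_one hX
  have hh0 : 0 ≤ hh X := by unfold hh; positivity
  by_cases hd : |γ' - γ| ≤ hh X + 3
  · exact h.2.2.1.2 ⟨1 / 2, γ⟩ ⟨1 / 2, γ'⟩ h.2.2.2 rfl (by simp; linarith) h'.2.2.2 rfl hd
      (fun e => hne (congrArg Complex.im e))
  · push Not at hd
    rw [abs_sub_comm]
    have : c1 / Real.log X ≤ 1 := by
      rw [div_le_one (by linarith)]; linarith
    linarith

lemma card_le {c1 X : ℝ} (hX : 3 ≤ X) (hc1 : 0 < c1) (hc1' : c1 ≤ 1) (Z : Finset ℝ) (hZ : ∀ γ ∈ Z, NZr c1 X γ) :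
    (Z.card : ℝ) ≤ 4 / c1 * (Real.log X * X) := by
  have hl1 := log_ge_one hX
  rcases Nat.eq_zero_or_pos Z.card with h | h
  · rw [h, Nat.cast_zero]; positivity
  obtain ⟨x, hx, y, hy, hxy⟩ := sep_card (c1 / Real.log X) (Z.card - 1) Z (by omega)
    (fun x hx y hy hne => (hZ x hx).sep hX hc1' (hZ y hy) hne)
  have h1 : x - y ≤ 5 / 2 * X := by linarith [(hZ x hx).2.1, (hZ y hy).1]
  have h2 := hxy.trans h1
  rw [Nat.cast_sub (by omega), Nat.cast_one, mul_div_assoc', div_le_iff₀ (by linarith)] at h2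
  have h3 : ((Z.card : ℝ) - 1) ≤ 5 / 2 / c1 * (Real.log X * X) := by
    rw [div_mul_eq_mul_div, le_div_iff₀ hc1]
    nlinarith
  have h4 : 1 ≤ 1 / c1 := by rw [le_div_iff₀ hc1]; linarith
  have h5 : 1 ≤ Real.log X * X := by nlinarith
  have h6 : 1 ≤ 1 / c1 * (Real.log X * X) := by nlinarith
  have h7 : 4 / c1 * (Real.log X * X) = 5 / 2 / c1 * (Real.log X * X) + 3 / 2 * (1 / c1 * (Real.log X * X)) := by
    field_simp; ring
  linarith

theorem cnt_level (RH : RiemannHypothesis) {c1 : ℝ} (hc1 : 0 < c1) (hc1' : c1 ≤ 1) :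
    ∃ K X0 : ℝ, 1 ≤ K ∧ 3 ≤ X0 ∧ ∀ X : ℝ, X0 ≤ X → ∀ Z : Finset ℝ, (∀ γ ∈ Z, NZr c1 X γ) → ∀ n : ℕ,
      K * Real.log (Real.log X) ≤ n → (n : ℝ) ≤ Real.log X / 8 →
      (∀ γ ∈ Z, (n : ℝ) ≤ -Real.log ‖deriv riemannZeta (⟨1 / 2, γ⟩ : ℂ)‖) →
      (Z.card : ℝ) * Real.exp n ≤ 27 / c1 * (Real.log X * X) := by
  obtain ⟨C1, X1, hC1, hX1, hzp⟩ := zp_low RH hc1 hc1'
  obtain ⟨C2, X2, hC2, hX2, hmom⟩ := mom_QQ
  obtain ⟨X3, hX3, hlog⟩ := ev_log (Real.exp (C2 + 1))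
  set A := 4 * C1 + 4 with hA
  have hA4 : 4 ≤ A := by linarith
  set K := 36 * Real.exp (32 * A) with hK
  have hKA : 36 * (32 * A + 1) ≤ K := by
    rw [hK]; have := Real.add_one_le_exp (32 * A); linarith
  refine ⟨K, max (max X1 X2) X3, by linarith, le_trans hX3 (le_max_right _ _), fun X hX Z hZ n hn1 hn2 hV => ?_⟩
  simp only [max_le_iff] at hX
  obtain ⟨⟨hXa, hXb⟩, hXc⟩ := hX
  have hX3' : 3 ≤ X := hX1.trans hXa
  have hX0 : 0 < X := by linarith
  have hlog := hlog X hXc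
  set l := Real.log X with hl
  have hl0 : 0 < l := lt_of_lt_of_le (Real.exp_pos _) hlog
  have hll : C2 + 1 ≤ Real.log l := by
    rw [Real.le_log_iff_exp_le hl0]; exact hlog
  have hll1 : 1 ≤ Real.log l := by linarith
  have hnK : K ≤ n := by nlinarith
  have hnA : 16 * A ≤ n := by linarith
  have hn0 : (0 : ℝ) < n := by linarith
  have hA0 : 0 < A := by linarith
  -- parameters
  set k := ⌊(n : ℝ) / (8 * A)⌋₊ with hk
  have hk1 : (k : ℝ) ≤ n / (8 * A) := Nat.floor_le (by positivity)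
  have hk2 : (n : ℝ) / (16 * A) ≤ k := by
    have h1 := Nat.lt_floor_add_one ((n : ℝ) / (8 * A))
    have h2 : (2 : ℝ) ≤ n / (8 * A) := by rw [le_div_iff₀ (by positivity)]; linarith
    have h3 : (n : ℝ) / (16 * A) = n / (8 * A) / 2 := by field_simp; norm_num
    rw [h3]
    linarith
  have hk0 : 1 ≤ k := by
    have h1 : (0 : ℝ) < k := lt_of_lt_of_le (by positivity) hk2
    exact_mod_cast h1
  set L := A * l / n with hL
  have hLn : l / L = n / A := by rw [hL]; field_simp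
  have hL32 : 32 ≤ L := by
    rw [hL, le_div_iff₀ hn0]
    nlinarith
  have hLl : L ≤ l := by
    rw [hL, div_le_iff₀ hn0]
    nlinarith
  have hLk : 4 * L * k ≤ l / 2 := by
    calc 4 * L * k ≤ 4 * L * (n / (8 * A)) := by gcongr
      _ = l / 2 := by rw [hL]; field_simp; norm_num
  -- lower bound for the polynomial
  have hQ : ∀ γ ∈ Z, ∀ t : ℝ, |t - γ| ≤ 1 / l → (n : ℝ) / 2 ≤ ‖QQ L t‖ := by
    intro γ hγ t ht
    obtain ⟨a1, a2, a3, a4⟩ := hZ γ hγ
    have h1 := hzp X hXa γ a1 a2 a3 a4 t ht L hL32 hLl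
    have h2 := hV γ hγ
    rw [hLn] at h1
    have h3 : C1 * (1 + Real.log l + n / A) ≤ n / 2 := by
      have h4 : C1 * (n / A) ≤ n / 4 := by
        rw [mul_div_assoc', div_le_iff₀ hA0]
        nlinarith
      have h5 : C1 * (1 + Real.log l) ≤ n / 4 := by
        have h6 : C1 * (1 + Real.log l) ≤ C1 * (2 * Real.log l) := by gcongr; linarith
        have h7 : 8 * C1 ≤ K := by linarith
        have h8 : 8 * C1 * Real.log l ≤ K * Real.log l := by gcongr
        linarith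
      linarith [mul_add C1 (1 + Real.log l) (n / A)]
    linarith
  -- the integral
  set r := c1 / (2 * l) with hr
  have hr0 : 0 < r := by positivity
  have hr1 : r ≤ 1 / l := by
    rw [hr, div_le_div_iff₀ (by positivity) hl0]
    nlinarith
  have hl16 : 16 ≤ l := by linarith
  have hli : 1 / l ≤ 1 := by rw [div_le_one hl0]; linarith
  have hcont : Continuous (fun t : ℝ => ‖QQ L t‖ ^ (2 * k)) := (QQ_cont L).norm.pow _
  have hint : IntegrableOn (fun t : ℝ => ‖QQ L t‖ ^ (2 * k)) (Icc (X / 2 - 1) (3 * X + 1)) :=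
    hcont.continuousOn.integrableOn_Icc
  have hsub : ∀ γ ∈ Z, Ioo (γ - r) (γ + r) ⊆ Icc (X / 2 - 1) (3 * X + 1) := by
    intro γ hγ t ht
    obtain ⟨a1, a2, -⟩ := hZ γ hγ
    exact ⟨by linarith [ht.1], by linarith [ht.2]⟩
  have hdisj : Set.Pairwise (↑Z) (Function.onFun Disjoint fun γ => Ioo (γ - r) (γ + r)) := by
    intro γ hγ γ' hγ' hne
    have h1 := (hZ γ hγ).sep hX3' hc1' (hZ γ' hγ') hne
    have h2 : c1 / l = 2 * r := by rw [hr]; field_simp
    rw [← hl, h2] at h1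
    rw [Function.onFun, Set.disjoint_left]
    rintro t ⟨h3, h4⟩ ⟨h5, h6⟩
    have h7 : |γ - γ'| < 2 * r := by
      rw [abs_lt]; constructor <;> linarith
    linarith
  have h1 : ∫ t in ⋃ γ ∈ Z, Ioo (γ - r) (γ + r), ‖QQ L t‖ ^ (2 * k) =
      ∑ γ ∈ Z, ∫ t in Ioo (γ - r) (γ + r), ‖QQ L t‖ ^ (2 * k) :=
    integral_biUnion_finset Z (fun _ _ => measurableSet_Ioo) hdisj (fun γ hγ => hint.mono_set (hsub γ hγ))
  have h2 : ∫ t in ⋃ γ ∈ Z, Ioo (γ - r) (γ + r), ‖QQ L t‖ ^ (2 * k) ≤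
      ∫ t in Icc (X / 2 - 1) (3 * X + 1), ‖QQ L t‖ ^ (2 * k) := by
    exact setIntegral_mono_set hint (Eventually.of_forall fun _ => by positivity)
      (Set.iUnion₂_subset hsub).eventuallyLE
  have h3 : ∀ γ ∈ Z, c1 / l * (n / 2 : ℝ) ^ (2 * k) ≤ ∫ t in Ioo (γ - r) (γ + r), ‖QQ L t‖ ^ (2 * k) := by
    intro γ hγ
    have h4 : ∫ t in Ioo (γ - r) (γ + r), (n / 2 : ℝ) ^ (2 * k) = c1 / l * (n / 2 : ℝ) ^ (2 * k) := by
      rw [setIntegral_const, smul_eq_mul, Real.volume_real_Ioo_of_le (by linarith)]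
      congr 1
      rw [hr]; field_simp; ring
    rw [← h4]
    apply setIntegral_mono_on
    · exact integrableOn_const (by simp)
    · exact hint.mono_set (hsub γ hγ)
    · exact measurableSet_Ioo
    · intro t ht
      have h5 := hQ γ hγ t (by rw [abs_le]; constructor <;> linarith [ht.1, ht.2])
      gcongr
  have h4 : (Z.card : ℝ) * (c1 / l * (n / 2 : ℝ) ^ (2 * k)) ≤
      27 * X * (k : ℝ) ^ k * (36 * (Real.log l + C2)) ^ k := by
    calc (Z.card : ℝ) * (c1 / l * (n / 2 : ℝ) ^ (2 * k)) = ∑ γ ∈ Z, c1 / l * (n / 2 : ℝ) ^ (2 * k) := by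
          rw [Finset.sum_const, nsmul_eq_mul]
      _ ≤ ∑ γ ∈ Z, ∫ t in Ioo (γ - r) (γ + r), ‖QQ L t‖ ^ (2 * k) := Finset.sum_le_sum h3
      _ ≤ _ := by rw [← h1]; exact h2.trans (hmom X hXb L (by linarith) hLl k hk0 hLk)
  -- comparison
  have h5 : (k : ℝ) * (36 * (Real.log l + C2)) ≤ Real.exp (-(32 * A)) * (n / 2 : ℝ) ^ 2 := by
    have h6 : 36 * (Real.log l + C2) ≤ 72 * Real.log l := by linarith
    have h7 : Real.log l ≤ n / K := by rw [le_div_iff₀ (by linarith)]; linarith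
    have h8 : Real.exp (-(32 * A)) = 36 / K := by
      rw [hK, Real.exp_neg]
      field_simp
    have hK0 : 0 < K := by linarith
    calc (k : ℝ) * (36 * (Real.log l + C2)) ≤ n / (8 * A) * (72 * (n / K)) := by
          refine mul_le_mul hk1 (h6.trans (by linarith)) (by linarith) (by positivity)
      _ = 36 / K * (n / 2) ^ 2 / A := by field_simp; norm_num
      _ ≤ 36 / K * (n / 2) ^ 2 / 1 := by gcongr; linarith
      _ = _ := by rw [h8, div_one]
  have h6 : 27 * X * (k : ℝ) ^ k * (36 * (Real.log l + C2)) ^ k ≤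
      27 * X * Real.exp (-(2 * n)) * (n / 2 : ℝ) ^ (2 * k) := by
    have h7 : (k : ℝ) ^ k * (36 * (Real.log l + C2)) ^ k ≤ (Real.exp (-(32 * A)) * (n / 2 : ℝ) ^ 2) ^ k := by
      rw [← mul_pow]
      gcongr
    have h8 : Real.exp (-(32 * A)) ^ k ≤ Real.exp (-(2 * n)) := by
      rw [← Real.exp_nat_mul]
      apply Real.exp_le_exp.2
      rw [div_le_iff₀ (by positivity)] at hk2
      nlinarith
    calc 27 * X * (k : ℝ) ^ k * (36 * (Real.log l + C2)) ^ k =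
        27 * X * ((k : ℝ) ^ k * (36 * (Real.log l + C2)) ^ k) := by ring
      _ ≤ 27 * X * (Real.exp (-(32 * A)) * (n / 2 : ℝ) ^ 2) ^ k := by gcongr
      _ = 27 * X * Real.exp (-(32 * A)) ^ k * (n / 2 : ℝ) ^ (2 * k) := by rw [mul_pow, ← pow_mul]; ring
      _ ≤ _ := by gcongr
  have h7 : (Z.card : ℝ) * (c1 / l) ≤ 27 * X * Real.exp (-(2 * n)) := by
    have h8 : 0 < (n / 2 : ℝ) ^ (2 * k) := by positivity
    have h9 := h4.trans h6
    rw [← mul_assoc] at h9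
    exact le_of_mul_le_mul_right h9 h8
  have h8 : (Z.card : ℝ) ≤ 27 / c1 * (l * X) * Real.exp (-(2 * n)) := by
    rw [mul_div_assoc', div_le_iff₀ hl0] at h7
    have h9 : 27 / c1 * (l * X) * Real.exp (-(2 * n)) = 27 * X * Real.exp (-(2 * n)) * l / c1 := by
      field_simp
    rw [h9, le_div_iff₀ hc1]
    exact h7
  calc (Z.card : ℝ) * Real.exp n ≤ 27 / c1 * (l * X) * Real.exp (-(2 * n)) * Real.exp n := by gcongr
    _ = 27 / c1 * (l * X) * Real.exp (-n) := by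
        rw [mul_assoc, ← Real.exp_add]; congr 2; ring
    _ ≤ 27 / c1 * (l * X) * 1 := by
        gcongr
        rw [Real.exp_le_one_iff]
        linarith
    _ = _ := mul_one _

/-- the first negative moment of `ζ'` over the nice zeros -/
theorem sum_inv (RH : RiemannHypothesis) {c1 : ℝ} (hc1 : 0 < c1) (hc1' : c1 ≤ 1) :
    ∃ (K : ℕ) (X0 : ℝ), 3 ≤ X0 ∧ ∀ X : ℝ, X0 ≤ X → ∀ Z : Finset ℝ, (∀ γ ∈ Z, NZr c1 X γ) →
      ∑ γ ∈ Z, 1 / ‖deriv riemannZeta (⟨1 / 2, γ⟩ : ℂ)‖ ≤ X * Real.log X ^ K := by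
  classical
  obtain ⟨K0, X1, hK0, hX1, hcnt⟩ := cnt_level RH hc1 hc1'
  obtain ⟨t0, ht0, hzl⟩ := zeta_low RH (ε := 1 / 16) (c0 := c1 / 2) (by norm_num) (by positivity)
  obtain ⟨X2, hX2, hlog⟩ := ev_log (3 * (27 / c1) + 10)
  refine ⟨⌈K0⌉₊ + 3, max (max X1 X2) (2 * t0), by
    exact le_trans (hX1.trans (le_max_left _ _)) (le_max_left _ _), fun X hX Z hZ => ?_⟩
  simp only [max_le_iff] at hX
  obtain ⟨⟨hXa, hXb⟩, hXc⟩ := hX
  have hX3' : 3 ≤ X := hX1.trans hXa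
  have hX0 : 0 < X := by linarith
  have hlog := hlog X hXb
  have h27 : 0 < 27 / c1 := by positivity
  set l := Real.log X with hl
  have hl10 : 10 ≤ l := by linarith
  have hl0 : 0 < l := by linarith
  have hll0 : 0 < Real.log l := Real.log_pos (by linarith)
  set V : ℝ → ℝ := fun γ => -Real.log ‖deriv riemannZeta (⟨1 / 2, γ⟩ : ℂ)‖ with hV
  -- pointwise
  have hpt : ∀ γ ∈ Z, 0 < ‖deriv riemannZeta (⟨1 / 2, γ⟩ : ℂ)‖ ∧ V γ ≤ l / 8 := by
    intro γ hγ
    obtain ⟨a1, a2, a3, a4⟩ := hZ γ hγ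
    have hh0 : 0 ≤ hh X := by unfold hh; positivity
    have hγ0 : 0 < γ := by linarith
    have h1 := hzl γ (by linarith) a4 (fun ρ b1 b2 b3 => a3.1 ρ b1 b2 (by linarith))
      (fun ρ ρ' b1 b2 b3 d1 d2 d3 hne => by
        refine le_trans ?_ (a3.2 ρ ρ' b1 b2 (by linarith) d1 d2 (by linarith) hne)
        have h7 : l / 2 ≤ Real.log γ := by
          have h8 : Real.log (X / 2) ≤ Real.log γ := Real.log_le_log (by linarith) a1
          rw [Real.log_div hX0.ne' (by norm_num)] at h8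
          have := Real.log_two_lt_d9
          linarith
        calc c1 / 2 / Real.log γ ≤ c1 / 2 / (l / 2) := by gcongr
          _ = c1 / l := by field_simp)
    have h2 : 0 < γ ^ (-(1 / 16) : ℝ) := by positivity
    have h3 := lt_of_lt_of_le h2 h1
    refine ⟨h3, ?_⟩
    have h4 := Real.log_le_log h2 h1
    rw [Real.log_rpow hγ0] at h4
    have h5 : Real.log γ ≤ 2 * l := by
      have h6 : Real.log γ ≤ Real.log (3 * X) := Real.log_le_log hγ0 a2
      rw [Real.log_mul (by norm_num) hX0.ne'] at h6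
      have h7 : Real.log 3 ≤ 2 := by
        rw [Real.log_le_iff_le_exp (by norm_num)]
        have := Real.add_one_le_exp (2 : ℝ)
        linarith
      linarith
    simp only [hV]
    linarith
  -- level sets
  set N := ⌊l / 8⌋₊ with hN
  have hNl : (N : ℝ) ≤ l / 8 := Nat.floor_le (by positivity)
  have hmap : ∀ γ ∈ Z, ⌊V γ⌋₊ ∈ Finset.range (N + 1) := by
    intro γ hγ
    rw [Finset.mem_range, Nat.lt_succ_iff]
    exact Nat.floor_le_floor (hpt γ hγ).2
  have hterm : ∀ γ ∈ Z, 1 / ‖deriv riemannZeta (⟨1 / 2, γ⟩ : ℂ)‖ ≤ Real.exp (⌊V γ⌋₊ + 1) := by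
    intro γ hγ
    obtain ⟨h1, -⟩ := hpt γ hγ
    have h2 : 1 / ‖deriv riemannZeta (⟨1 / 2, γ⟩ : ℂ)‖ = Real.exp (V γ) := by
      simp only [hV]
      rw [Real.exp_neg, Real.exp_log h1, one_div]
    rw [h2]
    exact Real.exp_le_exp.2 (Nat.lt_floor_add_one _).le
  set P := l ^ ⌈K0⌉₊ with hP
  have hP1 : 1 ≤ P := one_le_pow₀ (by linarith)
  have hlevel : ∀ n ∈ Finset.range (N + 1), ∑ γ ∈ Z with ⌊V γ⌋₊ = n, 1 / ‖deriv riemannZeta (⟨1 / 2, γ⟩ : ℂ)‖ ≤
      3 * (27 / c1 * (l * X) * P) := by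
    intro n hn
    rw [Finset.mem_range, Nat.lt_succ_iff] at hn
    have hnl : (n : ℝ) ≤ l / 8 := le_trans (by exact_mod_cast hn) hNl
    set Zn := {γ ∈ Z | ⌊V γ⌋₊ = n} with hZn
    have hZnZ : ∀ γ ∈ Zn, NZr c1 X γ := fun γ hγ => hZ γ (Finset.mem_filter.1 hγ).1
    have hfl : ∀ γ ∈ Zn, ⌊V γ⌋₊ = n := fun γ hγ => (Finset.mem_filter.1 hγ).2
    have h1 : (Zn.card : ℝ) * Real.exp n ≤ 27 / c1 * (l * X) * P := by
      by_cases hc : K0 * Real.log l ≤ n
      · have hn1 : 1 ≤ n := by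
          have : (0 : ℝ) < n := lt_of_lt_of_le (by positivity) hc
          exact_mod_cast this
        have h2 := hcnt X hXa Zn hZnZ n hc hnl (fun γ hγ => by
          have h3 := hfl γ hγ
          have h4 : 0 ≤ V γ := by
            by_contra hneg
            push Not at hneg
            rw [Nat.floor_of_nonpos hneg.le] at h3
            omega
          have h5 := Nat.floor_le h4
          rw [h3] at h5
          exact h5)
        refine h2.trans ?_
        exact le_mul_of_one_le_right (by positivity) hP1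
      · push Not at hc
        have h2 := card_le hX3' hc1 hc1' Zn hZnZ
        have h3 : Real.exp n ≤ P := by
          calc Real.exp n ≤ Real.exp (K0 * Real.log l) := Real.exp_le_exp.2 hc.le
            _ = l ^ K0 := by rw [Real.rpow_def_of_pos hl0]; congr 1; ring
            _ ≤ l ^ ((⌈K0⌉₊ : ℕ) : ℝ) := Real.rpow_le_rpow_of_exponent_le (by linarith) (Nat.le_ceil _)
            _ = P := Real.rpow_natCast _ _
        calc (Zn.card : ℝ) * Real.exp n ≤ 4 / c1 * (l * X) * P := by gcongr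
          _ ≤ 27 / c1 * (l * X) * P := by gcongr; norm_num
    calc ∑ γ ∈ Zn, 1 / ‖deriv riemannZeta (⟨1 / 2, γ⟩ : ℂ)‖ ≤ ∑ γ ∈ Zn, Real.exp (n + 1) := by
          apply Finset.sum_le_sum
          intro γ hγ
          have := hterm γ (Finset.mem_filter.1 hγ).1
          rwa [hfl γ hγ] at this
      _ = ((Zn.card : ℝ) * Real.exp n) * Real.exp 1 := by
          rw [Finset.sum_const, nsmul_eq_mul, Real.exp_add]; ring
      _ ≤ (27 / c1 * (l * X) * P) * 3 := by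
          gcongr
          linarith [Real.exp_one_lt_d9]
      _ = _ := by ring
  calc ∑ γ ∈ Z, 1 / ‖deriv riemannZeta (⟨1 / 2, γ⟩ : ℂ)‖ =
      ∑ n ∈ Finset.range (N + 1), ∑ γ ∈ Z with ⌊V γ⌋₊ = n, 1 / ‖deriv riemannZeta (⟨1 / 2, γ⟩ : ℂ)‖ :=
        (Finset.sum_fiberwise_of_maps_to hmap _).symm
    _ ≤ ∑ n ∈ Finset.range (N + 1), 3 * (27 / c1 * (l * X) * P) := Finset.sum_le_sum hlevel
    _ = (N + 1) * (3 * (27 / c1 * (l * X) * P)) := by
        rw [Finset.sum_const, nsmul_eq_mul, Finset.card_range]; push_cast; ring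
    _ ≤ l * (3 * (27 / c1 * (l * X) * P)) := by
        gcongr
        linarith
    _ = X * ((3 * (27 / c1)) * l * l * P) := by ring
    _ ≤ X * (l * l * l * P) := by
        gcongr
        linarith
    _ = X * l ^ (⌈K0⌉₊ + 3) := by rw [hP, pow_add]; ring

end Pool.Agent.Helper44K9.AL
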