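import Pool.Agent.Helper44K9.AL.Cnt
import Pool.Agent.Helper44K9.AR.Comb

/-! Coherent windows are rare: logarithmic rate. -/

set_option autoImplicit false

namespace Pool.Agent.Helper44K9.AL

open Complex Filter Topology Set MeasureTheory
open Pool.Agent.W120.WM (NT)
open Pool.Agent.Helper44K9.AR (Zf mem_Zf rh_re hh ll log_ge_one ev_log sep_card zeta_low ph xc xc_pos Sg G0 Wt Wt_half
  fe_zero exists_good loc_U loc_S U_low ll_le ll_div pow_log_small Sg_eq_int hh_pos Sg_small)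

/-- the window at `T` is coherent with phase error `η` -/
def CohE (c η c1 X T : ℝ) : Prop :=
  (∀ ρ : ℂ, riemannZeta ρ = 0 → ρ.re = 1 / 2 → |ρ.im - T| ≤ ll X → deriv riemannZeta ρ ≠ 0) ∧
  (∀ ρ ρ' : ℂ, riemannZeta ρ = 0 → ρ.re = 1 / 2 → |ρ.im - T| ≤ ll X → riemannZeta ρ' = 0 → ρ'.re = 1 / 2 →
    |ρ'.im - T| ≤ ll X → ρ ≠ ρ' → c1 / Real.log X ≤ |ρ.im - ρ'.im|) ∧
  ∃ κ : ℂ, ‖κ‖ = 1 ∧ ∀ ρ : ℂ, riemannZeta ρ = 0 → ρ.re = 1 / 2 → |ρ.im - T| ≤ ll X →
    ‖ph c ρ.im - κ‖ ≤ η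

/-- the local first negative moment over a finite set of ordinates -/
noncomputable def MM (Z : Finset ℝ) (X T : ℝ) : ℝ :=
  ∑ γ ∈ Z, (Icc (γ - ll X) (γ + ll X)).indicator (fun _ => 1 / ‖deriv riemannZeta (⟨1 / 2, γ⟩ : ℂ)‖) T

lemma MM_int (Z : Finset ℝ) {X : ℝ} (hX : 3 ≤ X) : Integrable (fun T => MM Z X T) ∧
    ∫ T, MM Z X T = 2 * ll X * ∑ γ ∈ Z, 1 / ‖deriv riemannZeta (⟨1 / 2, γ⟩ : ℂ)‖ := by
  have hl := log_ge_one hX
  have hll : 0 ≤ ll X := by unfold ll; positivity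
  have hi : ∀ γ ∈ Z, Integrable (fun T => (Icc (γ - ll X) (γ + ll X)).indicator
      (fun _ => 1 / ‖deriv riemannZeta (⟨1 / 2, γ⟩ : ℂ)‖) T) := by
    intro γ _
    exact (integrable_indicator_iff measurableSet_Icc).2 (integrableOn_const (by simp))
  constructor
  · exact integrable_finsetSum _ hi
  · unfold MM
    rw [integral_finsetSum _ hi, Finset.mul_sum]
    apply Finset.sum_congr rfl
    intro γ _
    rw [integral_indicator measurableSet_Icc, setIntegral_const, smul_eq_mul, Real.volume_real_Icc_of_le (by linarith)]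
    ring

lemma MM_nonneg (Z : Finset ℝ) (X T : ℝ) : 0 ≤ MM Z X T := by
  unfold MM
  apply Finset.sum_nonneg
  intro γ _
  apply Set.indicator_nonneg
  intro _ _
  positivity

theorem coh_low2 (RH : RiemannHypothesis) {c c1 : ℝ} (hc : 0 < c) (hc1 : 0 < c1) (hc1' : c1 ≤ 1) :
    ∃ X0 : ℝ, 3 ≤ X0 ∧ ∀ X : ℝ, X0 ≤ X → ∃ Z : Finset ℝ, (∀ γ ∈ Z, NZr c1 X γ) ∧
      ∀ T ∈ Icc X (2 * X), ∀ η : ℝ, 0 ≤ η → η ≤ 1 → CohE c η c1 X T →
      Real.exp 1 / c * hh X ≤ ‖Sg (xc c) X T‖ + 2 * Real.pi * (Real.exp 1 / c) * η * MM Z X T := by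
  classical
  obtain ⟨C, hC, hgood⟩ := exists_good
  obtain ⟨X1, hX1, hU⟩ := loc_U C hC
  obtain ⟨X2, hX2, hS⟩ := loc_S (xc c) C hC
  obtain ⟨X3, hX3, hUl⟩ := U_low
  obtain ⟨C4, hC4, hfe⟩ := fe_zero hc
  obtain ⟨t0, ht0, hzl⟩ := zeta_low RH (ε := 1 / 4) (c0 := c1 / 2) (by positivity) (by positivity)
  obtain ⟨X5, hX5, hll⟩ := ll_le
  set K1 : ℝ := 2 * C4 + 2 * Real.pi * (Real.exp 1 / c) with hK1
  have hK10 : 0 < K1 := by positivity
  obtain ⟨X6, hX6, hps⟩ := pow_log_small ((2 / c1 + 1) * (3 * K1)) (3 / 4) (by positivity)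
  obtain ⟨X7, hX7, hlog⟩ := ev_log (10 + 10 * (c / Real.exp 1))
  refine ⟨max (max (max X1 X2) (max X3 (2 * t0))) (max X5 (max X6 X7)), by simp [hX1],
    fun X hX => ?_⟩
  simp only [max_le_iff] at hX
  obtain ⟨⟨⟨hXa, hXb⟩, hXc, hXd⟩, hXe, hXf, hXg⟩ := hX
  have hX3' : 3 ≤ X := hX1.trans hXa
  have hX0 : 0 < X := by linarith
  have hl1 := log_ge_one hX3'
  have hll := hll X hXe
  have hps := hps X hXf
  have hlog := hlog X hXg
  set Z : Finset ℝ := ((Zf (X / 2 - 1) (3 * X)).image (fun ρ => ρ.im)).filter (NZr c1 X) with hZdef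
  refine ⟨Z, fun γ hγ => (Finset.mem_filter.1 hγ).2, fun T hT η hη0 hη1 hcoh => ?_⟩
  have hec : 0 < c / Real.exp 1 := by positivity
  have hhh : hh X = Real.log X ^ 2 := rfl
  have hllX : ll X = Real.log X ^ 4 := rfl
  have hlog10 : 10 ≤ Real.log X := by linarith
  have hl6 : 10 ≤ ll X := by
    rw [hllX]
    have : (10 : ℝ) ^ 1 ≤ Real.log X ^ 4 := by
      calc (10 : ℝ) ^ 1 ≤ 10 ^ 4 := by norm_num
        _ ≤ Real.log X ^ 4 := by gcongr
    linarith
  obtain ⟨c', hc'1, hc'2, hGc⟩ := hgood (T - ll X + 2) (by linarith [hT.1])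
  obtain ⟨d', hd'1, hd'2, hGd⟩ := hgood (T + ll X - 3) (by linarith [hT.1])
  obtain ⟨hsimp, hsep, κ, hκ, hph⟩ := hcoh
  have hc'0 : X / 2 ≤ c' := by linarith [hT.1]
  have hcp : 0 < c' := by linarith
  -- the zeros in the window
  have hZ : ∀ ρ ∈ Zf c' d', riemannZeta ρ = 0 ∧ ρ.re = 1 / 2 ∧ |ρ.im - T| ≤ ll X - 1 ∧ X / 2 ≤ ρ.im ∧ ρ.im ≤ 3 * X := by
    intro ρ hρ
    obtain ⟨h1, h2, h3⟩ := (mem_Zf hcp.le).1 hρ
    refine ⟨h1.1, rh_re RH h1.1 (hcp.trans h2), ?_, by linarith, by linarith [hT.2]⟩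
    rw [abs_le]
    constructor <;> linarith
  have hder : ∀ ρ ∈ Zf c' d', deriv riemannZeta ρ ≠ 0 := by
    intro ρ hρ
    obtain ⟨h1, h2, h3, -⟩ := hZ ρ hρ
    exact hsimp ρ h1 h2 (by linarith)
  have hmk : ∀ ρ : ℂ, ρ.re = 1 / 2 → (⟨1 / 2, ρ.im⟩ : ℂ) = ρ := by
    intro ρ h
    apply Complex.ext <;> simp [h]
  have hlow : ∀ ρ ∈ Zf c' d', ‖1 / deriv riemannZeta ρ‖ ≤ 3 * X ^ (1 / 4 : ℝ) := by
    intro ρ hρ
    obtain ⟨h1, h2, h3, h4, h5⟩ := hZ ρ hρ
    have hρp : 0 < ρ.im := by linarith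
    have hnear : ∀ ρ' : ℂ, |ρ'.im - ρ.im| ≤ 1 → |ρ'.im - T| ≤ ll X := by
      intro ρ' h
      have := abs_sub_le ρ'.im ρ.im T
      linarith
    have h6 := hzl ρ.im (by linarith) (by rw [hmk ρ h2]; exact h1)
      (fun ρ' a1 a2 a3 => hsimp ρ' a1 a2 (hnear ρ' a3))
      (fun ρ' ρ'' a1 a2 a3 b1 b2 b3 hne => by
        refine le_trans ?_ (hsep ρ' ρ'' a1 a2 (hnear ρ' a3) b1 b2 (hnear ρ'' b3) hne)
        have h7 : Real.log X / 2 ≤ Real.log ρ.im := by
          have h8 : Real.log (X / 2) ≤ Real.log ρ.im := Real.log_le_log (by linarith) h4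
          rw [Real.log_div hX0.ne' (by norm_num)] at h8
          have := Real.log_two_lt_d9
          linarith
        have h9 : 0 < Real.log X := by linarith
        calc c1 / 2 / Real.log ρ.im ≤ c1 / 2 / (Real.log X / 2) := by gcongr
          _ = c1 / Real.log X := by field_simp)
    rw [hmk ρ h2] at h6
    rw [norm_div, norm_one]
    have h7 : 0 < ρ.im ^ (-(1 / 4) : ℝ) := by positivity
    calc 1 / ‖deriv riemannZeta ρ‖ ≤ 1 / ρ.im ^ (-(1 / 4) : ℝ) := by gcongr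
      _ = ρ.im ^ (1 / 4 : ℝ) := by rw [Real.rpow_neg hρp.le, one_div, inv_inv]
      _ ≤ (3 * X) ^ (1 / 4 : ℝ) := by gcongr
      _ ≤ 3 * X ^ (1 / 4 : ℝ) := by
          rw [Real.mul_rpow (by norm_num) hX0.le]
          gcongr
          calc (3 : ℝ) ^ (1 / 4 : ℝ) ≤ 3 ^ (1 : ℝ) := Real.rpow_le_rpow_of_exponent_le (by norm_num) (by norm_num)
            _ = 3 := Real.rpow_one 3
  -- the number of zeros
  have hcard : ((Zf c' d').card : ℝ) ≤ (2 / c1 + 1) * Real.log X ^ 5 := by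
    rcases Nat.eq_zero_or_pos (Zf c' d').card with h | h
    · rw [h, Nat.cast_zero]; positivity
    set R : Finset ℝ := (Zf c' d').image (fun ρ => ρ.im) with hR
    have hinj : Set.InjOn (fun ρ : ℂ => ρ.im) (Zf c' d') := by
      intro x hx y hy hxy
      exact Complex.ext (by rw [(hZ x hx).2.1, (hZ y hy).2.1]) hxy
    have hRc : R.card = (Zf c' d').card := Finset.card_image_of_injOn hinj
    obtain ⟨x, hx, y, hy, hxy⟩ := sep_card (c1 / Real.log X) (R.card - 1) R (by omega) (by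
      intro x hx y hy hne
      rw [hR, Finset.mem_image] at hx hy
      obtain ⟨ρ, hρ, rfl⟩ := hx
      obtain ⟨ρ', hρ', rfl⟩ := hy
      obtain ⟨a1, a2, a3, -⟩ := hZ ρ hρ
      obtain ⟨b1, b2, b3, -⟩ := hZ ρ' hρ'
      exact hsep ρ ρ' a1 a2 (by linarith) b1 b2 (by linarith) (fun h => hne (by rw [h])))
    have hx2 : |x - T| ≤ ll X - 1 := by
      rw [hR, Finset.mem_image] at hx
      obtain ⟨ρ, hρ, rfl⟩ := hx
      exact (hZ ρ hρ).2.2.1
    have hy2 : |y - T| ≤ ll X - 1 := by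
      rw [hR, Finset.mem_image] at hy
      obtain ⟨ρ, hρ, rfl⟩ := hy
      exact (hZ ρ hρ).2.2.1
    have h8 : x - y ≤ 2 * ll X := by
      have := (abs_le.1 hx2).2
      have := (abs_le.1 hy2).1
      linarith
    have h9 : ((R.card - 1 : ℕ) : ℝ) * (c1 / Real.log X) ≤ 2 * ll X := hxy.trans h8
    rw [Nat.cast_sub (by omega), Nat.cast_one] at h9
    have hlp : 0 < Real.log X := by linarith
    rw [mul_div_assoc', div_le_iff₀ hlp] at h9
    have h10 : ((R.card : ℝ) - 1) ≤ 2 / c1 * Real.log X ^ 5 := by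
      rw [hllX] at h9
      rw [div_mul_eq_mul_div, le_div_iff₀ hc1]
      nlinarith
    rw [← hRc]
    have h11 : 1 ≤ Real.log X ^ 5 := one_le_pow₀ hl1
    linarith
  -- the two sums
  have hcI : c' ∈ Icc (T - ll X) (T - ll X / 2) := ⟨by linarith, by linarith⟩
  have hdI : d' ∈ Icc (T + ll X / 2) (T + ll X) := ⟨by linarith, by linarith⟩
  have hUm := hU X hXa T hT c' d' hcI hdI hGc hGd hder
  have hSm := hS X hXb T hT c' d' hcI hdI hGc hGd hder
  rw [Sg_eq_int (xc_pos hc) hX3' T] at hSm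
  have hUlow := hUl X hXc T
  set U := ∑ ρ ∈ Zf c' d', Wt T X ρ / deriv riemannZeta ρ with hUd
  set S := ∑ ρ ∈ Zf c' d', G0 (xc c) ρ * Gamma ρ * Wt T X ρ / deriv riemannZeta ρ with hSd
  have hUn : hh X / 5 - 1 ≤ ‖U‖ := by
    set V := (1 / (2 * Real.pi) : ℂ) * ∫ y : ℝ, Wt T X (⟨3 / 2, y⟩ : ℂ) * (riemannZeta ⟨3 / 2, y⟩)⁻¹ with hV
    have := norm_sub_norm_le V U
    rw [norm_sub_rev] at this
    linarith
  -- inner zeros
  set ind : ℂ → ℝ := fun ρ => if |ρ.im - T| ≤ ll X - hh X - 4 then ‖1 / deriv riemannZeta ρ‖ else 0 with hind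
  have hind0 : ∀ ρ, 0 ≤ ind ρ := by
    intro ρ
    simp only [hind]
    split_ifs <;> positivity
  have hhp := hh_pos hX3'
  have hMM : ∑ ρ ∈ Zf c' d', ind ρ ≤ MM Z X T := by
    simp only [hind]
    rw [← Finset.sum_filter]
    set F := (Zf c' d').filter (fun ρ => |ρ.im - T| ≤ ll X - hh X - 4) with hF
    have hinj : Set.InjOn (fun ρ : ℂ => ρ.im) F := by
      intro x hx y hy hxy
      have hx' := (Finset.mem_filter.1 (Finset.mem_coe.1 hx)).1
      have hy' := (Finset.mem_filter.1 (Finset.mem_coe.1 hy)).1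
      exact Complex.ext (by rw [(hZ x hx').2.1, (hZ y hy').2.1]) hxy
    have hsubZ : F.image (fun ρ => ρ.im) ⊆ Z := by
      intro γ hγ
      rw [Finset.mem_image] at hγ
      obtain ⟨ρ, hρ, rfl⟩ := hγ
      obtain ⟨hρ1, hρ2⟩ := Finset.mem_filter.1 hρ
      obtain ⟨h1, h2, h3, h4, h5⟩ := hZ ρ hρ1
      have hn1 := ((mem_Zf hcp.le).1 hρ1).1
      have hb : ∀ u : ℝ, |u - ρ.im| ≤ hh X + 3 → |u - T| ≤ ll X := by
        intro u hu
        have := abs_sub_le u ρ.im T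
        linarith
      rw [hZdef, Finset.mem_filter]
      refine ⟨Finset.mem_image_of_mem _ ((mem_Zf (by linarith)).2 ⟨hn1, by linarith, h5⟩), h4, h5,
        ⟨fun ρ' a1 a2 a3 => hsimp ρ' a1 a2 (hb _ a3), fun ρ' ρ'' a1 a2 a3 b1 b2 b3 hne =>
          hsep ρ' ρ'' a1 a2 (hb _ a3) b1 b2 (hb _ b3) hne⟩, ?_⟩
      rw [hmk ρ h2]; exact h1
    unfold MM
    calc ∑ ρ ∈ F, ‖1 / deriv riemannZeta ρ‖ = ∑ γ ∈ F.image (fun ρ => ρ.im),
          (Icc (γ - ll X) (γ + ll X)).indicator (fun _ => 1 / ‖deriv riemannZeta (⟨1 / 2, γ⟩ : ℂ)‖) T := by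
          rw [Finset.sum_image hinj]
          apply Finset.sum_congr rfl
          intro ρ hρ
          obtain ⟨hρ1, hρ2⟩ := Finset.mem_filter.1 hρ
          obtain ⟨h1, h2, h3, h4, h5⟩ := hZ ρ hρ1
          have h6 := abs_le.1 h3
          rw [Set.indicator_of_mem (show T ∈ Icc (ρ.im - ll X) (ρ.im + ll X) from
            ⟨by linarith [h6.2], by linarith [h6.1]⟩), hmk ρ h2, norm_div, norm_one]
      _ ≤ _ := by
          apply Finset.sum_le_sum_of_subset_of_nonneg hsubZ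
          intro γ _ _
          apply Set.indicator_nonneg
          intro _ _
          positivity
  -- the comparison
  have hcmp : ‖S - 2 * Real.pi * I * (Real.exp 1 / c : ℝ) * κ * (starRingEnd ℂ) U‖ ≤
      1 + 2 * Real.pi * (Real.exp 1 / c) * η * MM Z X T := by
    have e1 : S - 2 * Real.pi * I * (Real.exp 1 / c : ℝ) * κ * (starRingEnd ℂ) U =
        ∑ ρ ∈ Zf c' d', (G0 (xc c) ρ * Gamma ρ / deriv riemannZeta ρ -
          2 * Real.pi * I * (Real.exp 1 / c : ℝ) * κ * (starRingEnd ℂ) (1 / deriv riemannZeta ρ)) * Wt T X ρ := by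
      rw [hSd, hUd, map_sum, Finset.mul_sum, ← Finset.sum_sub_distrib]
      apply Finset.sum_congr rfl
      intro ρ hρ
      have hW : (starRingEnd ℂ) (Wt T X ρ) = Wt T X ρ := by
        rw [← hmk ρ (hZ ρ hρ).2.1, Wt_half, Complex.conj_ofReal]
      rw [map_div₀, map_div₀, hW, map_one]
      ring
    rw [e1]
    have hterm : ∀ ρ ∈ Zf c' d', ‖(G0 (xc c) ρ * Gamma ρ / deriv riemannZeta ρ -
          2 * Real.pi * I * (Real.exp 1 / c : ℝ) * κ * (starRingEnd ℂ) (1 / deriv riemannZeta ρ)) * Wt T X ρ‖ ≤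
        K1 * X⁻¹ * (3 * X ^ (1 / 4 : ℝ)) + 2 * Real.pi * (Real.exp 1 / c) * η * ind ρ := by
      intro ρ hρ
      obtain ⟨h1, h2, h3, h4, h5⟩ := hZ ρ hρ
      have hWn : ‖Wt T X ρ‖ = Real.exp (-((ρ.im - T) ^ 2 / hh X ^ 2)) := by
        rw [← hmk ρ h2, Wt_half, Complex.norm_real, Real.norm_of_nonneg (Real.exp_pos _).le]
      have hWn1 : ‖Wt T X ρ‖ ≤ 1 := by
        rw [hWn, Real.exp_le_one_iff]
        have : 0 ≤ (ρ.im - T) ^ 2 / hh X ^ 2 := by positivity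
        linarith
      have hWind : ‖1 / deriv riemannZeta ρ‖ * ‖Wt T X ρ‖ ≤ X⁻¹ * (3 * X ^ (1 / 4 : ℝ)) + ind ρ := by
        by_cases hin : |ρ.im - T| ≤ ll X - hh X - 4
        · have : ind ρ = ‖1 / deriv riemannZeta ρ‖ := by simp only [hind]; rw [if_pos hin]
          rw [this]
          have h6 : 0 ≤ X⁻¹ * (3 * X ^ (1 / 4 : ℝ)) := by positivity
          have h7 : ‖1 / deriv riemannZeta ρ‖ * ‖Wt T X ρ‖ ≤ ‖1 / deriv riemannZeta ρ‖ * 1 := by gcongr
          linarith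
        · push Not at hin
          have h6 : ‖Wt T X ρ‖ ≤ X⁻¹ := by
            rw [hWn, ← Real.exp_log (show 0 < X⁻¹ by positivity), Real.log_inv]
            apply Real.exp_le_exp.2
            rw [neg_le_neg_iff]
            have h7 : ll X / 2 ≤ |ρ.im - T| := by
              have h8 : hh X + 4 ≤ ll X / 2 := by
                rw [hhh, hllX]
                nlinarith [sq_nonneg (Real.log X), sq_nonneg (Real.log X ^ 2), mul_self_nonneg (Real.log X - 10)]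
              linarith
            have h8 : (ll X / 2) ^ 2 ≤ (ρ.im - T) ^ 2 := by
              rw [← sq_abs (ρ.im - T)]
              have : 0 ≤ ll X / 2 := by linarith
              gcongr
            calc Real.log X ≤ Real.log X ^ 4 / 4 := by
                  have h9 : (10 : ℝ) ^ 3 ≤ Real.log X ^ 3 := by gcongr
                  have h10 : Real.log X ^ 4 = Real.log X * Real.log X ^ 3 := by ring
                  rw [h10]
                  nlinarith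
              _ = (ll X / 2) ^ 2 / hh X ^ 2 := (ll_div X hX3').symm
              _ ≤ _ := by gcongr
          have h7 := hlow ρ hρ
          have h8 := hind0 ρ
          have h9 : ‖1 / deriv riemannZeta ρ‖ * ‖Wt T X ρ‖ ≤ (3 * X ^ (1 / 4 : ℝ)) * X⁻¹ := by gcongr
          linarith
      have h6 := hfe ρ.im (by linarith) (by rw [hmk ρ h2]; exact h1) (by rw [hmk ρ h2]; exact hder ρ hρ)
      rw [hmk ρ h2] at h6
      have h7 := hph ρ h1 h2 (by linarith)
      have e2 : G0 (xc c) ρ * Gamma ρ / deriv riemannZeta ρ -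
          2 * Real.pi * I * (Real.exp 1 / c : ℝ) * κ * (starRingEnd ℂ) (1 / deriv riemannZeta ρ) =
          (G0 (xc c) ρ * Gamma ρ / deriv riemannZeta ρ -
          2 * Real.pi * I * (Real.exp 1 / c : ℝ) * ph c ρ.im * (starRingEnd ℂ) (1 / deriv riemannZeta ρ)) +
          2 * Real.pi * I * (Real.exp 1 / c : ℝ) * (ph c ρ.im - κ) * (starRingEnd ℂ) (1 / deriv riemannZeta ρ) := by
        ring
      have h8 : C4 / ρ.im ≤ 2 * C4 * X⁻¹ := by
        calc C4 / ρ.im ≤ C4 / (X / 2) := by gcongr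
          _ = 2 * C4 * X⁻¹ := by field_simp
      have h9 : ‖2 * Real.pi * I * (Real.exp 1 / c : ℝ) * (ph c ρ.im - κ) * (starRingEnd ℂ) (1 / deriv riemannZeta ρ)‖ ≤
          2 * Real.pi * (Real.exp 1 / c) * η * ‖1 / deriv riemannZeta ρ‖ := by
        rw [norm_mul, norm_mul, norm_mul, norm_mul, norm_mul, Complex.norm_I, mul_one, RCLike.norm_conj,
          Complex.norm_real, Complex.norm_real, Real.norm_of_nonneg Real.pi_pos.le,
          Real.norm_of_nonneg (by positivity : (0:ℝ) ≤ Real.exp 1 / c), Complex.norm_ofNat]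
        gcongr
      have h10 : ‖G0 (xc c) ρ * Gamma ρ / deriv riemannZeta ρ -
          2 * Real.pi * I * (Real.exp 1 / c : ℝ) * ph c ρ.im * (starRingEnd ℂ) (1 / deriv riemannZeta ρ)‖ ≤
          2 * C4 * X⁻¹ * (3 * X ^ (1 / 4 : ℝ)) := by
        refine h6.trans ?_
        have := hlow ρ hρ
        gcongr
      rw [norm_mul, e2]
      calc _ ≤ (2 * C4 * X⁻¹ * (3 * X ^ (1 / 4 : ℝ)) +
            2 * Real.pi * (Real.exp 1 / c) * η * ‖1 / deriv riemannZeta ρ‖) * ‖Wt T X ρ‖ := by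
            gcongr
            exact (norm_add_le _ _).trans (add_le_add h10 h9)
        _ = 2 * C4 * X⁻¹ * (3 * X ^ (1 / 4 : ℝ)) * ‖Wt T X ρ‖ +
            2 * Real.pi * (Real.exp 1 / c) * η * (‖1 / deriv riemannZeta ρ‖ * ‖Wt T X ρ‖) := by ring
        _ ≤ 2 * C4 * X⁻¹ * (3 * X ^ (1 / 4 : ℝ)) * 1 +
            2 * Real.pi * (Real.exp 1 / c) * η * (X⁻¹ * (3 * X ^ (1 / 4 : ℝ)) + ind ρ) := by gcongr
        _ = 2 * C4 * X⁻¹ * (3 * X ^ (1 / 4 : ℝ)) + 2 * Real.pi * (Real.exp 1 / c) * η * (X⁻¹ * (3 * X ^ (1 / 4 : ℝ))) +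
            2 * Real.pi * (Real.exp 1 / c) * η * ind ρ := by ring
        _ ≤ 2 * C4 * X⁻¹ * (3 * X ^ (1 / 4 : ℝ)) + 2 * Real.pi * (Real.exp 1 / c) * 1 * (X⁻¹ * (3 * X ^ (1 / 4 : ℝ))) +
            2 * Real.pi * (Real.exp 1 / c) * η * ind ρ := by gcongr
        _ = _ := by rw [hK1]; ring
    calc _ ≤ ∑ ρ ∈ Zf c' d', (K1 * X⁻¹ * (3 * X ^ (1 / 4 : ℝ)) + 2 * Real.pi * (Real.exp 1 / c) * η * ind ρ) :=
          (norm_sum_le _ _).trans (Finset.sum_le_sum hterm)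
      _ = ((Zf c' d').card : ℝ) * (K1 * X⁻¹ * (3 * X ^ (1 / 4 : ℝ))) +
          2 * Real.pi * (Real.exp 1 / c) * η * ∑ ρ ∈ Zf c' d', ind ρ := by
          rw [Finset.sum_add_distrib, Finset.sum_const, nsmul_eq_mul, Finset.mul_sum]
      _ ≤ ((2 / c1 + 1) * Real.log X ^ 5) * (K1 * X⁻¹ * (3 * X ^ (1 / 4 : ℝ))) +
          2 * Real.pi * (Real.exp 1 / c) * η * MM Z X T := by gcongr
      _ = (2 / c1 + 1) * (3 * K1) * Real.log X ^ 5 * (X ^ (-1 : ℝ) * X ^ (1 / 4 : ℝ)) +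
          2 * Real.pi * (Real.exp 1 / c) * η * MM Z X T := by rw [Real.rpow_neg_one]; ring
      _ = (2 / c1 + 1) * (3 * K1) * Real.log X ^ 5 * X ^ (-(3 / 4) : ℝ) +
          2 * Real.pi * (Real.exp 1 / c) * η * MM Z X T := by
          rw [← Real.rpow_add hX0]
          norm_num
      _ ≤ _ := by gcongr
  have hn1 : ‖2 * Real.pi * I * (Real.exp 1 / c : ℝ) * κ * (starRingEnd ℂ) U‖ =
      2 * Real.pi * (Real.exp 1 / c) * ‖U‖ := by
    rw [norm_mul, norm_mul, norm_mul, norm_mul, norm_mul, Complex.norm_I, mul_one, RCLike.norm_conj,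
      Complex.norm_real, Complex.norm_real, Real.norm_of_nonneg Real.pi_pos.le,
      Real.norm_of_nonneg (by positivity : (0:ℝ) ≤ Real.exp 1 / c), Complex.norm_ofNat, hκ, mul_one]
  have hSn : 2 * Real.pi * (Real.exp 1 / c) * ‖U‖ - (1 + 2 * Real.pi * (Real.exp 1 / c) * η * MM Z X T) ≤ ‖S‖ := by
    have := norm_sub_norm_le (2 * Real.pi * I * (Real.exp 1 / c : ℝ) * κ * (starRingEnd ℂ) U) S
    rw [norm_sub_rev] at this
    linarith
  have hSg : ‖S‖ - 1 ≤ ‖Sg (xc c) X T‖ := by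
    have := norm_sub_norm_le S (Sg (xc c) X T)
    linarith
  have hh100 : 10 * (10 + 10 * (c / Real.exp 1)) ≤ hh X := by
    rw [hhh]; nlinarith
  have hE0 : 0 < Real.exp 1 / c := by positivity
  have hprod : Real.exp 1 / c * (c / Real.exp 1) = 1 := by field_simp
  have h12 : 6 * (Real.exp 1 / c) * (hh X / 5 - 1) ≤ 2 * Real.pi * (Real.exp 1 / c) * ‖U‖ := by
    have h13 : 0 ≤ hh X / 5 - 1 := by linarith
    calc 6 * (Real.exp 1 / c) * (hh X / 5 - 1) ≤ 2 * Real.pi * (Real.exp 1 / c) * (hh X / 5 - 1) := by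
          gcongr
          linarith [Real.pi_gt_three]
      _ ≤ _ := by gcongr
  have h14 : Real.exp 1 / c * (10 * (10 + 10 * (c / Real.exp 1))) ≤ Real.exp 1 / c * hh X := by gcongr
  nlinarith

/-- coherent windows are rare -/
theorem coh_rare2 (RH : RiemannHypothesis) {c1 : ℝ} (hc1 : 0 < c1) (hc1' : c1 ≤ 1) :
    ∃ A : ℕ, ∀ c : ℝ, 0 < c → ∀ ε : ℝ, 0 < ε →
    ∃ X0 : ℝ, 3 ≤ X0 ∧ ∀ X : ℝ, X0 ≤ X → ∀ G : Set ℝ, MeasurableSet G → G ⊆ Icc X (2 * X) →
      (∀ T ∈ G, CohE c (1 / Real.log X ^ A) c1 X T) → volume.real G ≤ ε * X := by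
  obtain ⟨K, Xs, hXs, hsum⟩ := sum_inv RH hc1 hc1'
  refine ⟨K + 4, fun c hc ε hε => ?_⟩
  obtain ⟨X1, hX1, h1⟩ := coh_low2 RH hc hc1 hc1'
  obtain ⟨X2, hX2, h2⟩ := Sg_small (xc_pos hc) (ε := ε / 2 * (Real.exp 1 / c) ^ 2) (by positivity)
  obtain ⟨X3, hX3, h3⟩ := ev_log (64 / ε)
  refine ⟨max (max X1 X2) (max Xs X3), (hX1.trans (le_max_left _ _)).trans (le_max_left _ _),
    fun X hX G hG hGs hcoh => ?_⟩
  simp only [max_le_iff] at hX
  obtain ⟨⟨hXa, hXb⟩, hXc, hXd⟩ := hX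
  have hX3' : 3 ≤ X := hX1.trans hXa
  have hX0 : 0 < X := by linarith
  have hl1 := log_ge_one hX3'
  have hl0 : 0 < Real.log X := by linarith
  obtain ⟨Z, hZ, hlow⟩ := h1 X hXa
  obtain ⟨h4, h5⟩ := h2 X hXb
  have h6 := hsum X hXc Z hZ
  have h7 := h3 X hXd
  obtain ⟨h8, h9⟩ := MM_int Z hX3'
  have hh1 := hh_pos hX3'
  set θ := Real.exp 1 / c * hh X with hθ
  have hθ0 : 0 < θ := by positivity
  set η := 1 / Real.log X ^ (K + 4) with hη
  have hη0 : 0 ≤ η := by positivity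
  have hη1 : η ≤ 1 := by
    rw [hη, div_le_one (by positivity)]
    exact one_le_pow₀ hl1
  have hfin : volume G ≠ ⊤ := ne_top_of_le_ne_top (by simp) (measure_mono hGs)
  set K2 := 2 * Real.pi * (Real.exp 1 / c) with hK2
  have hK20 : 0 < K2 := by positivity
  have h10 : θ ^ 2 * volume.real G ≤ ∫ T in G, (‖Sg (xc c) X T‖ ^ 2 + 2 * θ * (K2 * η * MM Z X T)) := by
    have h11 : ∫ T in G, θ ^ 2 = θ ^ 2 * volume.real G := by
      rw [setIntegral_const, smul_eq_mul, mul_comm]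
    rw [← h11]
    apply setIntegral_mono_on (integrableOn_const hfin) _ hG
    · intro T hT
      have h12 := hlow T (hGs hT) η hη0 hη1 (hcoh T hT)
      have h13 := MM_nonneg Z X T
      have h14 : 0 ≤ K2 * η * MM Z X T := by positivity
      nlinarith [sq_nonneg (‖Sg (xc c) X T‖ - θ)]
    · exact (h4.mono_set hGs).add ((h8.const_mul _).const_mul _).integrableOn
  have h11 : ∫ T in G, (‖Sg (xc c) X T‖ ^ 2 + 2 * θ * (K2 * η * MM Z X T)) =
      (∫ T in G, ‖Sg (xc c) X T‖ ^ 2) + 2 * θ * (K2 * η * ∫ T in G, MM Z X T) := by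
    rw [integral_add (h4.mono_set hGs) ((h8.const_mul _).const_mul _).integrableOn, integral_const_mul,
      integral_const_mul]
  have h12 : ∫ T in G, ‖Sg (xc c) X T‖ ^ 2 ≤ ∫ T in Icc X (2 * X), ‖Sg (xc c) X T‖ ^ 2 :=
    setIntegral_mono_set h4 (Eventually.of_forall fun _ => by positivity) (Eventually.of_forall hGs)
  have h13 : ∫ T in G, MM Z X T ≤ 2 * ll X * (X * Real.log X ^ K) := by
    calc ∫ T in G, MM Z X T ≤ ∫ T, MM Z X T :=
          setIntegral_le_integral h8 (Eventually.of_forall fun T => MM_nonneg Z X T)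
      _ ≤ _ := by
          rw [h9]
          have : 0 ≤ ll X := by unfold ll; positivity
          gcongr
  have h14 : η * (2 * ll X * (X * Real.log X ^ K)) = 2 * X := by
    rw [hη, pow_add]
    unfold ll
    field_simp
  have h15 : θ ^ 2 * volume.real G ≤ ε / 2 * θ ^ 2 * X + 2 * θ * (K2 * (2 * X)) := by
    calc θ ^ 2 * volume.real G ≤ (∫ T in G, ‖Sg (xc c) X T‖ ^ 2) + 2 * θ * (K2 * η * ∫ T in G, MM Z X T) := by
          rw [← h11]; exact h10
      _ ≤ ε / 2 * (Real.exp 1 / c) ^ 2 * hh X ^ 2 * X + 2 * θ * (K2 * η * (2 * ll X * (X * Real.log X ^ K))) := by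
          have := h12.trans h5
          gcongr
      _ = _ := by
          rw [mul_assoc K2 η, h14, hθ]
          ring
  have h16 : 2 * θ * (K2 * (2 * X)) ≤ ε / 2 * θ ^ 2 * X := by
    have h17 : K2 * hh X = 2 * Real.pi * θ := by rw [hK2, hθ]; ring
    have h18 : 64 / ε ≤ hh X := by
      have : hh X = Real.log X ^ 2 := rfl
      rw [this]
      nlinarith
    rw [div_le_iff₀ hε] at h18
    have h19 : 8 * K2 ≤ ε * θ := by
      have h20 : K2 ≤ 8 * (Real.exp 1 / c) := by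
        rw [hK2]
        have := Real.pi_lt_four
        gcongr
        linarith
      calc 8 * K2 ≤ 8 * (8 * (Real.exp 1 / c)) := by gcongr
        _ = 64 * (Real.exp 1 / c) := by ring
        _ ≤ hh X * ε * (Real.exp 1 / c) := by gcongr
        _ = ε * θ := by rw [hθ]; ring
    have : 0 < θ * X := by positivity
    nlinarith
  have h17 : θ ^ 2 * volume.real G ≤ θ ^ 2 * (ε * X) := by linarith
  exact le_of_mul_le_mul_left h17 (by positivity)

end Pool.Agent.Helper44K9.AL
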