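import Pool.Agent.Helper44K9.AL.Near
import Pool.Agent.H382P.LocExp
import Pool.Agent.H382P.Mom2
import Pool.Agent.Helper246.BlumAna

/-! Bounds for `ζ'/ζ` near a stretch of separated zeros. -/

set_option autoImplicit false

namespace Pool.Agent.Helper44K9.AL

open Complex Filter Topology Set MeasureTheory
open Pool.Agent.Helper44K9.AR (Zf mem_Zf rh_re hh ll log_ge_one tiny hh_small)

lemma rhs_of (RH : RiemannHypothesis) : SP.RHs := by
  intro s h1 h2 h0
  apply RH s h0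
  · rintro ⟨n, hn⟩
    rw [hn] at h1
    simp at h1
    have : (0 : ℝ) ≤ n := Nat.cast_nonneg n
    linarith
  · intro h
    rw [h] at h2
    simp at h2

lemma mu_one {s : ℂ} (hs : 0 < s.im) (h0 : riemannZeta s = 0) (h1 : deriv riemannZeta s ≠ 0) : SP.mu s = 1 := by
  have hs1 : s ≠ 1 := ne_one_im hs
  have ha := AR.zeta_an hs1
  have h2 := ha.analyticOrderAt_deriv_add_one
  have h3 : (fun z => riemannZeta z - riemannZeta s) = riemannZeta := by
    funext z; rw [h0, sub_zero]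
  rw [h3] at h2
  have h4 : analyticOrderAt (deriv riemannZeta) s = 0 := (ha.deriv.analyticOrderAt_eq_zero).2 h1
  rw [h4, zero_add] at h2
  unfold SP.mu H370.mult analyticOrderNatAt
  rw [← h2]
  rfl

theorem nice_set (RH : RiemannHypothesis) (c1 : ℝ) :
    ∃ C X0 : ℝ, 0 < C ∧ 3 ≤ X0 ∧ ∀ X : ℝ, X0 ≤ X → ∀ t : ℝ, X / 3 ≤ t → t ≤ 4 * X → Nice c1 X t →
    ∃ S : Finset ℝ, SepS (c1 / Real.log X) S ∧ (∀ y ∈ S, |y - t| ≤ 1) ∧
      (∀ y : ℝ, riemannZeta (⟨1 / 2, y⟩ : ℂ) = 0 → |y - t| < 1 → y ∈ S) ∧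
      ∀ x v : ℝ, 0 < x → x ≤ 1 / 16 → |v - t| ≤ 1 / 16 →
      ‖logDeriv riemannZeta (⟨1 / 2 + x, v⟩ : ℂ) - ∑ y ∈ S, 1 / ((x : ℂ) + I * (v - y : ℝ))‖ ≤ C * Real.log X ∧
      |(logDeriv riemannZeta (⟨1 / 2 + x, v⟩ : ℂ)).re - ∑ y ∈ S, x / (x ^ 2 + (v - y) ^ 2)| ≤ C * Real.log X := by
  obtain ⟨C1, T0, hC1, hT0, hloc⟩ := SP.loc_exp (rhs_of RH)
  obtain ⟨C2, hC2, hG⟩ := H370.DL.logDeriv_Gammaℝ_bound
  refine ⟨2 * C1 + 2 + C2, 5 * T0 + 1000, by positivity, by linarith, fun X hX t ht1 ht2 hN => ?_⟩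
  have hX0 : 1000 ≤ X := by linarith
  set T := 2 * t / 3 with hT
  have hTX : 2 * X / 9 ≤ T := by rw [hT]; linarith
  have hTT0 : T0 ≤ T := by rw [hT]; linarith
  have hT1 : 1 ≤ T := by linarith
  have hT' : T ≤ 3 * X := by rw [hT]; linarith
  have hfin : {s : ℂ | s ∈ SP.ZZ T ∧ |s.im - t| ≤ 1}.Finite :=
    (SP.ZZ_finite T hT1).subset fun s hs => hs.1
  set l := Real.log X with hl
  have hl1 : 1 ≤ l := log_ge_one (by linarith)
  have hlT : Real.log T ≤ 2 * l := by
    have h5 : Real.log T ≤ Real.log (X ^ 2) := Real.log_le_log (by linarith) (by nlinarith)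
    rw [Real.log_pow] at h5
    exact_mod_cast h5
  have hlT0 : 0 ≤ Real.log T := Real.log_nonneg hT1
  classical
  have hmem : ∀ s ∈ hfin.toFinset, riemannZeta s = 0 ∧ s.re = 1 / 2 ∧ |s.im - t| ≤ 1 ∧ 0 < s.im := by
    intro s hs
    rw [Set.Finite.mem_toFinset] at hs
    obtain ⟨⟨h1, h2, h3, h4, h5⟩, h6⟩ := hs
    exact ⟨h5, rh_re RH h5 (by linarith), h6, by linarith⟩
  have hhX : 0 ≤ hh X := by unfold hh; positivity
  have hmu : ∀ s ∈ hfin.toFinset, SP.mu s = 1 := by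
    intro s hs
    obtain ⟨h1, h2, h3, h4⟩ := hmem s hs
    exact mu_one h4 h1 (hN.1 s h1 h2 (by linarith))
  have hinj : Set.InjOn (fun s : ℂ => s.im) hfin.toFinset := by
    intro x hx y hy hxy
    exact Complex.ext (by rw [(hmem x hx).2.1, (hmem y hy).2.1]) hxy
  refine ⟨hfin.toFinset.image (fun s => s.im), ?_, ?_, ?_, ?_⟩
  · intro x hx y hy hne
    rw [Finset.mem_image] at hx hy
    obtain ⟨ρ, hρ, rfl⟩ := hx
    obtain ⟨ρ', hρ', rfl⟩ := hy
    obtain ⟨a1, a2, a3, -⟩ := hmem ρ hρ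
    obtain ⟨b1, b2, b3, -⟩ := hmem ρ' hρ'
    exact hN.2 ρ ρ' a1 a2 (by linarith) b1 b2 (by linarith) (fun h => hne (by rw [h]))
  · intro y hy
    rw [Finset.mem_image] at hy
    obtain ⟨ρ, hρ, rfl⟩ := hy
    exact (hmem ρ hρ).2.2.1
  · intro y hy hyt
    rw [Finset.mem_image]
    refine ⟨⟨1 / 2, y⟩, ?_, rfl⟩
    rw [Set.Finite.mem_toFinset]
    rw [abs_lt] at hyt
    refine ⟨⟨by norm_num, by norm_num, ?_, ?_, hy⟩, ?_⟩
    · change T < y
      rw [hT]; linarith
    · change y ≤ 2 * T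
      rw [hT]; linarith
    · change |y - t| ≤ 1
      rw [abs_le]; constructor <;> linarith
  · intro x v hx hx1 hv
    obtain ⟨h1, h2, h3⟩ := hloc T hTT0 t (by rw [hT]; linarith) (by rw [hT]; linarith) x v hx hx1 hv
    rw [finsum_mem_eq_finite_toFinset_sum _ hfin] at h2 h3
    have e1 : ∑ s ∈ hfin.toFinset, (SP.mu s : ℂ) / ((x : ℂ) + I * (v - s.im : ℝ)) =
        ∑ y ∈ hfin.toFinset.image (fun s => s.im), 1 / ((x : ℂ) + I * (v - y : ℝ)) := by
      rw [Finset.sum_image hinj]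
      apply Finset.sum_congr rfl
      intro s hs
      rw [hmu s hs, Nat.cast_one]
    have e2 : ∑ s ∈ hfin.toFinset, (SP.mu s : ℝ) * x / (x ^ 2 + (v - s.im) ^ 2) =
        ∑ y ∈ hfin.toFinset.image (fun s => s.im), x / (x ^ 2 + (v - y) ^ 2) := by
      rw [Finset.sum_image hinj]
      apply Finset.sum_congr rfl
      intro s hs
      rw [hmu s hs, Nat.cast_one, one_mul]
    rw [e1] at h2
    rw [e2] at h3
    rw [abs_le] at hv
    have hv1 : 1 ≤ v := by linarith
    set z : ℂ := ⟨1 / 2 + x, v⟩ with hz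
    have hzim : z.im = v := rfl
    have hzre : z.re = 1 / 2 + x := rfl
    have hzim0 : z.im ≠ 0 := by rw [hzim]; linarith
    have hζ : riemannZeta z ≠ 0 := rh_nz RH z (by rw [hzre]; linarith) (by rw [hzim]; linarith)
    have hΛ : logDeriv completedRiemannZeta z = logDeriv Gammaℝ z + logDeriv riemannZeta z := by
      have h4 : completedRiemannZeta =ᶠ[𝓝 z] fun w => Gammaℝ w * riemannZeta w := by
        have : {w : ℂ | w.im ≠ 0} ∈ 𝓝 z := (isOpen_ne.preimage continuous_im).mem_nhds hzim0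
        filter_upwards [this] with w hw
        exact SG.AlgAux.Lam_eq hw
      rw [logDeriv_apply, h4.deriv_eq, h4.self_of_nhds, ← logDeriv_apply,
        logDeriv_mul z (H370.DL.Gammaℝ_ne_zero_of_im hzim0) hζ
        (H370.DL.analyticAt_Gammaℝ hzim0).differentiableAt (differentiableAt_riemannZeta (ne_one_im (by rw [hzim]; linarith)))]
    have hGb := hG z (by rw [hzre]; linarith) (by rw [hzre]; linarith) (by rw [hzim, abs_of_pos (by linarith)]; exact hv1)
    rw [hzim, abs_of_pos (by linarith)] at hGb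
    have hlv0 : 0 ≤ Real.log v := Real.log_nonneg hv1
    have hlv : Real.log v ≤ 2 * l := by
      have h5 : Real.log v ≤ Real.log (X ^ 2) := Real.log_le_log (by linarith) (by nlinarith)
      rw [Real.log_pow] at h5
      exact_mod_cast h5
    have hGn : ‖logDeriv Gammaℝ z‖ ≤ (1 + C2) * l := by
      have h5 : ‖(1 / 2 * (Real.log v : ℂ) : ℂ)‖ = 1 / 2 * Real.log v := by
        rw [norm_mul, Complex.norm_real, Real.norm_of_nonneg hlv0]
        norm_num
      have h6 := norm_add_le (logDeriv Gammaℝ z - 1 / 2 * (Real.log v : ℂ)) (1 / 2 * (Real.log v : ℂ))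
      rw [sub_add_cancel, h5] at h6
      nlinarith
    constructor
    · set Sm := ∑ y ∈ hfin.toFinset.image (fun s => s.im), 1 / ((x : ℂ) + I * (v - y : ℝ))
      have e3 : logDeriv riemannZeta z - Sm = (logDeriv completedRiemannZeta z - Sm) - logDeriv Gammaℝ z := by
        rw [hΛ]; ring
      rw [e3]
      refine (norm_sub_le _ _).trans ?_
      have : C1 * Real.log T ≤ C1 * (2 * l) := by gcongr
      nlinarith
    · set Sm := ∑ y ∈ hfin.toFinset.image (fun s => s.im), x / (x ^ 2 + (v - y) ^ 2)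
      have e3 : (logDeriv riemannZeta z).re - Sm = ((logDeriv completedRiemannZeta z).re - Sm) -
          (logDeriv Gammaℝ z).re := by
        rw [hΛ, add_re]; ring
      rw [e3]
      refine (abs_sub _ _).trans ?_
      have h7 := (Complex.abs_re_le_norm (logDeriv Gammaℝ z)).trans hGn
      have h8 : C1 * x * Real.log T ≤ C1 * (2 * l) := by
        have : C1 * x * Real.log T ≤ C1 * 1 * (2 * l) := by
          gcongr
          linarith
        linarith
      nlinarith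

/-- bounds for `ζ'/ζ` -/
theorem ld_bounds (RH : RiemannHypothesis) {c1 : ℝ} (hc1 : 0 < c1) (hc1' : c1 ≤ 1) :
    ∃ C X0 : ℝ, 0 < C ∧ 3 ≤ X0 ∧ ∀ X : ℝ, X0 ≤ X → ∀ t : ℝ, X / 3 ≤ t → t ≤ 4 * X → Nice c1 X t →
      ∀ x v : ℝ, 0 < x → x ≤ 1 / 16 → |v - t| ≤ 1 / 16 →
      (c1 / Real.log X ≤ x → (logDeriv riemannZeta (⟨1 / 2 + x, v⟩ : ℂ)).re ≤ C * Real.log X) ∧
      (c1 / Real.log X ≤ x → ‖logDeriv riemannZeta (⟨1 / 2 + x, v⟩ : ℂ)‖ ≤
        C * Real.log X * (1 + Real.log (Real.log X))) ∧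
      (riemannZeta (⟨1 / 2, v⟩ : ℂ) = 0 → (logDeriv riemannZeta (⟨1 / 2 + x, v⟩ : ℂ)).re ≤ 1 / x + C * Real.log X) := by
  obtain ⟨C, X1, hC, hX1, hset⟩ := nice_set RH c1
  refine ⟨C + 6 / c1 + 4 / c1 * (3 + Real.log (1 / c1)), X1, by
    have : 0 ≤ Real.log (1 / c1) := Real.log_nonneg (by rw [le_div_iff₀ hc1]; linarith)
    positivity, hX1, fun X hX t ht1 ht2 hN => ?_⟩
  obtain ⟨S, hsep, hS1, hS2, hb⟩ := hset X hX t ht1 ht2 hN
  have hX3 : 3 ≤ X := hX1.trans hX
  set l := Real.log X with hl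
  have hl1 : 1 ≤ l := log_ge_one hX3
  have hlp : 0 < l := by linarith
  have hll : 0 ≤ Real.log l := Real.log_nonneg hl1
  have hlc : 0 ≤ Real.log (1 / c1) := Real.log_nonneg (by rw [le_div_iff₀ hc1]; linarith)
  set δ := c1 / l with hδ
  have hδ0 : 0 < δ := by positivity
  have hδ1 : δ ≤ 1 := by rw [hδ, div_le_one hlp]; linarith
  intro x v hx hx1 hv
  obtain ⟨h1, h2⟩ := hb x v hx hx1 hv
  classical
  set S' : Finset ℝ := S.image (fun y => v - y) with hS'
  have hinj : Set.InjOn (fun y : ℝ => v - y) S := by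
    intro a _ b _ hab
    simp only at hab
    linarith
  have hsep' : SepS δ S' := by
    intro a ha b hb hne
    rw [hS', Finset.mem_image] at ha hb
    obtain ⟨p, hp, rfl⟩ := ha
    obtain ⟨q, hq, rfl⟩ := hb
    have := hsep q hq p hp (fun h => hne (by rw [h]))
    have e : v - p - (v - q) = q - p := by ring
    rw [e]
    exact this
  have e1 : ∑ y ∈ S, x / (x ^ 2 + (v - y) ^ 2) = ∑ u ∈ S', x / (x ^ 2 + u ^ 2) := by
    rw [hS', Finset.sum_image hinj]
  have h2' := (abs_le.1 h2).2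
  rw [e1] at h2'
  have hK1 : 0 ≤ 6 / c1 := by positivity
  have hK2 : 0 ≤ 4 / c1 * (3 + Real.log (1 / c1)) := by positivity
  refine ⟨fun hxδ => ?_, fun hxδ => ?_, fun hz => ?_⟩
  · have h3 := sum_F' hδ0 hxδ S' hsep'
    have h4 : 6 / δ = 6 / c1 * l := by rw [hδ]; field_simp
    rw [h4] at h3
    nlinarith
  · have h3 := sum_abs hδ0 hδ1 hxδ S' hsep' (by
      intro y hy
      rw [hS', Finset.mem_image] at hy
      obtain ⟨p, hp, rfl⟩ := hy
      have h5 := hS1 p hp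
      have h6 := abs_sub_le v t p
      rw [abs_sub_comm t p] at h6
      linarith)
    rw [hS', Finset.sum_image hinj] at h3
    have h4 : ‖∑ y ∈ S, 1 / ((x : ℂ) + I * (v - y : ℝ))‖ ≤ ∑ y ∈ S, 1 / √(x ^ 2 + (v - y) ^ 2) := by
      refine (norm_sum_le _ _).trans (le_of_eq ?_)
      apply Finset.sum_congr rfl
      intro y _
      rw [norm_div, norm_one]
      congr 1
      rw [Complex.norm_def, Complex.normSq_apply]
      congr 1
      simp
      ring
    have h5 : Real.log (1 / δ) = Real.log l + Real.log (1 / c1) := by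
      rw [hδ, ← Real.log_mul hlp.ne' (by positivity)]
      congr 1
      field_simp
    rw [h5] at h3
    have h6 := norm_add_le (logDeriv riemannZeta (⟨1 / 2 + x, v⟩ : ℂ) - ∑ y ∈ S, 1 / ((x : ℂ) + I * (v - y : ℝ)))
      (∑ y ∈ S, 1 / ((x : ℂ) + I * (v - y : ℝ)))
    rw [sub_add_cancel] at h6
    have h7 : 4 / δ * (3 + (Real.log l + Real.log (1 / c1))) ≤
        4 / c1 * (3 + Real.log (1 / c1)) * l * (1 + Real.log l) := by
      have h8 : 4 / δ = 4 / c1 * l := by rw [hδ]; field_simp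
      rw [h8]
      have h9 : 3 + (Real.log l + Real.log (1 / c1)) ≤ (3 + Real.log (1 / c1)) * (1 + Real.log l) := by nlinarith
      calc 4 / c1 * l * (3 + (Real.log l + Real.log (1 / c1))) ≤
          4 / c1 * l * ((3 + Real.log (1 / c1)) * (1 + Real.log l)) := by gcongr
        _ = _ := by ring
    have h10 : C * l ≤ C * l * (1 + Real.log l) := by
      have : 0 ≤ C * l := by positivity
      nlinarith
    have h11 : 0 ≤ 6 / c1 * l * (1 + Real.log l) := by positivity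
    nlinarith
  · have hvS : v ∈ S := hS2 v hz (by linarith)
    have h0 : (0 : ℝ) ∈ S' := by
      rw [hS', Finset.mem_image]
      exact ⟨v, hvS, by ring⟩
    rw [← Finset.add_sum_erase S' _ h0] at h2'
    have h3 := sum_F hδ0 hx (S'.erase 0) (hsep'.subset (Finset.erase_subset _ _)) (by
      intro y hy
      have h4 := hsep' y (Finset.mem_of_mem_erase hy) 0 h0 (Finset.ne_of_mem_erase hy)
      rwa [sub_zero] at h4)
    have h4 : 4 / δ = 4 / c1 * l := by rw [hδ]; field_simp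
    rw [h4] at h3
    have h5 : x / (x ^ 2 + 0 ^ 2) = 1 / x := by field_simp; norm_num
    rw [h5] at h2'
    have h6 : 4 / c1 * l ≤ 6 / c1 * l := by gcongr; norm_num
    nlinarith

end Pool.Agent.Helper44K9.AL
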