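import Pool.Agent.H382P.EF0

/-! The kernel `e^{w²/2 + Lw} / (w (1 - Lw))`. -/

set_option autoImplicit false

namespace Pool.Agent.Helper44K9.AL

open Complex Filter Topology Set MeasureTheory

/-- Gaussian transform of `1/(w - α)` -/
noncomputable def Psi (α y : ℝ) : ℝ :=
  ∫ v in Ioi (0 : ℝ), Real.exp (α * v) * (1 / √(2 * Real.pi) * Real.exp (-(y - v) ^ 2 / 2))

lemma s2pi : 0 < √(2 * Real.pi) := by positivity

lemma gauss_line (c a : ℝ) : ∫ τ : ℝ, cexp (((c : ℂ) + τ * I) ^ 2 / 2 + a * (c + τ * I)) =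
    ((√(2 * Real.pi) * Real.exp (-a ^ 2 / 2) : ℝ) : ℂ) := by
  have h1 : ∀ τ : ℝ, ((c : ℂ) + τ * I) ^ 2 / 2 + a * (c + τ * I) =
      (-1 / 2 : ℂ) * (τ : ℂ) ^ 2 + (I * (c + a)) * (τ : ℂ) + (c ^ 2 / 2 + a * c) := by
    intro τ
    have : ((c : ℂ) + τ * I) ^ 2 = c ^ 2 + 2 * c * τ * I + τ ^ 2 * I ^ 2 := by ring
    rw [this, I_sq]
    ring
  simp only [h1]
  rw [integral_cexp_quadratic (by norm_num)]
  have h2 : ((Real.pi : ℂ) / -(-1 / 2)) ^ (1 / 2 : ℂ) = ((√(2 * Real.pi) : ℝ) : ℂ) := by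
    rw [Real.sqrt_eq_rpow, Complex.ofReal_cpow (by positivity)]
    push_cast
    congr 1
    ring
  rw [h2]
  push_cast
  congr 2
  have : (I * ((c : ℂ) + a)) ^ 2 = -(c + a) ^ 2 := by rw [mul_pow, I_sq]; ring
  rw [this]
  ring

lemma inv_int {w : ℂ} (hw : 0 < w.re) : ∫ v in Ioi (0 : ℝ), cexp (-w * v) = 1 / w := by
  rw [integral_exp_mul_complex_Ioi (by simpa using hw)]
  simp [neg_div_neg_eq]

lemma ker_int {α c y : ℝ} (hc : α < c) :
    ∫ τ : ℝ, cexp (((c : ℂ) + τ * I) ^ 2 / 2 + y * (c + τ * I)) / ((c : ℂ) + τ * I - α) =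
      ((2 * Real.pi * Psi α y : ℝ) : ℂ) := by
  have hre : ∀ τ : ℝ, 0 < ((c : ℂ) + τ * I - α).re := by
    intro τ; simp; linarith
  have h1 : ∀ τ : ℝ, cexp (((c : ℂ) + τ * I) ^ 2 / 2 + y * (c + τ * I)) / ((c : ℂ) + τ * I - α) =
      ∫ v in Ioi (0 : ℝ), cexp (((c : ℂ) + τ * I) ^ 2 / 2 + y * (c + τ * I)) *
        cexp (-((c : ℂ) + τ * I - α) * v) := by
    intro τ
    rw [integral_const_mul, inv_int (hre τ), mul_one_div]
  simp only [h1]
  have hnorm : ∀ τ v : ℝ, ‖cexp (((c : ℂ) + τ * I) ^ 2 / 2 + y * (c + τ * I)) *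
        cexp (-((c : ℂ) + τ * I - α) * v)‖ =
        (Real.exp (c ^ 2 / 2 + y * c) * Real.exp (-(1 / 2) * τ ^ 2)) * Real.exp (-(c - α) * v) := by
    intro τ v
    rw [norm_mul, Complex.norm_exp, Complex.norm_exp, ← Real.exp_add, ← Real.exp_add, ← Real.exp_add]
    congr 1
    simp [pow_two]
    ring
  rw [integral_integral_swap]
  · have h2 : ∀ v : ℝ, ∫ τ : ℝ, cexp (((c : ℂ) + τ * I) ^ 2 / 2 + y * (c + τ * I)) *
        cexp (-((c : ℂ) + τ * I - α) * v) =
        ((2 * Real.pi * (Real.exp (α * v) * (1 / √(2 * Real.pi) * Real.exp (-(y - v) ^ 2 / 2))) : ℝ) : ℂ) := by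
      intro v
      have h3 : ∀ τ : ℝ, cexp (((c : ℂ) + τ * I) ^ 2 / 2 + y * (c + τ * I)) *
        cexp (-((c : ℂ) + τ * I - α) * v) = cexp (α * v) *
          cexp (((c : ℂ) + τ * I) ^ 2 / 2 + ((y - v : ℝ) : ℂ) * (c + τ * I)) := by
        intro τ
        rw [← Complex.exp_add, ← Complex.exp_add]
        congr 1
        push_cast
        ring
      simp only [h3]
      rw [integral_const_mul, gauss_line]
      have h4 : Real.exp (α * v) * (√(2 * Real.pi) * Real.exp (-(y - v) ^ 2 / 2)) =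
          2 * Real.pi * (Real.exp (α * v) * (1 / √(2 * Real.pi) * Real.exp (-(y - v) ^ 2 / 2))) := by
        have h5 := s2pi
        field_simp
        rw [Real.sq_sqrt (by positivity)]
      rw [← h4]
      push_cast
      rfl
    simp only [h2]
    rw [integral_complex_ofReal]
    congr 1
    rw [integral_const_mul]
    rfl
  · have hg1 : Integrable (fun τ : ℝ => Real.exp (c ^ 2 / 2 + y * c) * Real.exp (-(1 / 2) * τ ^ 2)) :=
      (integrable_exp_neg_mul_sq (by norm_num)).const_mul _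
    have hg2 : Integrable (fun v : ℝ => Real.exp (-(c - α) * v)) (volume.restrict (Ioi 0)) :=
      exp_neg_integrableOn_Ioi 0 (by linarith)
    refine (hg1.mul_prod hg2).mono' ?_ ?_
    · apply Continuous.aestronglyMeasurable
      unfold Function.uncurry
      fun_prop
    · refine Eventually.of_forall fun z => ?_
      simp only [Function.uncurry]
      rw [hnorm]

lemma Psi_nonneg (α y : ℝ) : 0 ≤ Psi α y := by
  unfold Psi
  apply integral_nonneg
  intro v
  positivity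

lemma Psi_le (α β y : ℝ) (hβ : 0 ≤ β) : Psi α y ≤ Real.exp ((α + β) * y + (α + β) ^ 2 / 2) := by
  unfold Psi
  set γ := α + β with hγ
  have h1 : ∀ v : ℝ, Real.exp (γ * v) * (1 / √(2 * Real.pi) * Real.exp (-(y - v) ^ 2 / 2)) =
      1 / √(2 * Real.pi) * Real.exp (γ * y + γ ^ 2 / 2) * Real.exp (-(1 / 2) * (v - (y + γ)) ^ 2) := by
    intro v
    have : Real.exp (γ * v) * Real.exp (-(y - v) ^ 2 / 2) =
        Real.exp (γ * y + γ ^ 2 / 2) * Real.exp (-(1 / 2) * (v - (y + γ)) ^ 2) := by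
      rw [← Real.exp_add, ← Real.exp_add]
      congr 1; ring
    calc Real.exp (γ * v) * (1 / √(2 * Real.pi) * Real.exp (-(y - v) ^ 2 / 2)) =
        1 / √(2 * Real.pi) * (Real.exp (γ * v) * Real.exp (-(y - v) ^ 2 / 2)) := by ring
      _ = _ := by rw [this]; ring
  have hint : Integrable (fun v : ℝ => Real.exp (γ * v) * (1 / √(2 * Real.pi) * Real.exp (-(y - v) ^ 2 / 2))) := by
    simp only [h1]
    exact (H370.gauss_int (y + γ) (1 / 2) (by norm_num)).const_mul _
  have hval : ∫ v : ℝ, Real.exp (γ * v) * (1 / √(2 * Real.pi) * Real.exp (-(y - v) ^ 2 / 2)) =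
      Real.exp (γ * y + γ ^ 2 / 2) := by
    simp only [h1]
    rw [integral_const_mul, H370.gauss_val (y + γ) (1 / 2)]
    have : Real.pi / (1 / 2) = 2 * Real.pi := by ring
    rw [this]
    have := s2pi
    field_simp
  rw [← hval]
  calc ∫ v in Ioi (0 : ℝ), Real.exp (α * v) * (1 / √(2 * Real.pi) * Real.exp (-(y - v) ^ 2 / 2)) ≤
      ∫ v in Ioi (0 : ℝ), Real.exp (γ * v) * (1 / √(2 * Real.pi) * Real.exp (-(y - v) ^ 2 / 2)) := by
        apply integral_mono_of_nonneg
        · exact Eventually.of_forall fun v => by positivity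
        · exact hint.integrableOn
        · rw [Filter.EventuallyLE, ae_restrict_iff' measurableSet_Ioi]
          refine Eventually.of_forall fun v hv => ?_
          have hv0 : 0 < v := hv
          apply mul_le_mul_of_nonneg_right _ (by positivity)
          apply Real.exp_le_exp.2
          rw [hγ]
          nlinarith
    _ ≤ _ := by
        apply setIntegral_le_integral hint
        exact Eventually.of_forall fun v => by positivity

/-- the kernel -/
noncomputable def KK (L : ℝ) (w : ℂ) : ℂ := cexp (w ^ 2 / 2 + L * w) / (w * (1 - L * w))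

/-- the weight of the primes -/
noncomputable def vv (L y : ℝ) : ℝ := Psi 0 (L - y) - Psi (1 / L) (L - y)

lemma KK_split {L : ℝ} (hL : 0 < L) {w : ℂ} (h0 : w ≠ 0) (h1 : w ≠ ((1 / L : ℝ) : ℂ)) :
    KK L w = cexp (w ^ 2 / 2 + L * w) / (w - ((0 : ℝ) : ℂ)) - cexp (w ^ 2 / 2 + L * w) / (w - ((1 / L : ℝ) : ℂ)) := by
  have hLc : (L : ℂ) ≠ 0 := by exact_mod_cast hL.ne'
  have h2 : w - ((1 / L : ℝ) : ℂ) ≠ 0 := sub_ne_zero.2 h1
  have h3 : 1 - L * w ≠ 0 := by
    intro h
    apply h1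
    push_cast
    field_simp
    linear_combination -h
  have e : w - ((1 / L : ℝ) : ℂ) = -(1 - L * w) / L := by
    push_cast
    field_simp
    ring
  have h5 : -(1 - L * w) / (L : ℂ) ≠ 0 := by rw [← e]; exact h2
  unfold KK
  rw [e, ofReal_zero, sub_zero, div_sub_div _ _ h0 h5, div_eq_div_iff (mul_ne_zero h0 h3) (mul_ne_zero h0 h5)]
  field_simp
  ring

lemma KK_int {L c : ℝ} (hL : 0 < L) (hc : 1 / L < c) (y : ℝ) :
    ∫ τ : ℝ, KK L ((c : ℂ) + τ * I) * cexp (-(y : ℂ) * ((c : ℂ) + τ * I)) =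
      ((2 * Real.pi * vv L y : ℝ) : ℂ) := by
  have hc0 : 0 < c := lt_trans (by positivity) hc
  have hre : ∀ τ : ℝ, ((c : ℂ) + τ * I).re = c := by intro τ; simp
  have h1 : ∀ τ : ℝ, KK L ((c : ℂ) + τ * I) * cexp (-(y : ℂ) * ((c : ℂ) + τ * I)) =
      cexp (((c : ℂ) + τ * I) ^ 2 / 2 + ((L - y : ℝ) : ℂ) * (c + τ * I)) / ((c : ℂ) + τ * I - ((0 : ℝ) : ℂ)) -
      cexp (((c : ℂ) + τ * I) ^ 2 / 2 + ((L - y : ℝ) : ℂ) * (c + τ * I)) / ((c : ℂ) + τ * I - ((1 / L : ℝ) : ℂ)) := by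
    intro τ
    rw [KK_split hL (by
      intro h
      have := congrArg Complex.re h
      rw [hre] at this
      simp at this
      linarith) (by
      intro h
      have := congrArg Complex.re h
      rw [hre, ofReal_re] at this
      linarith)]
    have e : cexp (((c : ℂ) + τ * I) ^ 2 / 2 + ((L - y : ℝ) : ℂ) * (c + τ * I)) =
        cexp (((c : ℂ) + τ * I) ^ 2 / 2 + L * (c + τ * I)) * cexp (-(y : ℂ) * ((c : ℂ) + τ * I)) := by
      rw [← Complex.exp_add]
      congr 1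
      push_cast
      ring
    rw [e]
    ring
  simp only [h1]
  have hint : ∀ α : ℝ, α < c → Integrable (fun τ : ℝ =>
      cexp (((c : ℂ) + τ * I) ^ 2 / 2 + ((L - y : ℝ) : ℂ) * (c + τ * I)) / ((c : ℂ) + τ * I - (α : ℂ))) := by
    intro α hα
    have hg1 : Integrable (fun τ : ℝ => (Real.exp (c ^ 2 / 2 + (L - y) * c) * Real.exp (-(1 / 2) * τ ^ 2)) *
        (1 / (c - α))) :=
      ((integrable_exp_neg_mul_sq (by norm_num)).const_mul _).mul_const _
    refine hg1.mono' ?_ ?_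
    · apply Continuous.aestronglyMeasurable
      apply Continuous.div (by fun_prop) (by fun_prop)
      intro τ h
      have := congrArg Complex.re h
      simp at this
      linarith
    · refine Eventually.of_forall fun τ => ?_
      rw [norm_div, Complex.norm_exp, ← Real.exp_add, div_eq_mul_one_div]
      have h2 : c - α ≤ ‖(c : ℂ) + τ * I - (α : ℂ)‖ := by
        refine le_trans (le_of_eq ?_) (Complex.re_le_norm _)
        simp
      have h3 : 0 < c - α := by linarith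
      apply mul_le_mul (le_of_eq _) _ (by positivity) (by positivity)
      · congr 1
        simp [pow_two]
        ring
      · gcongr
  rw [integral_sub (hint 0 hc0) (hint (1 / L) hc), ker_int hc0, ker_int hc]
  unfold vv
  push_cast
  ring

lemma vv_abs {L : ℝ} (hL : 1 ≤ L) {y : ℝ} (hy : 0 ≤ y) : |vv L y| ≤ 6 := by
  have hL0 : 0 < L := by linarith
  have h1 := Psi_le 0 0 (L - y) le_rfl
  have h2 := Psi_le (1 / L) 0 (L - y) le_rfl
  have h3 := Psi_nonneg 0 (L - y)
  have h4 := Psi_nonneg (1 / L) (L - y)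
  have h5 : Real.exp ((0 + 0) * (L - y) + (0 + 0) ^ 2 / 2) = 1 := by norm_num
  have h6 : Real.exp ((1 / L + 0) * (L - y) + (1 / L + 0) ^ 2 / 2) ≤ 6 := by
    have h7 : (1 / L + 0) * (L - y) + (1 / L + 0) ^ 2 / 2 ≤ 3 / 2 := by
      have h8 : 1 / L ≤ 1 := by rw [div_le_one hL0]; exact hL
      have h9 : 0 < 1 / L := by positivity
      have h10 : (1 / L + 0) * (L - y) ≤ 1 := by
        rw [add_zero, mul_sub, one_div_mul_cancel hL0.ne']
        nlinarith
      have h11 : (1 / L + 0) ^ 2 ≤ 1 := by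
        rw [add_zero]; nlinarith
      linarith
    have h8 : Real.exp (3 / 2) ≤ 6 := by
      have h9 := Real.exp_one_lt_d9
      have h10 : Real.exp (3 / 2) ^ 2 = Real.exp 1 ^ 3 := by
        rw [← Real.exp_nat_mul, ← Real.exp_nat_mul]; norm_num
      have h11 : Real.exp 1 ^ 3 ≤ 2.7182818286 ^ 3 := by gcongr
      have h12 := Real.exp_pos (3 / 2)
      nlinarith
    exact (Real.exp_le_exp.2 h7).trans h8
  unfold vv
  rw [abs_le]
  constructor <;> linarith

lemma vv_far {L : ℝ} (hL : 1 ≤ L) {y : ℝ} (hy : 4 * L ≤ y) : |vv L y| ≤ 16 * Real.exp (-(3 / 2 * y)) := by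
  have hL0 : 0 < L := by linarith
  have h8 : 1 / L ≤ 1 := by rw [div_le_one hL0]; exact hL
  have h1 := Psi_le 0 2 (L - y) (by norm_num)
  have h2 := Psi_le (1 / L) (2 - 1 / L) (L - y) (by linarith)
  have h3 := Psi_nonneg 0 (L - y)
  have h4 := Psi_nonneg (1 / L) (L - y)
  have h5 : Real.exp (2 * (L - y) + 2 ^ 2 / 2) ≤ 8 * Real.exp (-(3 / 2 * y)) := by
    have h9 := Real.exp_one_lt_d9
    have h10 : Real.exp 2 ≤ 8 := by
      have h10 : Real.exp 2 = Real.exp 1 ^ 2 := by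
        rw [← Real.exp_nat_mul]; norm_num
      rw [h10]
      have h11 : Real.exp 1 ^ 2 ≤ 2.7182818286 ^ 2 := by gcongr
      linarith
    calc Real.exp (2 * (L - y) + 2 ^ 2 / 2) ≤ Real.exp (2 + -(3 / 2 * y)) := by
          apply Real.exp_le_exp.2; linarith
      _ = Real.exp 2 * Real.exp (-(3 / 2 * y)) := Real.exp_add _ _
      _ ≤ _ := by gcongr
  have e1 : (0 + 2 : ℝ) = 2 := by norm_num
  have e2 : 1 / L + (2 - 1 / L) = 2 := by ring
  rw [e1] at h1
  rw [e2] at h2
  unfold vv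
  have := Real.exp_pos (-(3 / 2 * y))
  rw [abs_le]
  constructor <;> linarith

end Pool.Agent.Helper44K9.AL
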