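import Pool.Agent.Helper44K9.AL.Ker

/-! Bounds for the kernel, and the line `Re s = 3/2`. -/

set_option autoImplicit false

namespace Pool.Agent.Helper44K9.AL

open Complex Filter Topology Set MeasureTheory

lemma KK_norm (L : ℝ) (w : ℂ) : ‖KK L w‖ =
    Real.exp ((w.re ^ 2 - w.im ^ 2) / 2 + L * w.re) / (‖w‖ * ‖1 - L * w‖) := by
  unfold KK
  rw [norm_div, norm_mul, Complex.norm_exp]
  congr 2
  simp [pow_two]

lemma den_left {L : ℝ} (hL : 0 < L) {w : ℂ} (hw : w.re ≤ 0) : L * ‖w‖ ≤ ‖1 - L * w‖ := by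
  have h1 : ‖(1 - L * w : ℂ)‖ ^ 2 = (1 - L * w.re) ^ 2 + (L * w.im) ^ 2 := by
    rw [← Complex.normSq_eq_norm_sq, Complex.normSq_apply]
    simp
    ring
  have h2 : ‖w‖ ^ 2 = w.re ^ 2 + w.im ^ 2 := by
    rw [← Complex.normSq_eq_norm_sq, Complex.normSq_apply]
    ring
  apply le_of_sq_le_sq _ (norm_nonneg _)
  rw [h1, mul_pow, h2]
  have : L * w.re ≤ 0 := mul_nonpos_of_nonneg_of_nonpos hL.le hw
  nlinarith

lemma KK_left {L : ℝ} (hL : 0 < L) {w : ℂ} (hw : w.re < 0) : ‖KK L w‖ ≤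
    Real.exp (w.re ^ 2 / 2) * Real.exp (-w.im ^ 2 / 2) * Real.exp (L * w.re) / (L * (w.re ^ 2 + w.im ^ 2)) := by
  rw [KK_norm]
  have h2 : ‖w‖ ^ 2 = w.re ^ 2 + w.im ^ 2 := by
    rw [← Complex.normSq_eq_norm_sq, Complex.normSq_apply]
    ring
  have h3 := den_left hL hw.le
  have h4 : 0 < ‖w‖ := norm_pos_iff.2 (fun h => by rw [h] at hw; simp at hw)
  have h5 : Real.exp ((w.re ^ 2 - w.im ^ 2) / 2 + L * w.re) =
      Real.exp (w.re ^ 2 / 2) * Real.exp (-w.im ^ 2 / 2) * Real.exp (L * w.re) := by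
    rw [← Real.exp_add, ← Real.exp_add]
    congr 1; ring
  rw [h5, ← h2]
  apply div_le_div_of_nonneg_left (by positivity) (by positivity)
  calc L * ‖w‖ ^ 2 = ‖w‖ * (L * ‖w‖) := by ring
    _ ≤ _ := by gcongr

lemma KK_right {L : ℝ} (hL : 16 ≤ L) {w : ℂ} (hw : 1 / 4 ≤ w.re) (hw1 : w.re ≤ 1) : ‖KK L w‖ ≤
    3 * Real.exp L * Real.exp (-w.im ^ 2 / 2) := by
  rw [KK_norm]
  have h1 : 1 / 4 ≤ ‖w‖ := hw.trans (Complex.re_le_norm w)
  have h2 : 3 ≤ ‖(1 - L * w : ℂ)‖ := by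
    have h3 := Complex.abs_re_le_norm (1 - L * w : ℂ)
    have h4 : (1 - L * w : ℂ).re = 1 - L * w.re := by simp
    rw [h4] at h3
    have h5 := neg_abs_le (1 - L * w.re)
    nlinarith
  have h3 : 3 / 4 ≤ ‖w‖ * ‖(1 - L * w : ℂ)‖ := by nlinarith [norm_nonneg w]
  have h4 : Real.exp ((w.re ^ 2 - w.im ^ 2) / 2 + L * w.re) ≤ 2 * Real.exp L * Real.exp (-w.im ^ 2 / 2) := by
    have h5 : Real.exp ((w.re ^ 2 - w.im ^ 2) / 2 + L * w.re) ≤ Real.exp (1 / 2 + L + -w.im ^ 2 / 2) := by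
      apply Real.exp_le_exp.2
      nlinarith
    have h6 := H370.exp_half_le
    refine h5.trans ?_
    rw [Real.exp_add, Real.exp_add]
    gcongr
  rw [div_le_iff₀ (by linarith)]
  have h7 : 0 < Real.exp L * Real.exp (-w.im ^ 2 / 2) := by positivity
  nlinarith

lemma KK_hor {L : ℝ} (hL : 1 ≤ L) {w : ℂ} (hw : |w.re| ≤ 2) (hw1 : w.re ≤ 1) (him : 1 ≤ |w.im|) : ‖KK L w‖ ≤
    8 * Real.exp L * Real.exp (-w.im ^ 2 / 2) := by
  rw [KK_norm]
  have h1 : 1 ≤ ‖w‖ := him.trans (Complex.abs_im_le_norm w)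
  have h2 : 1 ≤ ‖(1 - L * w : ℂ)‖ := by
    have h3 := Complex.abs_im_le_norm (1 - L * w : ℂ)
    have h4 : (1 - L * w : ℂ).im = - (L * w.im) := by simp
    rw [h4, abs_neg, abs_mul, abs_of_pos (by linarith)] at h3
    nlinarith
  have h3 : 1 ≤ ‖w‖ * ‖(1 - L * w : ℂ)‖ := one_le_mul_of_one_le_of_one_le h1 h2
  have h5 : Real.exp ((w.re ^ 2 - w.im ^ 2) / 2 + L * w.re) ≤ Real.exp (2 + L + -w.im ^ 2 / 2) := by
    apply Real.exp_le_exp.2
    have h6 : w.re ^ 2 ≤ 4 := by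
      rw [← sq_abs]
      nlinarith [abs_nonneg w.re]
    nlinarith
  have h6 : Real.exp 2 ≤ 8 := by
    have h10 : Real.exp 2 = Real.exp 1 ^ 2 := by
      rw [← Real.exp_nat_mul]; norm_num
    rw [h10]
    have h9 := Real.exp_one_lt_d9
    have h11 : Real.exp 1 ^ 2 ≤ 2.7182818286 ^ 2 := by gcongr
    linarith
  calc _ ≤ Real.exp ((w.re ^ 2 - w.im ^ 2) / 2 + L * w.re) / 1 := by gcongr
    _ ≤ Real.exp 2 * Real.exp L * Real.exp (-w.im ^ 2 / 2) := by
        rw [div_one, ← Real.exp_add, ← Real.exp_add]; exact h5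
    _ ≤ _ := by gcongr

/-- coefficients -/
noncomputable def Lc (n : ℕ) : ℂ := (ArithmeticFunction.vonMangoldt n : ℂ)

lemma Lc_le (n : ℕ) : ‖Lc n‖ ≤ ArithmeticFunction.vonMangoldt n := by
  unfold Lc
  rw [Complex.norm_real, Real.norm_of_nonneg ArithmeticFunction.vonMangoldt_nonneg]

/-- the prime side -/
noncomputable def ZP (L : ℝ) (s : ℂ) : ℂ := ∑' n : ℕ, Lc n * (n : ℂ) ^ (-s) * (vv L (Real.log n) : ℂ)

/-- the finite part of the prime side -/
noncomputable def PN (L : ℝ) (N : ℕ) (s : ℂ) : ℂ :=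
  ∑ n ∈ Finset.Icc 1 N, Lc n * (n : ℂ) ^ (-s) * (vv L (Real.log n) : ℂ)

lemma right_line {L r t : ℝ} (hL : 16 ≤ L) (hr : 0 ≤ r) (hr1 : r ≤ 3 / 4) :
    ∫ y : ℝ, H370.DD Lc (⟨3 / 2, y⟩ : ℂ) * KK L ((⟨3 / 2, y⟩ : ℂ) - ⟨1 / 2 + r, t⟩) =
      2 * Real.pi * ZP L ⟨1 / 2 + r, t⟩ := by
  set s : ℂ := ⟨1 / 2 + r, t⟩ with hs
  set c : ℝ := 1 - r with hc
  have hc4 : 1 / 4 ≤ c := by rw [hc]; linarith
  have hc1 : c ≤ 1 := by rw [hc]; linarith
  have hLc : 1 / L < c := by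
    have : 1 / L ≤ 1 / 16 := by gcongr
    linarith
  have hw : ∀ y : ℝ, (⟨3 / 2, y⟩ : ℂ) - s = (c : ℂ) + ((y - t : ℝ) : ℂ) * I := by
    intro y
    apply Complex.ext
    · simp [hs, hc]; ring
    · simp [hs]
  set f : ℕ → ℝ → ℂ := fun n y => Lc n * (n : ℂ) ^ (-(⟨3 / 2, y⟩ : ℂ)) * KK L ((⟨3 / 2, y⟩ : ℂ) - s) with hf
  have hKK : ∀ y : ℝ, ‖KK L ((⟨3 / 2, y⟩ : ℂ) - s)‖ ≤ 3 * Real.exp L * Real.exp (-(1 / 2) * (y - t) ^ 2) := by
    intro y
    rw [hw]
    have h1 := KK_right (w := (c : ℂ) + ((y - t : ℝ) : ℂ) * I) hL (by simpa using hc4) (by simpa using hc1)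
    refine h1.trans (le_of_eq ?_)
    congr 2
    have : ((c : ℂ) + ((y - t : ℝ) : ℂ) * I).im = y - t := by simp
    rw [this]
    ring
  have hKc : Continuous (fun y : ℝ => KK L ((⟨3 / 2, y⟩ : ℂ) - s)) := by
    simp only [hw]
    unfold KK
    apply Continuous.div (by fun_prop) (by fun_prop)
    intro y h
    rcases mul_eq_zero.1 h with h | h
    · have := congrArg Complex.re h
      simp at this
      linarith
    · have := congrArg Complex.re h
      simp at this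
      nlinarith
  have hnb : ∀ n y, ‖f n y‖ ≤ (ArithmeticFunction.vonMangoldt n * (n : ℝ) ^ (-(3 / 2 : ℝ))) *
      (3 * Real.exp L * Real.exp (-(1 / 2) * (y - t) ^ 2)) := by
    intro n y
    simp only [hf]
    rw [norm_mul]
    exact mul_le_mul (H370.norm_npow n y (Lc n) (Lc_le n)) (hKK y) (norm_nonneg _)
      (mul_nonneg ArithmeticFunction.vonMangoldt_nonneg (by positivity))
  have hcont : ∀ n, Continuous (f n) := by
    intro n
    rcases Nat.eq_zero_or_pos n with h | h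
    · have h0 : Lc n = 0 := by
        have h0 : ‖Lc n‖ ≤ 0 := by simpa [h] using Lc_le n
        exact norm_le_zero_iff.1 h0
      simp only [hf, h0, zero_mul]
      exact continuous_const
    · simp only [hf]
      have : (fun v : ℝ => Lc n * (n : ℂ) ^ (-(⟨3 / 2, v⟩ : ℂ))) =
          fun v : ℝ => Lc n * cexp (-((Real.log n : ℝ) : ℂ) * ((3 / 2 : ℝ) + v * I)) := by
        funext v
        rw [H370.term_eq n h, H370.mk_eq]
      refine Continuous.mul ?_ hKc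
      rw [this]
      fun_prop
  have hG : Integrable (fun v : ℝ => 3 * Real.exp L * Real.exp (-(1 / 2) * (v - t) ^ 2)) :=
    (H370.gauss_int t (1 / 2) (by norm_num)).const_mul _
  have hint : ∀ n, Integrable (f n) := fun n =>
    (hG.const_mul (ArithmeticFunction.vonMangoldt n * (n : ℝ) ^ (-(3 / 2 : ℝ)))).mono'
      (hcont n).aestronglyMeasurable (Eventually.of_forall (hnb n))
  have hsum : Summable fun n => ∫ v, ‖f n v‖ := by
    refine Summable.of_nonneg_of_le (fun n => integral_nonneg fun v => norm_nonneg _) (fun n => ?_)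
      (H370.lam_summable.mul_right (∫ v : ℝ, 3 * Real.exp L * Real.exp (-(1 / 2) * (v - t) ^ 2)))
    rw [← integral_const_mul]
    exact integral_mono (hint n).norm (hG.const_mul _) (fun v => hnb n v)
  have key := hasSum_integral_of_summable_integral_norm hint hsum
  have e1 : (fun v : ℝ => H370.DD Lc (⟨3 / 2, v⟩ : ℂ) * KK L ((⟨3 / 2, v⟩ : ℂ) - s)) =
      fun v => ∑' n, f n v := by
    funext v
    simp only [hf, H370.DD]
    rw [tsum_mul_right]
  rw [e1, ← key.tsum_eq]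
  unfold ZP
  rw [← tsum_mul_left]
  congr 1
  funext n
  rcases Nat.eq_zero_or_pos n with h | h
  · have h0 : Lc n = 0 := by
      have h0 : ‖Lc n‖ ≤ 0 := by simpa [h] using Lc_le n
      exact norm_le_zero_iff.1 h0
    simp [hf, h0]
  · have e2 : ∀ v : ℝ, f n v = (Lc n * (n : ℂ) ^ (-s)) * (KK L ((c : ℂ) + ((v - t : ℝ) : ℂ) * I) *
        cexp (-((Real.log n : ℝ) : ℂ) * ((c : ℂ) + ((v - t : ℝ) : ℂ) * I))) := by
      intro v
      simp only [hf]
      rw [H370.term_eq n h, H370.term_eq n h, ← hw v]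
      have : cexp (-((Real.log n : ℝ) : ℂ) * (⟨3 / 2, v⟩ : ℂ)) = cexp (-((Real.log n : ℝ) : ℂ) * s) *
          cexp (-((Real.log n : ℝ) : ℂ) * ((⟨3 / 2, v⟩ : ℂ) - s)) := by
        rw [← Complex.exp_add]
        congr 1; ring
      rw [this]
      ring
    simp_rw [e2]
    rw [integral_const_mul, integral_sub_right_eq_self (fun v : ℝ => KK L ((c : ℂ) + (v : ℂ) * I) *
        cexp (-((Real.log n : ℝ) : ℂ) * ((c : ℂ) + (v : ℂ) * I))) t, KK_int (by linarith) hLc]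
    push_cast
    ring

/-- the tail of the prime side -/
lemma tail_ZP {L : ℝ} (hL : 16 ≤ L) {s : ℂ} (hs : 1 / 2 ≤ s.re) {N : ℕ} (hN : Real.exp (4 * L) ≤ N + 1) :
    ‖ZP L s - PN L N s‖ ≤ 16 * H370.D0 := by
  have hb : ∀ n : ℕ, N < n → ‖Lc n * (n : ℂ) ^ (-s) * (vv L (Real.log n) : ℂ)‖ ≤
      16 * (ArithmeticFunction.vonMangoldt n * (n : ℝ) ^ (-(3 / 2 : ℝ))) := by
    intro n hn
    have hn1 : (1 : ℝ) ≤ n := by exact_mod_cast (by omega : 1 ≤ n)
    have hn0 : 0 < n := by omega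
    have hlog : 4 * L ≤ Real.log n := by
      rw [Real.le_log_iff_exp_le (by linarith)]
      refine hN.trans ?_
      exact_mod_cast hn
    rw [norm_mul, norm_mul, Complex.norm_natCast_cpow_of_pos hn0, Complex.norm_real, Real.norm_eq_abs]
    have h1 := vv_far (by linarith) hlog
    have h2 : Real.exp (-(3 / 2 * Real.log n)) = (n : ℝ) ^ (-(3 / 2 : ℝ)) := by
      rw [Real.rpow_def_of_pos (by linarith)]
      congr 1; ring
    have h3 : (n : ℝ) ^ (-s).re ≤ 1 := by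
      apply Real.rpow_le_one_of_one_le_of_nonpos hn1
      rw [neg_re]; linarith
    rw [h2] at h1
    calc ‖Lc n‖ * (n : ℝ) ^ (-s).re * |vv L (Real.log n)| ≤
        ArithmeticFunction.vonMangoldt n * 1 * (16 * (n : ℝ) ^ (-(3 / 2 : ℝ))) := by
          gcongr
          exact Lc_le n
      _ = _ := by ring
  have hsum : Summable (fun n : ℕ => Lc n * (n : ℂ) ^ (-s) * (vv L (Real.log n) : ℂ)) := by
    rw [← summable_nat_add_iff (N + 1)]
    apply Summable.of_norm_bounded (g := fun n : ℕ => 16 * (ArithmeticFunction.vonMangoldt (n + (N + 1)) *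
      ((n + (N + 1) : ℕ) : ℝ) ^ (-(3 / 2 : ℝ))))
    · exact ((summable_nat_add_iff (f := fun n : ℕ => ArithmeticFunction.vonMangoldt n * (n : ℝ) ^ (-(3 / 2 : ℝ)))
        (N + 1)).2 H370.lam_summable).mul_left 16
    · intro n
      exact hb _ (by omega)
  have h1 : ZP L s - PN L N s = ∑' n : ℕ, Lc (n + (N + 1)) * ((n + (N + 1) : ℕ) : ℂ) ^ (-s) *
      (vv L (Real.log ((n + (N + 1) : ℕ) : ℝ)) : ℂ) := by
    have h2 := hsum.sum_add_tsum_nat_add (N + 1)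
    unfold ZP PN
    rw [← h2]
    have h3 : ∑ n ∈ Finset.range (N + 1), Lc n * (n : ℂ) ^ (-s) * (vv L (Real.log n) : ℂ) =
        ∑ n ∈ Finset.Icc 1 N, Lc n * (n : ℂ) ^ (-s) * (vv L (Real.log n) : ℂ) := by
      rw [Finset.range_eq_Ico, Finset.sum_eq_sum_Ico_succ_bot (by omega)]
      have h0 : Lc 0 = 0 := by simp [Lc]
      rw [h0, zero_mul, zero_mul, zero_add]
      rfl
    rw [h3]
    ring
  rw [h1]
  have h4 : Summable (fun n : ℕ => 16 * (ArithmeticFunction.vonMangoldt (n + (N + 1)) *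
      ((n + (N + 1) : ℕ) : ℝ) ^ (-(3 / 2 : ℝ)))) :=
    ((summable_nat_add_iff (f := fun n : ℕ => ArithmeticFunction.vonMangoldt n * (n : ℝ) ^ (-(3 / 2 : ℝ)))
        (N + 1)).2 H370.lam_summable).mul_left 16
  refine (tsum_of_norm_bounded h4.hasSum (fun n => hb _ (by omega))).trans ?_
  rw [tsum_mul_left]
  have h5 : ∑' n : ℕ, ArithmeticFunction.vonMangoldt (n + (N + 1)) * ((n + (N + 1) : ℕ) : ℝ) ^ (-(3 / 2 : ℝ)) ≤ H370.D0 := by
    unfold H370.D0
    have h6 := H370.lam_summable.sum_add_tsum_nat_add (N + 1)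
    have h7 : 0 ≤ ∑ n ∈ Finset.range (N + 1), ArithmeticFunction.vonMangoldt n * (n : ℝ) ^ (-(3 / 2 : ℝ)) :=
      Finset.sum_nonneg fun n _ => mul_nonneg ArithmeticFunction.vonMangoldt_nonneg (by positivity)
    linarith
  linarith

end Pool.Agent.Helper44K9.AL
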