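import Pool.Agent.Helper601.Mertens

/-! Prime powers that are not primes. -/

set_option autoImplicit false

namespace Pool.Agent.Helper44K9.AL

open Finset

lemma geom_two {q : ℝ} (M : ℕ) (hM : 1 ≤ M) : (1 - q) * ∑ k ∈ Icc 2 M, q ^ k = q ^ 2 - q ^ (M + 1) := by
  induction M, hM using Nat.le_induction with
  | base => simp
  | succ M hM ih =>
    rw [Finset.sum_Icc_succ_top (by omega), mul_add, ih]
    ring

lemma inner_le {p : ℕ} (hp : p.Prime) (N : ℕ) :
    ∑ k ∈ Icc 2 N, 1 / 2 * ((p : ℝ) ^ (-(1 / 2) : ℝ)) ^ k ≤ 2 * (1 / p) := by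
  have hp2 : (2 : ℝ) ≤ p := by exact_mod_cast hp.two_le
  have hp0 : (0 : ℝ) < p := by linarith
  set q := (p : ℝ) ^ (-(1 / 2) : ℝ) with hq
  have hq0 : 0 < q := by positivity
  have hq2 : q ^ 2 = 1 / p := by
    rw [hq, ← Real.rpow_natCast, ← Real.rpow_mul hp0.le]
    norm_num
    rw [Real.rpow_neg_one]
  have hqs : q ≤ 5 / 7 := by
    have : q ^ 2 ≤ (5 / 7) ^ 2 := by
      rw [hq2]
      calc 1 / (p : ℝ) ≤ 1 / 2 := by gcongr
        _ ≤ (5 / 7) ^ 2 := by norm_num
    exact le_of_pow_le_pow_left₀ two_ne_zero (by norm_num) this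
  rw [← Finset.mul_sum, ← hq2]
  rcases Nat.eq_zero_or_pos N with h | h
  · rw [h]; simp; positivity
  have h1 := geom_two (q := q) N h
  have h2 : (1 - q) * ∑ k ∈ Icc 2 N, q ^ k ≤ q ^ 2 := by
    rw [h1]
    have : 0 ≤ q ^ (N + 1) := by positivity
    linarith
  have h3 : 0 ≤ ∑ k ∈ Icc 2 N, q ^ k := Finset.sum_nonneg fun k _ => by positivity
  nlinarith

lemma nonprime_sum (N : ℕ) :
    ∑ n ∈ (Icc 1 N).filter (fun n => ¬ n.Prime),
      ArithmeticFunction.vonMangoldt n / Real.log n * (n : ℝ) ^ (-(1 / 2) : ℝ) ≤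
    2 * ∑ p ∈ (Icc 1 N).filter Nat.Prime, (1 : ℝ) / p := by
  classical
  set S := (Icc 1 N).filter (fun n => ¬ n.Prime ∧ IsPrimePow n) with hS
  have h1 : ∑ n ∈ (Icc 1 N).filter (fun n => ¬ n.Prime),
      ArithmeticFunction.vonMangoldt n / Real.log n * (n : ℝ) ^ (-(1 / 2) : ℝ) =
      ∑ n ∈ S, ArithmeticFunction.vonMangoldt n / Real.log n * (n : ℝ) ^ (-(1 / 2) : ℝ) := by
    symm
    apply Finset.sum_subset
    · intro n hn
      rw [hS, Finset.mem_filter] at hn
      rw [Finset.mem_filter]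
      exact ⟨hn.1, hn.2.1⟩
    · intro n hn hn2
      rw [Finset.mem_filter] at hn
      have : ¬ IsPrimePow n := by
        intro h
        apply hn2
        rw [hS, Finset.mem_filter]
        exact ⟨hn.1, hn.2, h⟩
      rw [ArithmeticFunction.vonMangoldt_apply, if_neg this]
      simp
  rw [h1]
  set φ : ℕ → ℕ × ℕ := fun n => (n.minFac, n.factorization n.minFac) with hφ
  have hprop : ∀ n ∈ S, n.minFac.Prime ∧ 2 ≤ n.factorization n.minFac ∧ n.minFac ^ n.factorization n.minFac = n ∧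
      n ≤ N ∧ 1 ≤ n := by
    intro n hn
    rw [hS, Finset.mem_filter, Finset.mem_Icc] at hn
    obtain ⟨⟨h2, h3⟩, h4, h5⟩ := hn
    have hn1 : n ≠ 1 := h5.ne_one
    have h6 := h5.minFac_pow_factorization_eq
    have h7 := Nat.minFac_prime hn1
    refine ⟨h7, ?_, h6, h3, h2⟩
    by_contra hcon
    push Not at hcon
    interval_cases h8 : n.factorization n.minFac
    · rw [pow_zero] at h6
      exact hn1 h6.symm
    · rw [pow_one] at h6
      rw [← h6] at h4
      exact h4 h7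
  have hpt : ∀ n ∈ S, ArithmeticFunction.vonMangoldt n / Real.log n * (n : ℝ) ^ (-(1 / 2) : ℝ) ≤
      1 / 2 * (((φ n).1 : ℝ) ^ (-(1 / 2) : ℝ)) ^ (φ n).2 := by
    intro n hn
    obtain ⟨h2, h3, h4, h5, h6⟩ := hprop n hn
    rw [hS, Finset.mem_filter] at hn
    rw [ArithmeticFunction.vonMangoldt_apply, if_pos hn.2.2]
    simp only [hφ]
    set p := n.minFac with hp
    set k := n.factorization p with hk
    have hp2 : (2 : ℝ) ≤ p := by exact_mod_cast h2.two_le
    have hlp : 0 < Real.log p := Real.log_pos (by linarith)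
    have hkr : (2 : ℝ) ≤ k := by exact_mod_cast h3
    have h7 : (n : ℝ) = (p : ℝ) ^ k := by exact_mod_cast h4.symm
    rw [h7, Real.log_pow]
    have h8 : ((p : ℝ) ^ k) ^ (-(1 / 2) : ℝ) = ((p : ℝ) ^ (-(1 / 2) : ℝ)) ^ k := by
      rw [← Real.rpow_natCast, ← Real.rpow_natCast, ← Real.rpow_mul (by linarith), ← Real.rpow_mul (by linarith)]
      congr 1; ring
    rw [h8]
    apply mul_le_mul_of_nonneg_right _ (by positivity)
    rw [div_le_div_iff₀ (by positivity) (by norm_num)]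
    nlinarith
  have hinj : Set.InjOn φ S := by
    intro x hx y hy hxy
    obtain ⟨-, -, h4, -⟩ := hprop x hx
    obtain ⟨-, -, h4', -⟩ := hprop y hy
    simp only [hφ, Prod.mk.injEq] at hxy
    rw [← h4, ← h4', hxy.2, hxy.1]
  calc ∑ n ∈ S, ArithmeticFunction.vonMangoldt n / Real.log n * (n : ℝ) ^ (-(1 / 2) : ℝ) ≤
      ∑ n ∈ S, 1 / 2 * (((φ n).1 : ℝ) ^ (-(1 / 2) : ℝ)) ^ (φ n).2 := Finset.sum_le_sum hpt
    _ = ∑ x ∈ S.image φ, 1 / 2 * ((x.1 : ℝ) ^ (-(1 / 2) : ℝ)) ^ x.2 := by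
        rw [Finset.sum_image hinj]
    _ ≤ ∑ x ∈ ((Icc 1 N).filter Nat.Prime) ×ˢ (Icc 2 N), 1 / 2 * ((x.1 : ℝ) ^ (-(1 / 2) : ℝ)) ^ x.2 := by
        apply Finset.sum_le_sum_of_subset_of_nonneg
        · intro x hx
          rw [Finset.mem_image] at hx
          obtain ⟨n, hn, rfl⟩ := hx
          obtain ⟨h2, h3, h4, h5, h6⟩ := hprop n hn
          rw [Finset.mem_product, Finset.mem_filter, Finset.mem_Icc, Finset.mem_Icc]
          refine ⟨⟨⟨h2.pos, (Nat.minFac_le h6).trans h5⟩, h2⟩, h3, ?_⟩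
          simp only [hφ]
          have h7 : n.factorization n.minFac < n.minFac ^ n.factorization n.minFac :=
            Nat.lt_pow_self h2.one_lt
          rw [h4] at h7
          omega
        · intro x _ _
          positivity
    _ = ∑ p ∈ (Icc 1 N).filter Nat.Prime, ∑ k ∈ Icc 2 N, 1 / 2 * ((p : ℝ) ^ (-(1 / 2) : ℝ)) ^ k := by
        rw [Finset.sum_product]
    _ ≤ ∑ p ∈ (Icc 1 N).filter Nat.Prime, 2 * (1 / (p : ℝ)) := by
        apply Finset.sum_le_sum
        intro p hp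
        exact inner_le (Finset.mem_filter.1 hp).2 N
    _ = _ := by rw [Finset.mul_sum]

/-- `Σ_{p ≤ N} 1/p ≤ log l + C` for `N ≤ exp (4 l)` -/
lemma primes_le : ∃ C : ℝ, 0 < C ∧ ∀ (l : ℝ) (N : ℕ), 1 ≤ l → (N : ℝ) ≤ Real.exp (4 * l) →
    ∑ p ∈ (Icc 1 N).filter Nat.Prime, (1 : ℝ) / p ≤ Real.log l + C := by
  obtain ⟨C, hC⟩ := Pool.Agent.Helper601.Mertens.mertens_inv
  refine ⟨|C| + 5, by positivity, fun l N hl hN => ?_⟩
  have hll : 0 ≤ Real.log l := Real.log_nonneg hl
  by_cases h3 : 3 ≤ N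
  · have h1 := (abs_le.1 (hC N h3)).2
    have hN3 : (3 : ℝ) ≤ N := by exact_mod_cast h3
    have h2 : Real.log N ≤ 4 * l := by
      rw [← Real.log_exp (4 * l)]
      exact Real.log_le_log (by linarith) hN
    have h4 : 0 < Real.log N := Real.log_pos (by linarith)
    have h5 : Real.log (Real.log N) ≤ Real.log 4 + Real.log l := by
      rw [← Real.log_mul (by norm_num) (by linarith)]
      exact Real.log_le_log h4 h2
    have h6 : Real.log 4 ≤ 2 := by
      have : (4 : ℝ) = 2 ^ 2 := by norm_num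
      rw [this, Real.log_pow]
      have := Real.log_two_lt_d9
      push_cast
      linarith
    have := le_abs_self C
    linarith
  · push Not at h3
    have h1 : ∑ p ∈ (Icc 1 N).filter Nat.Prime, (1 : ℝ) / p ≤ ∑ p ∈ (Icc 1 2).filter Nat.Prime, (1 : ℝ) / p := by
      apply Finset.sum_le_sum_of_subset_of_nonneg
      · intro p hp
        rw [Finset.mem_filter, Finset.mem_Icc] at hp ⊢
        exact ⟨⟨hp.1.1, by omega⟩, hp.2⟩
      · intro p _ _; positivity
    have h2 : ∑ p ∈ (Icc 1 2).filter Nat.Prime, (1 : ℝ) / p ≤ 2 := by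
      calc ∑ p ∈ (Icc 1 2).filter Nat.Prime, (1 : ℝ) / p ≤ ∑ p ∈ (Icc 1 2).filter Nat.Prime, (1 : ℝ) := by
            apply Finset.sum_le_sum
            intro p hp
            rw [Finset.mem_filter] at hp
            have : (1 : ℝ) ≤ p := by exact_mod_cast hp.2.pos
            rw [div_le_one (by linarith)]
            exact this
        _ ≤ 2 := by
            rw [Finset.sum_const, nsmul_eq_mul, mul_one]
            exact_mod_cast (Finset.card_filter_le _ _).trans (by simp)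
    have := abs_nonneg C
    linarith

end Pool.Agent.Helper44K9.AL
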