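import Pool.Agent.Helper44K9.AL.Desc
import Pool.Agent.Helper44K9.AL.PP
import Pool.Agent.H370R2.Count

/-! Lower bound for `log |ζ|` near the line in terms of a prime polynomial. -/

set_option autoImplicit false

namespace Pool.Agent.Helper44K9.AL

open Complex Filter Topology Set MeasureTheory
open Pool.Agent.Helper44K9.AR (Zf mem_Zf rh_re hh ll log_ge_one tiny hh_small)

/-- `log |ζ(σ + it)|` -/
noncomputable def FF (t σ : ℝ) : ℝ := Real.log ‖riemannZeta (⟨σ, t⟩ : ℂ)‖

lemma mkc (σ t : ℝ) : (⟨σ, t⟩ : ℂ) = (σ : ℂ) + t * I := by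
  apply Complex.ext <;> simp

lemma FF_deriv (RH : RiemannHypothesis) {t σ : ℝ} (ht : 0 < t) (hσ : 1 / 2 < σ) :
    HasDerivAt (FF t) (logDeriv riemannZeta (⟨σ, t⟩ : ℂ)).re σ := by
  have h0 := rh_nz RH ⟨σ, t⟩ hσ ht
  have h1 : HasDerivAt riemannZeta (deriv riemannZeta (⟨σ, t⟩ : ℂ)) ((σ : ℂ) + t * I) := by
    rw [← mkc]
    exact (differentiableAt_riemannZeta (ne_one_im ht)).hasDerivAt
  have h2 : HasDerivAt (fun x : ℝ => (x : ℂ) + t * I) 1 σ := by
    have := (Complex.ofRealCLM.hasDerivAt (x := σ)).add_const ((t : ℂ) * I)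
    simpa using this
  have h3 : HasDerivAt (fun x : ℝ => riemannZeta ((x : ℂ) + t * I)) (deriv riemannZeta (⟨σ, t⟩ : ℂ) * 1) σ :=
    h1.comp σ h2
  rw [mul_one] at h3
  have h4 := Pool.Agent.Helper246.Blum.hasDerivAt_log_norm _ _ σ h3 (by rw [← mkc]; exact h0)
  have e : (fun s : ℝ => Real.log ‖riemannZeta ((s : ℂ) + t * I)‖) = FF t := by
    funext s
    unfold FF
    rw [mkc]
  rw [e, ← mkc] at h4
  rw [logDeriv_apply]
  exact h4

lemma ld_cont (RH : RiemannHypothesis) {t σ : ℝ} (ht : 0 < t) (hσ : 1 / 2 < σ) :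
    ContinuousAt (fun x : ℝ => logDeriv riemannZeta (⟨x, t⟩ : ℂ)) σ := by
  have h0 := rh_nz RH ⟨σ, t⟩ hσ ht
  have h1 : ContinuousAt (logDeriv riemannZeta) ((σ : ℂ) + t * I) := by
    rw [← mkc]
    have ha := AR.zeta_an (ne_one_im (z := (⟨σ, t⟩ : ℂ)) ht)
    have : logDeriv riemannZeta = fun z => deriv riemannZeta z / riemannZeta z := rfl
    rw [this]
    exact ha.deriv.continuousAt.div ha.continuousAt h0
  have h2 : ContinuousAt (fun x : ℝ => (x : ℂ) + t * I) σ := by fun_prop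
  have h3 : ContinuousAt (fun x : ℝ => logDeriv riemannZeta ((x : ℂ) + t * I)) σ :=
    ContinuousAt.comp (g := logDeriv riemannZeta) h1 h2
  simpa only [mkc] using h3

lemma FF_int (RH : RiemannHypothesis) {t a b : ℝ} (ht : 0 < t) (ha : 1 / 2 < a) (hab : a ≤ b) :
    IntervalIntegrable (fun x : ℝ => logDeriv riemannZeta (⟨x, t⟩ : ℂ)) volume a b ∧
    (∫ x in a..b, (logDeriv riemannZeta (⟨x, t⟩ : ℂ)).re) = FF t b - FF t a := by
  have hc : ContinuousOn (fun x : ℝ => logDeriv riemannZeta (⟨x, t⟩ : ℂ)) (uIcc a b) := by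
    intro x hx
    rw [uIcc_of_le hab] at hx
    exact (ld_cont RH ht (lt_of_lt_of_le ha hx.1)).continuousWithinAt
  refine ⟨hc.intervalIntegrable, ?_⟩
  apply intervalIntegral.integral_eq_sub_of_hasDerivAt
  · intro x hx
    rw [uIcc_of_le hab] at hx
    exact FF_deriv RH ht (lt_of_lt_of_le ha hx.1)
  · exact (Complex.continuous_re.comp_continuousOn hc).intervalIntegrable

lemma zeta_up32 : ∃ B : ℝ, 1 ≤ B ∧ ∀ t : ℝ, ‖riemannZeta (⟨3 / 2, t⟩ : ℂ)‖ ≤ B := by
  have hs : Summable (fun n : ℕ => 1 / (n : ℝ) ^ (3 / 2 : ℝ)) := Real.summable_one_div_nat_rpow.2 (by norm_num)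
  refine ⟨(∑' n : ℕ, 1 / (n : ℝ) ^ (3 / 2 : ℝ)) + 1, ?_, fun t => ?_⟩
  · have : 0 ≤ ∑' n : ℕ, 1 / (n : ℝ) ^ (3 / 2 : ℝ) := tsum_nonneg fun n => by positivity
    linarith
  · rw [zeta_eq_tsum_one_div_nat_cpow (by norm_num)]
    have := tsum_of_norm_bounded (f := fun n : ℕ => 1 / (n : ℂ) ^ (⟨3 / 2, t⟩ : ℂ)) hs.hasSum (fun n => by
      rcases Nat.eq_zero_or_pos n with h | h
      · subst h
        have h1 : (⟨3 / 2, t⟩ : ℂ) ≠ 0 := by
          intro h
          have := congrArg Complex.re h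
          norm_num at this
        simp [Complex.zero_cpow h1]
      · rw [norm_div, norm_one, Complex.norm_natCast_cpow_of_pos h])
    linarith

/-- `log |ζ|` is bounded to the right -/
lemma FF_right (RH : RiemannHypothesis) : ∃ C : ℝ, 0 < C ∧ ∀ t σ : ℝ, 1 ≤ t → 5 / 4 ≤ σ → σ ≤ 3 / 2 → |FF t σ| ≤ C := by
  obtain ⟨K, hK, hright⟩ := H370.right_bound H370.good_zeta (5 / 4) (by norm_num)
  obtain ⟨B, hB, hlow⟩ := AR.right_bound
  obtain ⟨B', hB', hup⟩ := zeta_up32
  refine ⟨K + (Real.log B + Real.log B') + 1, by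
    have := Real.log_nonneg hB
    have := Real.log_nonneg hB'
    linarith, fun t σ ht hσ hσ2 => ?_⟩
  have ht0 : 0 < t := by linarith
  obtain ⟨hii, h1⟩ := FF_int RH (t := t) (a := σ) (b := 3 / 2) ht0 (by linarith) hσ2
  have h2 : ‖∫ x in σ..(3 / 2), (logDeriv riemannZeta (⟨x, t⟩ : ℂ)).re‖ ≤ K * |3 / 2 - σ| := by
    apply intervalIntegral.norm_integral_le_of_norm_le_const
    intro x hx
    rw [Set.uIoc_of_le hσ2] at hx
    refine (Complex.abs_re_le_norm _).trans ?_
    rw [logDeriv_apply]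
    exact hright ⟨x, t⟩ (by simp; linarith [hx.1]) ht
  rw [h1, Real.norm_eq_abs, abs_of_nonneg (show 0 ≤ 3 / 2 - σ by linarith)] at h2
  have h3 : K * (3 / 2 - σ) ≤ K := by nlinarith
  have h4 := hlow t
  have hpos : 0 < ‖riemannZeta (⟨3 / 2, t⟩ : ℂ)‖ := norm_pos_iff.2 h4.1
  have h5 : FF t (3 / 2) ≤ Real.log B' := Real.log_le_log hpos (hup t)
  have h6 : -Real.log B ≤ FF t (3 / 2) := by
    unfold FF
    rw [← Real.log_inv]
    apply Real.log_le_log (by positivity)
    have h7 := h4.2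
    rw [norm_inv] at h7
    rw [inv_le_comm₀ (by linarith) hpos]
    exact h7
  have := Real.log_nonneg hB
  have := Real.log_nonneg hB'
  rw [abs_le] at h2 ⊢
  constructor <;> linarith [h2.1, h2.2]

/-- the coefficients after integration -/
noncomputable def wq (L : ℝ) (n : ℕ) : ℝ :=
  ArithmeticFunction.vonMangoldt n * vv L (Real.log n) * (n : ℝ) ^ (-(1 / 2) : ℝ) *
    ∫ r in (1 / L)..(3 / 4), (n : ℝ) ^ (-r)

lemma npow_split {n : ℕ} (hn : 1 ≤ n) (r t : ℝ) : (n : ℂ) ^ (-(⟨1 / 2 + r, t⟩ : ℂ)) =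
    (((n : ℝ) ^ (-(1 / 2) : ℝ) * (n : ℝ) ^ (-r) : ℝ) : ℂ) * (n : ℂ) ^ (-(I * t)) := by
  have hn0 : (0 : ℝ) < n := by exact_mod_cast hn
  have hnc : (n : ℂ) ≠ 0 := by exact_mod_cast hn0.ne'
  have h1 : (-(⟨1 / 2 + r, t⟩ : ℂ)) = ((-(1 / 2) + -r : ℝ) : ℂ) + -(I * t) := by
    rw [mkc]; push_cast; ring
  rw [h1, Complex.cpow_add _ _ hnc, ← Real.rpow_add hn0, Complex.ofReal_cpow hn0.le]
  rfl

lemma wq_le {L : ℝ} (hL : 16 ≤ L) {n : ℕ} (hn : 1 ≤ n) :
    |wq L n| ≤ 6 * (ArithmeticFunction.vonMangoldt n / Real.log n * (n : ℝ) ^ (-(1 / 2) : ℝ)) := by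
  have hn0 : (0 : ℝ) < n := by exact_mod_cast hn
  have hn1 : (1 : ℝ) ≤ n := by exact_mod_cast hn
  have hlog : 0 ≤ Real.log n := Real.log_nonneg hn1
  have hL0 : 0 < L := by linarith
  have hLi : 1 / L ≤ 1 / 16 := by gcongr
  rcases eq_or_lt_of_le hn with h | h
  · rw [← h]
    unfold wq
    simp
  · have hlogp : 0 < Real.log n := Real.log_pos (by exact_mod_cast h)
    have hint : ∫ r in (1 / L)..(3 / 4), (n : ℝ) ^ (-r) =
        ((n : ℝ) ^ (-(1 / L)) - (n : ℝ) ^ (-(3 / 4) : ℝ)) / Real.log n := by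
      have hd : ∀ r ∈ uIcc (1 / L) (3 / 4), HasDerivAt (fun r : ℝ => -((n : ℝ) ^ (-r)) / Real.log n) ((n : ℝ) ^ (-r)) r := by
        intro r _
        have h1 : HasDerivAt (fun r : ℝ => (n : ℝ) ^ (-r)) (Real.log n * (-1) * (n : ℝ) ^ (-r)) r :=
          (hasDerivAt_neg r).const_rpow hn0
        have h2 := (h1.neg).div_const (Real.log n)
        exact h2.congr_deriv (by field_simp)
      rw [intervalIntegral.integral_eq_sub_of_hasDerivAt hd]
      · ring
      · apply Continuous.intervalIntegrable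
        exact Continuous.rpow (by fun_prop) (by fun_prop) (fun x => Or.inl hn0.ne')
    have hb : |∫ r in (1 / L)..(3 / 4), (n : ℝ) ^ (-r)| ≤ 1 / Real.log n := by
      rw [hint, abs_div, abs_of_pos hlogp]
      gcongr
      have h1 : (n : ℝ) ^ (-(1 / L)) ≤ 1 := Real.rpow_le_one_of_one_le_of_nonpos hn1 (by
        have : 0 < 1 / L := by positivity
        linarith)
      have h2 : 0 < (n : ℝ) ^ (-(3 / 4) : ℝ) := by positivity
      have h3 : (n : ℝ) ^ (-(3 / 4) : ℝ) ≤ (n : ℝ) ^ (-(1 / L)) :=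
        Real.rpow_le_rpow_of_exponent_le hn1 (by linarith)
      rw [abs_of_nonneg (by linarith)]
      linarith
    unfold wq
    rw [abs_mul, abs_mul, abs_mul, abs_of_nonneg ArithmeticFunction.vonMangoldt_nonneg,
      abs_of_nonneg (show (0:ℝ) ≤ (n : ℝ) ^ (-(1 / 2) : ℝ) by positivity)]
    have hv := vv_abs (L := L) (by linarith) hlog
    calc ArithmeticFunction.vonMangoldt n * |vv L (Real.log n)| * (n : ℝ) ^ (-(1 / 2) : ℝ) *
        |∫ r in (1 / L)..(3 / 4), (n : ℝ) ^ (-r)| ≤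
        ArithmeticFunction.vonMangoldt n * 6 * (n : ℝ) ^ (-(1 / 2) : ℝ) * (1 / Real.log n) := by
          have := ArithmeticFunction.vonMangoldt_nonneg (n := n)
          gcongr
      _ = _ := by ring

/-- the prime polynomial -/
noncomputable def QQ (L t : ℝ) : ℂ :=
  ∑ p ∈ (Finset.Icc 1 ⌊Real.exp (4 * L)⌋₊).filter Nat.Prime, (wq L p : ℂ) * (p : ℂ) ^ (-(I * t))

lemma wq_prime {L : ℝ} (hL : 16 ≤ L) {p : ℕ} (hp : p.Prime) : |wq L p| ≤ 6 * (p : ℝ) ^ (-(1 / 2) : ℝ) := by
  have h1 := wq_le hL hp.one_le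
  rw [ArithmeticFunction.vonMangoldt_apply_prime hp, div_self (Real.log_pos (by exact_mod_cast hp.one_lt)).ne',
    one_mul] at h1
  exact h1

lemma PN_int {L t : ℝ} (N : ℕ) : ContinuousOn (fun r : ℝ => PN L N ⟨1 / 2 + r, t⟩) univ ∧
    ∫ r in (1 / L)..(3 / 4), PN L N ⟨1 / 2 + r, t⟩ = ∑ n ∈ Finset.Icc 1 N, (wq L n : ℂ) * (n : ℂ) ^ (-(I * t)) := by
  have h1 : ∀ r : ℝ, PN L N ⟨1 / 2 + r, t⟩ = ∑ n ∈ Finset.Icc 1 N,
      ((ArithmeticFunction.vonMangoldt n * vv L (Real.log n) * (n : ℝ) ^ (-(1 / 2) : ℝ) : ℝ) : ℂ) *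
        (n : ℂ) ^ (-(I * t)) * (((n : ℝ) ^ (-r) : ℝ) : ℂ) := by
    intro r
    unfold PN Lc
    apply Finset.sum_congr rfl
    intro n hn
    rw [npow_split (Finset.mem_Icc.1 hn).1]
    push_cast
    ring
  have hc : ∀ n ∈ Finset.Icc 1 N, Continuous (fun r : ℝ => ((ArithmeticFunction.vonMangoldt n * vv L (Real.log n) *
      (n : ℝ) ^ (-(1 / 2) : ℝ) : ℝ) : ℂ) * (n : ℂ) ^ (-(I * t)) * (((n : ℝ) ^ (-r) : ℝ) : ℂ)) := by
    intro n hn
    have hn0 : (0 : ℝ) < n := by exact_mod_cast (Finset.mem_Icc.1 hn).1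
    apply Continuous.mul continuous_const
    exact Complex.continuous_ofReal.comp (Continuous.rpow (by fun_prop) (by fun_prop) (fun x => Or.inl hn0.ne'))
  constructor
  · simp only [h1]
    exact (continuous_finset_sum _ hc).continuousOn
  · simp only [h1]
    rw [intervalIntegral.integral_finsetSum (fun n hn => (hc n hn).intervalIntegrable _ _)]
    apply Finset.sum_congr rfl
    intro n _
    rw [intervalIntegral.integral_const_mul, intervalIntegral.integral_ofReal]
    unfold wq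
    push_cast
    ring

theorem log_low (RH : RiemannHypothesis) {c1 : ℝ} (hc1 : 0 < c1) (hc1' : c1 ≤ 1) :
    ∃ C X0 : ℝ, 0 < C ∧ 3 ≤ X0 ∧ ∀ X : ℝ, X0 ≤ X → ∀ t : ℝ, X / 3 ≤ t → t ≤ 4 * X → Nice c1 X t →
    ∀ L : ℝ, 32 ≤ L → L ≤ Real.log X →
    -FF t (1 / 2 + 1 / L) ≤ ‖QQ L t‖ + C * (1 + Real.log (Real.log X) + Real.log X / L) := by
  obtain ⟨C1, X1, hC1, hX1, hnear⟩ := near_formula RH hc1 hc1'
  obtain ⟨C2, X2, hC2, hX2, hld⟩ := ld_bounds RH hc1 hc1'
  obtain ⟨C3, hC3, hFR⟩ := FF_right RH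
  obtain ⟨C4, hC4, hpr⟩ := primes_le
  refine ⟨C1 + 3 * C2 + 4 * C3 + 12 * (C4 + 1), max X1 X2, by positivity, hX1.trans (le_max_left _ _),
    fun X hX t ht1 ht2 hN L hL hLX => ?_⟩
  have hXa := (le_max_left _ _).trans hX
  have hXb := (le_max_right _ _).trans hX
  have hX3 : 3 ≤ X := hX1.trans hXa
  set l := Real.log X with hl
  have hl32 : 32 ≤ l := hL.trans hLX
  have ht : 1 ≤ t := by linarith
  have ht0 : 0 < t := by linarith
  have hL0 : 0 < L := by linarith
  set a := 1 / L with ha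
  have ha0 : 0 < a := by positivity
  have ha32 : a ≤ 1 / 32 := by rw [ha]; gcongr
  have hlla : 0 ≤ Real.log l := Real.log_nonneg (by linarith)
  set N := ⌊Real.exp (4 * L)⌋₊ with hNd
  have hk := kap_le (L := L) (by linarith)
  -- integrate the formula
  have hpt := hnear X hXa t ht1 ht2 hN L (by linarith) hLX
  obtain ⟨i1, e1⟩ := FF_int RH (t := t) (a := 1 / 2 + a) (b := 1 / 2 + 3 / 4) ht0 (by linarith) (by linarith)
  obtain ⟨i2, e2⟩ := FF_int RH (t := t) (a := 1 / 2 + (a + a)) (b := 1 / 2 + (3 / 4 + a)) ht0 (by linarith) (by linarith)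
  have j1 : IntervalIntegrable (fun r : ℝ => logDeriv riemannZeta (⟨1 / 2 + r, t⟩ : ℂ)) volume a (3 / 4) := by
    apply ContinuousOn.intervalIntegrable
    intro r hr
    rw [uIcc_of_le (by linarith)] at hr
    apply ContinuousAt.continuousWithinAt
    exact ContinuousAt.comp (f := fun r : ℝ => 1 / 2 + r) (g := fun x : ℝ => logDeriv riemannZeta (⟨x, t⟩ : ℂ))
      (ld_cont RH ht0 (by linarith [hr.1])) (by fun_prop)
  have j2 : IntervalIntegrable (fun r : ℝ => logDeriv riemannZeta (⟨1 / 2 + (r + a), t⟩ : ℂ)) volume a (3 / 4) := by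
    apply ContinuousOn.intervalIntegrable
    intro r hr
    rw [uIcc_of_le (by linarith)] at hr
    apply ContinuousAt.continuousWithinAt
    exact ContinuousAt.comp (f := fun r : ℝ => 1 / 2 + (r + a)) (g := fun x : ℝ => logDeriv riemannZeta (⟨x, t⟩ : ℂ))
      (ld_cont RH ht0 (by linarith [hr.1])) (by fun_prop)
  obtain ⟨hPc, hPi⟩ := PN_int (L := L) (t := t) N
  have j3 : IntervalIntegrable (fun r : ℝ => PN L N ⟨1 / 2 + r, t⟩) volume a (3 / 4) :=
    (hPc.mono (subset_univ _)).intervalIntegrable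
  have hre : ∀ f : ℝ → ℂ, IntervalIntegrable f volume a (3 / 4) →
      (∫ r in a..(3 / 4), f r).re = ∫ r in a..(3 / 4), (f r).re := by
    intro f hf
    have := intervalIntegral.intervalIntegral_re (𝕜 := ℂ) (f := f) (a := a) (b := 3 / 4) (μ := volume) hf
    exact this.symm
  have s1 : (∫ r in a..(3 / 4), logDeriv riemannZeta (⟨1 / 2 + r, t⟩ : ℂ)).re = FF t (5 / 4) - FF t (1 / 2 + a) := by
    rw [hre _ j1]
    have := intervalIntegral.integral_comp_add_left (fun x : ℝ => (logDeriv riemannZeta (⟨x, t⟩ : ℂ)).re) (a := a)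
      (b := 3 / 4) (1 / 2 : ℝ)
    rw [this, e1]
    norm_num
  have s2 : (∫ r in a..(3 / 4), logDeriv riemannZeta (⟨1 / 2 + (r + a), t⟩ : ℂ)).re =
      FF t (5 / 4 + a) - FF t (1 / 2 + (a + a)) := by
    rw [hre _ j2]
    have h3 : ∀ r : ℝ, (logDeriv riemannZeta (⟨1 / 2 + (r + a), t⟩ : ℂ)).re =
        (fun x : ℝ => (logDeriv riemannZeta (⟨x, t⟩ : ℂ)).re) ((1 / 2 + a) + r) := by
      intro r
      congr 3; ring
    simp only [h3]
    have := intervalIntegral.integral_comp_add_left (fun x : ℝ => (logDeriv riemannZeta (⟨x, t⟩ : ℂ)).re) (a := a)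
      (b := 3 / 4) (1 / 2 + a : ℝ)
    rw [this]
    have h4 : (1 / 2 + a + a : ℝ) = 1 / 2 + (a + a) := by ring
    have h5 : (1 / 2 + a + 3 / 4 : ℝ) = 1 / 2 + (3 / 4 + a) := by ring
    have h6 : (5 / 4 + a : ℝ) = 1 / 2 + (3 / 4 + a) := by ring
    rw [h4, h5, h6, e2]
  set P := ∫ r in a..(3 / 4), PN L N ⟨1 / 2 + r, t⟩ with hP
  -- the error integral
  have hEb : ‖∫ r in a..(3 / 4), (logDeriv riemannZeta (⟨1 / 2 + r, t⟩ : ℂ) -
      kap L * logDeriv riemannZeta (⟨1 / 2 + (r + a), t⟩ : ℂ) + PN L N ⟨1 / 2 + r, t⟩)‖ ≤ C1 * (l / L + 1) := by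
    have hb : ∫ r in a..(3 / 4), C1 * (l * Real.exp (-(L * r)) + 1) ≤ C1 * (l / L + 1) := by
      rw [intervalIntegral.integral_const_mul]
      apply mul_le_mul_of_nonneg_left _ hC1.le
      rw [intervalIntegral.integral_add (by
        apply Continuous.intervalIntegrable; fun_prop) (by simp), intervalIntegral.integral_const_mul,
        intervalIntegral.integral_const]
      have hd : ∀ r ∈ uIcc a (3 / 4), HasDerivAt (fun r : ℝ => -Real.exp (-(L * r)) / L) (Real.exp (-(L * r))) r := by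
        intro r _
        have h1 : HasDerivAt (fun r : ℝ => Real.exp (-(L * r))) (Real.exp (-(L * r)) * (-(L * 1))) r :=
          (((hasDerivAt_id r).const_mul L).neg).exp
        have h2 := (h1.neg).div_const L
        exact h2.congr_deriv (by field_simp)
      rw [intervalIntegral.integral_eq_sub_of_hasDerivAt hd (by
        apply Continuous.intervalIntegrable; fun_prop)]
      have h1 : Real.exp (-(L * a)) ≤ 1 := by
        rw [Real.exp_le_one_iff]
        have : 0 < L * a := by positivity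
        linarith
      have h2 := Real.exp_pos (-(L * (3 / 4)))
      have h3 : -Real.exp (-(L * (3 / 4))) / L - -Real.exp (-(L * a)) / L ≤ 1 / L := by
        have : -Real.exp (-(L * (3 / 4))) / L - -Real.exp (-(L * a)) / L =
          (Real.exp (-(L * a)) - Real.exp (-(L * (3 / 4)))) / L := by ring
        rw [this]
        gcongr
        linarith
      have h4 : l * (-Real.exp (-(L * (3 / 4))) / L - -Real.exp (-(L * a)) / L) ≤ l * (1 / L) := by gcongr
      simp only [smul_eq_mul, mul_one]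
      have h5 : l * (1 / L) = l / L := by ring
      linarith
    refine le_trans (intervalIntegral.norm_integral_le_of_norm_le (by linarith)
      (Eventually.of_forall fun r hr => ?_) ?_) hb
    · exact hpt r hr.1.le hr.2
    · apply Continuous.intervalIntegrable; fun_prop
  rw [intervalIntegral.integral_add (j1.sub (j2.const_mul _)) j3, intervalIntegral.integral_sub j1 (j2.const_mul _),
    intervalIntegral.integral_const_mul, ← hP] at hEb
  have hEr := (Complex.abs_re_le_norm _).trans hEb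
  rw [add_re, sub_re, Complex.re_ofReal_mul, s1, s2] at hEr
  have hEr2 := (abs_le.1 hEr).2
  have hEr1 := (abs_le.1 hEr).1
  -- the descent from `2a` to `a`
  have hD : FF t (1 / 2 + (a + a)) - FF t (1 / 2 + a) ≤ C2 * (l / L) := by
    obtain ⟨i3, e3⟩ := FF_int RH (t := t) (a := 1 / 2 + a) (b := 1 / 2 + (a + a)) ht0 (by linarith) (by linarith)
    rw [← e3]
    have h1 : ∫ x in (1 / 2 + a)..(1 / 2 + (a + a)), (logDeriv riemannZeta (⟨x, t⟩ : ℂ)).re ≤
        ∫ x in (1 / 2 + a)..(1 / 2 + (a + a)), C2 * l := by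
      apply intervalIntegral.integral_mono_on (by linarith)
      · have : IntervalIntegrable (fun x : ℝ => (logDeriv riemannZeta (⟨x, t⟩ : ℂ)).re) volume (1 / 2 + a) (1 / 2 + (a + a)) := by
          apply ContinuousOn.intervalIntegrable
          intro x hx
          rw [uIcc_of_le (by linarith)] at hx
          exact (Complex.continuous_re.continuousAt.comp (ld_cont RH ht0 (by linarith [hx.1]))).continuousWithinAt
        exact this
      · simp
      · intro x hx
        obtain ⟨h2, -, -⟩ := hld X hXb t ht1 ht2 hN (x - 1 / 2) t (by linarith [hx.1]) (by linarith [hx.2]) (by simp)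
        have h3 : 1 / 2 + (x - 1 / 2) = x := by ring
        rw [h3] at h2
        apply h2
        have h4 : c1 / l ≤ a := by
          rw [ha]
          calc c1 / l ≤ 1 / l := by gcongr
            _ ≤ 1 / L := by gcongr
        linarith [hx.1]
    refine h1.trans ?_
    rw [intervalIntegral.integral_const, smul_eq_mul]
    have h2 : (1 / 2 + (a + a) - (1 / 2 + a)) = a := by ring
    rw [h2, ha]
    exact le_of_eq (by ring)
  -- the bounded terms
  have hF1 := hFR t (5 / 4) ht le_rfl (by norm_num)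
  have hF2 := hFR t (5 / 4 + a) ht (by linarith) (by linarith)
  -- the prime side
  have hPQ : ‖P‖ ≤ ‖QQ L t‖ + 12 * (C4 + 1) * (1 + Real.log l) := by
    have h1 : P = QQ L t + ∑ n ∈ (Finset.Icc 1 N).filter (fun n => ¬ n.Prime), (wq L n : ℂ) * (n : ℂ) ^ (-(I * t)) := by
      have h2 := hPi
      unfold QQ
      rw [← hNd, Finset.sum_filter_add_sum_filter_not]
      exact h2
    rw [h1]
    refine (norm_add_le _ _).trans (add_le_add le_rfl ?_)
    calc ‖∑ n ∈ (Finset.Icc 1 N).filter (fun n => ¬ n.Prime), (wq L n : ℂ) * (n : ℂ) ^ (-(I * t))‖ ≤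
        ∑ n ∈ (Finset.Icc 1 N).filter (fun n => ¬ n.Prime),
          6 * (ArithmeticFunction.vonMangoldt n / Real.log n * (n : ℝ) ^ (-(1 / 2) : ℝ)) := by
          apply (norm_sum_le _ _).trans
          apply Finset.sum_le_sum
          intro n hn
          rw [Finset.mem_filter, Finset.mem_Icc] at hn
          rw [norm_mul, Complex.norm_real, Real.norm_eq_abs, Complex.norm_natCast_cpow_of_pos (by omega)]
          have h3 : (-(I * (t : ℂ))).re = 0 := by simp
          rw [h3, Real.rpow_zero, mul_one]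
          exact wq_le (by linarith) hn.1.1
      _ = 6 * ∑ n ∈ (Finset.Icc 1 N).filter (fun n => ¬ n.Prime),
          (ArithmeticFunction.vonMangoldt n / Real.log n * (n : ℝ) ^ (-(1 / 2) : ℝ)) := by rw [Finset.mul_sum]
      _ ≤ 6 * (2 * (Real.log l + C4)) := by
          gcongr
          refine (nonprime_sum N).trans ?_
          gcongr
          apply hpr l N (by linarith)
          refine (Nat.floor_le (by positivity)).trans ?_
          gcongr
      _ ≤ _ := by nlinarith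
  have hPre := (Complex.abs_re_le_norm P)
  have hPre2 := (abs_le.1 hPre).2
  have hPre1 := (abs_le.1 hPre).1
  have hF1' := abs_le.1 hF1
  have hF2' := abs_le.1 hF2
  set Y := FF t (1 / 2 + a) with hY
  set Z := FF t (1 / 2 + (a + a)) with hZ
  set F1 := FF t (5 / 4)
  set F2 := FF t (5 / 4 + a)
  set κ := kap L
  have hlL : 0 ≤ l / L := by positivity
  -- (κ - 1) (-Y) ≤ ...
  have hfin : (κ - 1) * (-Y) ≤ 3 * (C2 * (l / L)) + C1 * (l / L + 1) + 4 * C3 + ‖P‖ := by
    have h1 : κ * (Z - Y) ≤ 3 * (C2 * (l / L)) := by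
      rcases le_total 0 (Z - Y) with h | h
      · exact mul_le_mul hk.1 hD h (by norm_num)
      · have : κ * (Z - Y) ≤ 0 := mul_nonpos_of_nonneg_of_nonpos (by linarith [hk.2]) h
        have : 0 ≤ 3 * (C2 * (l / L)) := by positivity
        linarith
    have h2 : -(κ * F2) ≤ 3 * C3 := by
      have : -(κ * F2) = κ * (-F2) := by ring
      rw [this]
      rcases le_total 0 (-F2) with h | h
      · exact mul_le_mul hk.1 (by linarith [hF2'.1]) h (by norm_num)
      · have : κ * (-F2) ≤ 0 := mul_nonpos_of_nonneg_of_nonpos (by linarith [hk.2]) h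
        linarith
    nlinarith
  rcases le_total (-Y) 0 with h | h
  · have h1 : 0 ≤ ‖QQ L t‖ := norm_nonneg _
    have h2 : 0 ≤ (C1 + 3 * C2 + 4 * C3 + 12 * (C4 + 1)) * (1 + Real.log l + l / L) := by positivity
    linarith
  · have h1 : -Y ≤ (κ - 1) * (-Y) := by nlinarith [hk.2]
    have h2 : 0 ≤ C1 * Real.log l := by positivity
    have h3 : 0 ≤ C2 * (1 + Real.log l) := by positivity
    have h4 : 0 ≤ C3 * (Real.log l + l / L) := by positivity
    have h5 : 0 ≤ (C4 + 1) * (l / L) := by positivity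
    nlinarith

end Pool.Agent.Helper44K9.AL
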