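import Pool.Agent.Helper44K9.AL.ResL

/-! `ζ'/ζ` near the line against the primes, when the zeros nearby are separated. -/

set_option autoImplicit false

namespace Pool.Agent.Helper44K9.AL

open Complex Filter Topology Set MeasureTheory
open Pool.Agent.W120.WM (NT)
open Pool.Agent.Helper44K9.AR (Zf mem_Zf rh_re hh ll log_ge_one tiny hh_small)

/-- the zeros near `t` are simple and separated -/
def Nice (c1 X t : ℝ) : Prop :=
  (∀ ρ : ℂ, riemannZeta ρ = 0 → ρ.re = 1 / 2 → |ρ.im - t| ≤ hh X + 2 → deriv riemannZeta ρ ≠ 0) ∧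
  (∀ ρ ρ' : ℂ, riemannZeta ρ = 0 → ρ.re = 1 / 2 → |ρ.im - t| ≤ hh X + 2 → riemannZeta ρ' = 0 → ρ'.re = 1 / 2 →
    |ρ'.im - t| ≤ hh X + 2 → ρ ≠ ρ' → c1 / Real.log X ≤ |ρ.im - ρ'.im|)

lemma exp_le_five : Real.exp (49 / 32) ≤ 5 := by
  have h1 : Real.exp (49 / 32) ≤ Real.exp (8 / 5) := Real.exp_le_exp.2 (by norm_num)
  have h2 : Real.exp (8 / 5) ^ 5 = Real.exp 1 ^ 8 := by
    rw [← Real.exp_nat_mul, ← Real.exp_nat_mul]; norm_num
  have h9 := Real.exp_one_lt_d9
  have h3 : Real.exp 1 ^ 8 ≤ 2.7182818286 ^ 8 := by gcongr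
  have h4 : Real.exp (8 / 5) ^ 5 ≤ 5 ^ 5 := by
    rw [h2]
    refine h3.trans ?_
    norm_num
  exact h1.trans (le_of_pow_le_pow_left₀ (by norm_num) (by norm_num) h4)

lemma kap_le {L : ℝ} (hL : 16 ≤ L) : kap L ≤ 3 ∧ 2 ≤ kap L := by
  unfold kap
  have hL2 : 256 ≤ L ^ 2 := by nlinarith
  have h1 : 1 / (2 * L ^ 2) ≤ 1 / 512 := by
    apply one_div_le_one_div_of_le (by norm_num); linarith
  have h0 : 0 ≤ 1 / (2 * L ^ 2) := by positivity
  constructor
  · have h2 : Real.exp (1 + 1 / (2 * L ^ 2)) ≤ Real.exp (1 + 1 / 512) := Real.exp_le_exp.2 (by linarith)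
    have h3 : Real.exp (1 / 512) ≤ 1.01 := by
      have := Real.exp_bound_div_one_sub_of_interval (x := 1 / 512) (by norm_num) (by norm_num)
      refine this.trans (by norm_num)
    have h9 := Real.exp_one_lt_d9
    have h4 : Real.exp 1 * Real.exp (1 / 512) ≤ 2.7182818286 * 1.01 := by gcongr
    rw [← Real.exp_add] at h4
    have h5 := h2.trans h4
    refine h5.trans (by norm_num)
  · have h2 : Real.exp 1 ≤ Real.exp (1 + 1 / (2 * L ^ 2)) := Real.exp_le_exp.2 (by linarith)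
    have h9 := Real.exp_one_gt_d9
    linarith

lemma rh_nz (RH : RiemannHypothesis) : ∀ z : ℂ, 1 / 2 < z.re → 0 < z.im → riemannZeta z ≠ 0 := by
  intro z h1 h2 h0
  have := rh_re RH h0 h2
  linarith

theorem near_formula (RH : RiemannHypothesis) {c1 : ℝ} (hc1 : 0 < c1) (hc1' : c1 ≤ 1) :
    ∃ C X0 : ℝ, 0 < C ∧ 3 ≤ X0 ∧ ∀ X : ℝ, X0 ≤ X → ∀ t : ℝ, X / 3 ≤ t → t ≤ 4 * X → Nice c1 X t →
    ∀ L : ℝ, 16 ≤ L → L ≤ Real.log X → ∀ r : ℝ, 1 / L ≤ r → r ≤ 3 / 4 →
    ‖logDeriv riemannZeta (⟨1 / 2 + r, t⟩ : ℂ) - kap L * logDeriv riemannZeta (⟨1 / 2 + (r + 1 / L), t⟩ : ℂ) +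
      PN L ⌊Real.exp (4 * L)⌋₊ ⟨1 / 2 + r, t⟩‖ ≤ C * (Real.log X * Real.exp (-(L * r)) + 1) := by
  obtain ⟨C1, hC1, hgh⟩ := H370.good_height H370.good_zeta
  obtain ⟨C2', hleft'⟩ := H370.good_zeta.left
  set C2 := max C2' 0 with hC2
  have hC20 : 0 ≤ C2 := le_max_right _ _
  have hD0 := H370.D0_nonneg
  set K : ℝ := 64 * C1 + 100 * (H370.D0 + 1) with hK
  have hK1 : 1 ≤ K := by rw [hK]; linarith
  obtain ⟨X1, hX1, htiny⟩ := tiny (2 * K + 1)
  obtain ⟨X2, hX2, hsmall⟩ := hh_small 100 (by norm_num)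
  refine ⟨12 / c1 + 20 * (C2 + 2 + H370.D0 + 1) + 60 + 16 * H370.D0 + 4, max X1 X2, by positivity,
    hX1.trans (le_max_left _ _), fun X hX t ht1 ht2 hN L hL hLX r hr1 hr2 => ?_⟩
  have hXa := (le_max_left _ _).trans hX
  have hXb := (le_max_right _ _).trans hX
  have hX3 : 3 ≤ X := hX1.trans hXa
  have hX0 : 0 < X := by linarith
  set l := Real.log X with hl
  have hl16 : 16 ≤ l := hL.trans hLX
  have hlp : 0 < l := by linarith
  have hhX : hh X = l ^ 2 := rfl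
  set R := hh X with hR
  have hR1 : 256 ≤ R := by rw [hhX]; nlinarith
  have hRX : R ≤ X / 100 := by
    have := hsmall X hXb
    rw [div_mul_eq_mul_div, div_le_one hX0] at this
    linarith
  have hX25 : 25600 ≤ X := by linarith
  set E := Real.exp (-(l ^ 4 / 8)) with hE
  have hEp : 0 < E := Real.exp_pos _
  have hKE : K * (l ^ 2 + 1) * Real.exp l * E ≤ 1 := by
    have h1 := htiny X hXa
    rw [← hl, ← hE] at h1
    have h2 : K * (l ^ 2 + 1) * Real.exp l ≤ Real.exp ((2 * K + 1) * l ^ 2) := by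
      have h3 : K * (l ^ 2 + 1) ≤ 2 * K * l ^ 2 := by nlinarith
      have h4 : 2 * K * l ^ 2 ≤ Real.exp (2 * K * l ^ 2) := by
        have := Real.add_one_le_exp (2 * K * l ^ 2)
        linarith
      have h5 : Real.exp l ≤ Real.exp (l ^ 2) := Real.exp_le_exp.2 (by nlinarith)
      calc K * (l ^ 2 + 1) * Real.exp l ≤ Real.exp (2 * K * l ^ 2) * Real.exp (l ^ 2) := by
            gcongr
            exact h3.trans h4
        _ = _ := by rw [← Real.exp_add]; congr 1; ring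
    calc K * (l ^ 2 + 1) * Real.exp l * E ≤ Real.exp ((2 * K + 1) * l ^ 2) * E := by gcongr
      _ ≤ 1 / X := h1
      _ ≤ 1 := by rw [div_le_one hX0]; linarith
  have hE2 : Real.exp (-(R ^ 2 / 2)) ≤ E := by
    apply Real.exp_le_exp.2
    have : R ^ 2 = l ^ 4 := by rw [hhX]; ring
    rw [this]
    have : 0 ≤ l ^ 4 := by positivity
    linarith
  have hE4 : Real.exp (-R ^ 2 / 4) ≤ E := by
    apply Real.exp_le_exp.2
    have : R ^ 2 = l ^ 4 := by rw [hhX]; ring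
    rw [neg_div, this]
    have : 0 ≤ l ^ 4 := by positivity
    linarith
  have hLl : Real.exp L ≤ Real.exp l := Real.exp_le_exp.2 hLX
  have hL0 : 0 < L := by linarith
  have hiL : 0 < 1 / L := by positivity
  have hiL16 : 1 / L ≤ 1 / 16 := by gcongr
  have hr0 : 0 < r := by linarith
  -- heights
  obtain ⟨c, hcI, hgc⟩ := hgh (t - R - 1) (by linarith)
  obtain ⟨d, hdI, hgd⟩ := hgh (t + R) (by linarith)
  have hc0 : X / 4 ≤ c := by linarith [hcI.1]
  have hcp : 0 < c := by linarith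
  have hcd : c < d := by linarith [hcI.2, hdI.1]
  have hd1 : d ≤ 5 * X := by linarith [hdI.2]
  set s : ℂ := ⟨1 / 2 + r, t⟩ with hs
  have hsre : s.re = 1 / 2 + r := rfl
  have hsim : s.im = t := rfl
  have hZ : ∀ ρ ∈ Zf c d, riemannZeta ρ = 0 ∧ ρ.re = 1 / 2 ∧ |ρ.im - t| ≤ hh X + 2 := by
    intro ρ hρ
    obtain ⟨h1, h2, h3⟩ := (mem_Zf hcp.le).1 hρ
    refine ⟨h1.1, rh_re RH h1.1 (hcp.trans h2), ?_⟩
    rw [abs_le]
    constructor <;> linarith [hcI.1, hdI.2]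
  have hnz := rh_nz RH
  have hres := res_ld (L := L) (c := c) (d := d) hL hcp hcd (s := s) (by rw [hsre]; linarith) (by rw [hsre]; linarith)
    (by rw [hsim]; linarith [hcI.2]) (by rw [hsim]; linarith [hdI.1]) hnz (fun σ hσ => (hgc σ hσ).1)
    (fun σ hσ => (hgd σ hσ).1) (fun ρ hρ => hN.1 ρ (hZ ρ hρ).1 (hZ ρ hρ).2.1 (hZ ρ hρ).2.2)
  set Hc := ∫ x in (-1 / 2 : ℝ)..(3 / 2), LD (⟨x, c⟩ : ℂ) * KK L (⟨x, c⟩ - s) with hHc
  set Hd := ∫ x in (-1 / 2 : ℝ)..(3 / 2), LD (⟨x, d⟩ : ℂ) * KK L (⟨x, d⟩ - s) with hHd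
  set Rt := ∫ y in c..d, LD (⟨3 / 2, y⟩ : ℂ) * KK L (⟨3 / 2, y⟩ - s) with hRt
  set Lf := ∫ y in c..d, LD (⟨-1 / 2, y⟩ : ℂ) * KK L (⟨-1 / 2, y⟩ - s) with hLf
  set Sz := ∑ ρ ∈ Zf c d, KK L (ρ - s) with hSz
  -- the horizontal sides
  have hlogT : ∀ U : ℝ, 3 ≤ U → U ≤ 5 * X → Real.log U ^ 2 ≤ 4 * l ^ 2 := by
    intro U h1 h2
    have h3 : 0 ≤ Real.log U := Real.log_nonneg (by linarith)
    have h4 : Real.log U ≤ 2 * l := by
      have h5 : Real.log U ≤ Real.log (X ^ 2) := Real.log_le_log (by linarith) (by nlinarith)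
      rw [Real.log_pow] at h5
      exact_mod_cast h5
    nlinarith
  have hhor : ∀ U : ℝ, 3 ≤ U → R ≤ |U - t| → (∀ σ ∈ Icc (-1 / 2 : ℝ) (3 / 2), riemannZeta (⟨σ, U⟩ : ℂ) ≠ 0 ∧
      ‖deriv riemannZeta (⟨σ, U⟩ : ℂ) / riemannZeta (⟨σ, U⟩ : ℂ)‖ ≤ 4 * C1 * l ^ 2) →
      ‖∫ x in (-1 / 2 : ℝ)..(3 / 2), LD (⟨x, U⟩ : ℂ) * KK L (⟨x, U⟩ - s)‖ ≤ 1 := by
    intro U hU1 hU2 hU3
    have hpt : ∀ x ∈ Set.uIoc (-1 / 2 : ℝ) (3 / 2), ‖LD (⟨x, U⟩ : ℂ) * KK L (⟨x, U⟩ - s)‖ ≤
        (4 * C1 * l ^ 2 + 1) * (8 * Real.exp l * E) := by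
      intro x hx
      rw [Set.uIoc_of_le (by norm_num)] at hx
      have hx' : x ∈ Icc (-1 / 2 : ℝ) (3 / 2) := ⟨hx.1.le, hx.2⟩
      obtain ⟨h1, h2⟩ := hU3 x hx'
      have him : (⟨x, U⟩ : ℂ).im = U := rfl
      rw [LD_eq (ne_one_im (by rw [him]; linarith)) h1, norm_mul]
      have h3 : ‖1 / ((⟨x, U⟩ : ℂ) - 1)‖ ≤ 1 := by
        rw [norm_div, norm_one]
        have h4 : 1 ≤ ‖(⟨x, U⟩ : ℂ) - 1‖ := by
          have h5 := Complex.abs_im_le_norm ((⟨x, U⟩ : ℂ) - 1)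
          have h6 : ((⟨x, U⟩ : ℂ) - 1).im = U := by simp
          rw [h6] at h5
          linarith [le_abs_self U]
        rw [div_le_one (by linarith)]
        exact h4
      have hwre : ((⟨x, U⟩ : ℂ) - s).re = x - 1 / 2 - r := by simp [hs]; ring
      have hwim : ((⟨x, U⟩ : ℂ) - s).im = U - t := by simp [hs]
      have h7 := KK_hor (L := L) (w := (⟨x, U⟩ : ℂ) - s) (by linarith) (by
        rw [hwre, abs_le]; constructor <;> linarith [hx'.1, hx'.2]) (by
        rw [hwre]; linarith [hx'.2]) (by rw [hwim]; linarith)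
      have h8 : Real.exp (-(((⟨x, U⟩ : ℂ) - s).im) ^ 2 / 2) ≤ E := by
        rw [hwim]
        refine le_trans ?_ hE2
        apply Real.exp_le_exp.2
        rw [neg_div]
        apply neg_le_neg
        rw [← sq_abs (U - t)]
        gcongr
      apply mul_le_mul _ _ (norm_nonneg _) (by positivity)
      · exact (norm_add_le _ _).trans (add_le_add h2 h3)
      · refine h7.trans ?_
        gcongr
    refine (intervalIntegral.norm_integral_le_of_norm_le_const hpt).trans ?_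
    have h9 : |(3 / 2 : ℝ) - -1 / 2| = 2 := by norm_num
    rw [h9]
    calc (4 * C1 * l ^ 2 + 1) * (8 * Real.exp l * E) * 2 = (64 * C1 * l ^ 2 + 16) * Real.exp l * E := by ring
      _ ≤ K * (l ^ 2 + 1) * Real.exp l * E := by
          have : 64 * C1 * l ^ 2 + 16 ≤ K * (l ^ 2 + 1) := by
            rw [hK]
            have h10 : 0 ≤ l ^ 2 := by positivity
            nlinarith
          gcongr
      _ ≤ 1 := hKE
  have hHcb : ‖Hc‖ ≤ 1 := by
    apply hhor c (by linarith) (by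
      rw [abs_sub_comm]
      exact le_trans (by linarith [hcI.2]) (le_abs_self _))
    intro σ hσ
    obtain ⟨h1, h2⟩ := hgc σ hσ
    refine ⟨h1, h2.trans ?_⟩
    have := hlogT (t - R - 1) (by linarith) (by linarith)
    nlinarith
  have hHdb : ‖Hd‖ ≤ 1 := by
    apply hhor d (by linarith) (le_trans (by linarith [hdI.1]) (le_abs_self _))
    intro σ hσ
    obtain ⟨h1, h2⟩ := hgd σ hσ
    refine ⟨h1, h2.trans ?_⟩
    have := hlogT (t + R) (by linarith) (by linarith)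
    nlinarith
  -- the left side
  have hLfb : ‖Lf‖ ≤ 20 * (C2 + 2 + H370.D0 + 1) * (l * Real.exp (-(L * r))) := by
    have hpt : ∀ y ∈ Ioc c d, ‖LD (⟨-1 / 2, y⟩ : ℂ) * KK L (⟨-1 / 2, y⟩ - s)‖ ≤
        ((C2 + 2 * l + H370.D0 + 1) * (5 * Real.exp (-L))) * Real.exp (-(y - t) ^ 2 / 2) := by
      intro y hy
      have hy1 : 1 ≤ y := by linarith [hy.1]
      have hyp : 0 < y := by linarith
      have him : (⟨-1 / 2, y⟩ : ℂ).im = y := rfl
      have hre : (⟨-1 / 2, y⟩ : ℂ).re = -1 / 2 := rfl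
      have hz0 : riemannZeta (⟨-1 / 2, y⟩ : ℂ) ≠ 0 := (AR.left_bound.choose_spec.2 y hyp).1
      have h1 := hleft' ⟨-1 / 2, y⟩ (by rw [hre]) (by rw [hre]; norm_num) (by rw [him]; exact hy1) hz0
      have e1 : (1 - (starRingEnd ℂ) (⟨-1 / 2, y⟩ : ℂ)) = (⟨3 / 2, y⟩ : ℂ) := by
        apply Complex.ext
        · simp; norm_num
        · simp
      rw [e1, H370.zeta_ld ⟨3 / 2, y⟩ (by norm_num) hy1, him] at h1
      have h2 : ‖(starRingEnd ℂ) (-∑' n : ℕ, (ArithmeticFunction.vonMangoldt n : ℂ) * (n : ℂ) ^ (-(⟨3 / 2, y⟩ : ℂ)))‖ ≤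
          H370.D0 := by
        rw [RCLike.norm_conj, norm_neg]
        exact H370.norm_DD Lc Lc_le y
      have h3 : ‖deriv riemannZeta (⟨-1 / 2, y⟩ : ℂ) / riemannZeta ⟨-1 / 2, y⟩‖ ≤ C2 + 2 * l + H370.D0 := by
        set A := deriv riemannZeta (⟨-1 / 2, y⟩ : ℂ) / riemannZeta ⟨-1 / 2, y⟩
        set B := (starRingEnd ℂ) (-∑' n : ℕ, (ArithmeticFunction.vonMangoldt n : ℂ) * (n : ℂ) ^ (-(⟨3 / 2, y⟩ : ℂ)))
        have h4 : A = (A + (Real.log y : ℂ) + B) - (Real.log y : ℂ) - B := by ring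
        have h5 : 0 ≤ Real.log y := Real.log_nonneg hy1
        have h6 : Real.log y ≤ 2 * l := by
          have h5 : Real.log y ≤ Real.log (X ^ 2) := Real.log_le_log hyp (by nlinarith [hy.2])
          rw [Real.log_pow] at h5
          exact_mod_cast h5
        have h7 : ‖(Real.log y : ℂ)‖ ≤ 2 * l := by
          rw [Complex.norm_real, Real.norm_of_nonneg h5]; exact h6
        have h8 : C2' ≤ C2 := le_max_left _ _
        rw [h4]
        calc _ ≤ ‖A + (Real.log y : ℂ) + B‖ + ‖(Real.log y : ℂ)‖ + ‖B‖ :=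
              (norm_sub_le _ _).trans (add_le_add (norm_sub_le _ _) le_rfl)
          _ ≤ C2 + 2 * l + H370.D0 := by linarith
      rw [LD_eq (ne_one_im (by rw [him]; linarith)) hz0, norm_mul]
      have h3' : ‖1 / ((⟨-1 / 2, y⟩ : ℂ) - 1)‖ ≤ 1 := by
        rw [norm_div, norm_one]
        have h4 : 1 ≤ ‖(⟨-1 / 2, y⟩ : ℂ) - 1‖ := by
          have h5 := Complex.abs_im_le_norm ((⟨-1 / 2, y⟩ : ℂ) - 1)
          have h6 : ((⟨-1 / 2, y⟩ : ℂ) - 1).im = y := by simp
          rw [h6] at h5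
          linarith [le_abs_self y]
        rw [div_le_one (by linarith)]
        exact h4
      have hwre : ((⟨-1 / 2, y⟩ : ℂ) - s).re = -(1 + r) := by simp [hs]; ring
      have hwim : ((⟨-1 / 2, y⟩ : ℂ) - s).im = y - t := by simp [hs]
      have h7 := KK_left (L := L) (w := (⟨-1 / 2, y⟩ : ℂ) - s) hL0 (by rw [hwre]; linarith)
      rw [hwre, hwim] at h7
      have h8 : ‖KK L ((⟨-1 / 2, y⟩ : ℂ) - s)‖ ≤ 5 * Real.exp (-L) * Real.exp (-(y - t) ^ 2 / 2) := by
        refine h7.trans ?_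
        have h9 : 1 ≤ L * ((-(1 + r)) ^ 2 + (y - t) ^ 2) := by
          have h10 : 1 ≤ (-(1 + r)) ^ 2 + (y - t) ^ 2 := by nlinarith [sq_nonneg (y - t)]
          nlinarith
        have h10 : Real.exp ((-(1 + r)) ^ 2 / 2) ≤ 5 := by
          refine le_trans (Real.exp_le_exp.2 ?_) exp_le_five
          nlinarith
        have h11 : Real.exp (L * -(1 + r)) ≤ Real.exp (-L) := Real.exp_le_exp.2 (by nlinarith)
        calc _ ≤ Real.exp ((-(1 + r)) ^ 2 / 2) * Real.exp (-(y - t) ^ 2 / 2) * Real.exp (L * -(1 + r)) / 1 := by gcongr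
          _ ≤ 5 * Real.exp (-(y - t) ^ 2 / 2) * Real.exp (-L) := by rw [div_one]; gcongr
          _ = _ := by ring
      calc _ ≤ (C2 + 2 * l + H370.D0 + 1) * (5 * Real.exp (-L) * Real.exp (-(y - t) ^ 2 / 2)) := by
            apply mul_le_mul _ h8 (norm_nonneg _) (by positivity)
            exact (norm_add_le _ _).trans (add_le_add h3 h3')
        _ = _ := by ring
    refine (H370.int_bound hcd.le (by positivity) hpt).trans ?_
    have h1 : Real.exp (-L) ≤ Real.exp (-(L * r)) := Real.exp_le_exp.2 (by nlinarith)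
    have h2 : C2 + 2 * l + H370.D0 + 1 ≤ (C2 + 2 + H370.D0 + 1) * l := by nlinarith
    calc (C2 + 2 * l + H370.D0 + 1) * (5 * Real.exp (-L)) * 4 ≤
        ((C2 + 2 + H370.D0 + 1) * l) * (5 * Real.exp (-(L * r))) * 4 := by gcongr
      _ = _ := by ring
  -- the right side
  have hRtb : ‖Rt + 2 * Real.pi * ZP L s‖ ≤ 49 := by
    have hKr : ∀ y : ℝ, ‖KK L ((⟨3 / 2, y⟩ : ℂ) - s)‖ ≤ 3 * Real.exp L * Real.exp (-(y - t) ^ 2 / 2) := by
      intro y
      have hwre : ((⟨3 / 2, y⟩ : ℂ) - s).re = 1 - r := by simp [hs]; ring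
      have hwim : ((⟨3 / 2, y⟩ : ℂ) - s).im = y - t := by simp [hs]
      have := KK_right (w := (⟨3 / 2, y⟩ : ℂ) - s) hL (by rw [hwre]; linarith) (by rw [hwre]; linarith)
      rwa [hwim] at this
    have hKc : Continuous (fun y : ℝ => KK L ((⟨3 / 2, y⟩ : ℂ) - s)) := by
      have hw : ∀ y : ℝ, (⟨3 / 2, y⟩ : ℂ) - s = ((1 - r : ℝ) : ℂ) + ((y - t : ℝ) : ℂ) * I := by
        intro y
        apply Complex.ext
        · simp [hs]; ring
        · simp [hs]
      simp only [hw]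
      unfold KK
      apply Continuous.div (by fun_prop) (by fun_prop)
      intro y h
      rcases mul_eq_zero.1 h with h | h
      · have := congrArg Complex.re h
        simp at this
        linarith
      · have := congrArg Complex.re h
        simp at this
        nlinarith
    have hDc := H370.DD_cont Lc Lc_le
    have hline := right_line (L := L) (r := r) (t := t) hL hr0.le hr2
    rw [← hs] at hline
    have htail := H370.tail_bound (f := fun y : ℝ => H370.DD Lc (⟨3 / 2, y⟩ : ℂ) * KK L ((⟨3 / 2, y⟩ : ℂ) - s))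
      (K := H370.D0 * (3 * Real.exp L)) (t := t) (W := R) (U1 := c) (U2 := d)
      (hDc.mul hKc).aestronglyMeasurable (by positivity) (by
        intro y
        rw [norm_mul, mul_assoc]
        exact mul_le_mul (H370.norm_DD Lc Lc_le y) (hKr y) (norm_nonneg _) hD0) (by linarith) (by linarith [hcI.2])
        (by linarith [hdI.1])
    rw [hline] at htail
    have hsplit : Rt = (∫ y in c..d, (1 / ((⟨3 / 2, y⟩ : ℂ) - 1)) * KK L ((⟨3 / 2, y⟩ : ℂ) - s)) -
        ∫ y in c..d, H370.DD Lc (⟨3 / 2, y⟩ : ℂ) * KK L ((⟨3 / 2, y⟩ : ℂ) - s) := by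
      rw [← intervalIntegral.integral_sub]
      · rw [hRt]
        apply intervalIntegral.integral_congr
        intro y hy
        rw [uIcc_of_le hcd.le] at hy
        have hy1 : 1 ≤ y := by linarith [hy.1]
        have him : (⟨3 / 2, y⟩ : ℂ).im = y := rfl
        have hz0 : riemannZeta (⟨3 / 2, y⟩ : ℂ) ≠ 0 := (AR.right_bound.choose_spec.2 y).1
        simp only
        rw [LD_eq (ne_one_im (by rw [him]; linarith)) hz0, H370.zeta_ld ⟨3 / 2, y⟩ (by norm_num) hy1]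
        have : (∑' n : ℕ, (ArithmeticFunction.vonMangoldt n : ℂ) * (n : ℂ) ^ (-(⟨3 / 2, y⟩ : ℂ))) =
            H370.DD Lc ⟨3 / 2, y⟩ := rfl
        rw [this]
        ring
      · apply Continuous.intervalIntegrable
        apply Continuous.mul _ hKc
        have hw : ∀ y : ℝ, (⟨3 / 2, y⟩ : ℂ) = ((3 / 2 : ℝ) : ℂ) + (y : ℂ) * I := fun y => H370.mk_eq _ _
        simp only [hw]
        apply Continuous.div (by fun_prop) (by fun_prop)
        intro y h
        have := congrArg Complex.re h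
        simp at this
        norm_num at this
      · exact (hDc.mul hKc).intervalIntegrable _ _
    have hsm : ‖∫ y in c..d, (1 / ((⟨3 / 2, y⟩ : ℂ) - 1)) * KK L ((⟨3 / 2, y⟩ : ℂ) - s)‖ ≤
        (4 / X * (3 * Real.exp L)) * 4 := by
      apply H370.int_bound (t := t) hcd.le (by positivity)
      intro y hy
      rw [norm_mul, mul_assoc]
      apply mul_le_mul _ (hKr y) (norm_nonneg _) (by positivity)
      rw [norm_div, norm_one]
      have h4 : X / 4 ≤ ‖(⟨3 / 2, y⟩ : ℂ) - 1‖ := by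
        have h5 := Complex.abs_im_le_norm ((⟨3 / 2, y⟩ : ℂ) - 1)
        have h6 : ((⟨3 / 2, y⟩ : ℂ) - 1).im = y := by simp
        rw [h6] at h5
        linarith [le_abs_self y, hy.1]
      rw [div_le_div_iff₀ (by linarith) hX0]
      linarith
    have hLX' : Real.exp L ≤ X := by
      rw [← Real.exp_log hX0]; exact hLl
    have hsm2 : (4 / X * (3 * Real.exp L)) * 4 ≤ 48 := by
      have : 4 / X * (3 * Real.exp L) ≤ 4 / X * (3 * X) := by gcongr
      have h2 : 4 / X * (3 * X) = 12 := by field_simp; norm_num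
      linarith
    have htl2 : H370.D0 * (3 * Real.exp L) * (4 * Real.exp (-R ^ 2 / 4)) ≤ 1 := by
      calc H370.D0 * (3 * Real.exp L) * (4 * Real.exp (-R ^ 2 / 4)) ≤ H370.D0 * (3 * Real.exp l) * (4 * E) := by
            gcongr
        _ = 12 * H370.D0 * Real.exp l * E := by ring
        _ ≤ K * (l ^ 2 + 1) * Real.exp l * E := by
            have : 12 * H370.D0 ≤ K * (l ^ 2 + 1) := by
              rw [hK]
              have h10 : 0 ≤ l ^ 2 := by positivity
              nlinarith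
            gcongr
        _ ≤ 1 := hKE
    rw [hsplit]
    set I1 := ∫ y in c..d, (1 / ((⟨3 / 2, y⟩ : ℂ) - 1)) * KK L ((⟨3 / 2, y⟩ : ℂ) - s)
    set I2 := ∫ y in c..d, H370.DD Lc (⟨3 / 2, y⟩ : ℂ) * KK L ((⟨3 / 2, y⟩ : ℂ) - s)
    have e2 : I1 - I2 + 2 * Real.pi * ZP L s = I1 + (2 * Real.pi * ZP L s - I2) := by ring
    rw [e2]
    refine (norm_add_le _ _).trans ?_
    linarith
  -- the zeros
  have hSb : ‖Sz‖ ≤ 12 / c1 * (l * Real.exp (-(L * r))) := by
    set δ := c1 / l with hδ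
    have hδ0 : 0 < δ := by positivity
    have hδr : δ ≤ r := by
      refine le_trans ?_ hr1
      rw [hδ]
      calc c1 / l ≤ 1 / l := by gcongr
        _ ≤ 1 / L := by gcongr
    classical
    set S : Finset ℝ := (Zf c d).image (fun ρ => ρ.im - t) with hS
    have hinj : Set.InjOn (fun ρ : ℂ => ρ.im - t) (Zf c d) := by
      intro x hx y hy hxy
      simp only at hxy
      exact Complex.ext (by rw [(hZ x hx).2.1, (hZ y hy).2.1]) (by linarith)
    have hsep : SepS δ S := by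
      intro x hx y hy hne
      rw [hS, Finset.mem_image] at hx hy
      obtain ⟨ρ, hρ, rfl⟩ := hx
      obtain ⟨ρ', hρ', rfl⟩ := hy
      obtain ⟨a1, a2, a3⟩ := hZ ρ hρ
      obtain ⟨b1, b2, b3⟩ := hZ ρ' hρ'
      rw [sub_sub_sub_cancel_right]
      exact hN.2 ρ ρ' a1 a2 a3 b1 b2 b3 (fun h => hne (by rw [h]))
    have h1 := sum_sq hδ0 hr0 S hsep
    rw [hS, Finset.sum_image hinj] at h1
    have hpt : ∀ ρ ∈ Zf c d, ‖KK L (ρ - s)‖ ≤ 2 * Real.exp (-(L * r)) / L * (1 / (r ^ 2 + (ρ.im - t) ^ 2)) := by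
      intro ρ hρ
      obtain ⟨a1, a2, a3⟩ := hZ ρ hρ
      have hwre : (ρ - s).re = -r := by simp [hs, a2]
      have hwim : (ρ - s).im = ρ.im - t := by simp [hs]
      have h7 := KK_left (L := L) (w := ρ - s) hL0 (by rw [hwre]; linarith)
      rw [hwre, hwim] at h7
      refine h7.trans ?_
      have h2 : Real.exp ((-r) ^ 2 / 2) ≤ 2 := by
        refine le_trans (Real.exp_le_exp.2 ?_) H370.exp_half_le
        nlinarith
      have h3 : Real.exp (-(ρ.im - t) ^ 2 / 2) ≤ 1 := by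
        rw [Real.exp_le_one_iff]
        have := sq_nonneg (ρ.im - t)
        linarith
      have h4 : Real.exp (L * -r) = Real.exp (-(L * r)) := by congr 1; ring
      rw [neg_sq, h4]
      calc _ ≤ 2 * 1 * Real.exp (-(L * r)) / (L * (r ^ 2 + (ρ.im - t) ^ 2)) := by
            gcongr
            rw [neg_sq] at h2
            exact h2
        _ = _ := by
            have : 0 < r ^ 2 + (ρ.im - t) ^ 2 := by positivity
            field_simp
    calc ‖Sz‖ ≤ ∑ ρ ∈ Zf c d, ‖KK L (ρ - s)‖ := norm_sum_le _ _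
      _ ≤ ∑ ρ ∈ Zf c d, 2 * Real.exp (-(L * r)) / L * (1 / (r ^ 2 + (ρ.im - t) ^ 2)) := Finset.sum_le_sum hpt
      _ = 2 * Real.exp (-(L * r)) / L * ∑ ρ ∈ Zf c d, 1 / (r ^ 2 + (ρ.im - t) ^ 2) := by rw [Finset.mul_sum]
      _ ≤ 2 * Real.exp (-(L * r)) / L * (6 / (δ * r)) := by
          gcongr
          refine h1.trans ?_
          have h5 : 2 / r ^ 2 ≤ 2 / (δ * r) := by
            apply div_le_div_of_nonneg_left (by norm_num) (by positivity)
            nlinarith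
          have h6 : 6 / (δ * r) = 2 / (δ * r) + 4 / (δ * r) := by ring
          rw [h6]
          linarith
      _ = 12 / δ * Real.exp (-(L * r)) * (1 / (L * r)) := by field_simp; norm_num
      _ ≤ 12 / δ * Real.exp (-(L * r)) * 1 := by
          have h7 : 1 ≤ L * r := by
            rw [div_le_iff₀ hL0] at hr1
            linarith
          gcongr
          rw [div_le_one (by positivity)]
          exact h7
      _ = 12 / c1 * (l * Real.exp (-(L * r))) := by rw [hδ]; field_simp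
  -- conclusion
  have hpi := Real.pi_gt_three
  have hpic : (Real.pi : ℂ) ≠ 0 := by exact_mod_cast Real.pi_ne_zero
  have hmain : LD s - kap L * LD (s + (1 / L : ℝ)) + ZP L s =
      (1 / (2 * Real.pi * I)) * (Hc - Hd) + (1 / (2 * Real.pi)) * (Rt + 2 * Real.pi * ZP L s) -
        (1 / (2 * Real.pi)) * Lf - Sz := by
    have hI : I ≠ 0 := I_ne_zero
    have h2 : (2 * Real.pi * I : ℂ) ≠ 0 := by
      refine mul_ne_zero (mul_ne_zero two_ne_zero hpic) hI
    have h3 : LD s - kap L * LD (s + (1 / L : ℝ)) + Sz = (1 / (2 * Real.pi * I)) * (Hc - Hd + I * Rt - I * Lf) := by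
      rw [hres]
      field_simp
    have h4 : LD s - kap L * LD (s + (1 / L : ℝ)) = (1 / (2 * Real.pi * I)) * (Hc - Hd + I * Rt - I * Lf) - Sz := by
      rw [← h3]; ring
    rw [h4]
    field_simp
    ring
  have hs' : s + ((1 / L : ℝ) : ℂ) = ⟨1 / 2 + (r + 1 / L), t⟩ := by
    apply Complex.ext
    · simp [hs]; ring
    · simp [hs]
  have hnorm1 : ‖(1 / (2 * Real.pi * I) : ℂ)‖ ≤ 1 / 2 := by
    rw [norm_div, norm_mul, norm_mul, Complex.norm_I, mul_one, norm_one, Complex.norm_real,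
      Real.norm_of_nonneg Real.pi_pos.le, Complex.norm_ofNat]
    gcongr
    linarith
  have hnorm2 : ‖(1 / (2 * Real.pi) : ℂ)‖ ≤ 1 := by
    rw [norm_div, norm_mul, norm_one, Complex.norm_real,
      Real.norm_of_nonneg Real.pi_pos.le, Complex.norm_ofNat, div_le_one (by positivity)]
    linarith
  have hmb : ‖LD s - kap L * LD (s + (1 / L : ℝ)) + ZP L s‖ ≤
      1 + 49 + 20 * (C2 + 2 + H370.D0 + 1) * (l * Real.exp (-(L * r))) + 12 / c1 * (l * Real.exp (-(L * r))) := by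
    rw [hmain]
    have h1 : ‖(1 / (2 * Real.pi * I) : ℂ) * (Hc - Hd)‖ ≤ 1 := by
      rw [norm_mul]
      have h0 : ‖Hc - Hd‖ ≤ 2 := (norm_sub_le Hc Hd).trans (by linarith)
      have h1 := mul_le_mul hnorm1 h0 (norm_nonneg _) (by norm_num)
      linarith
    have h2 : ‖(1 / (2 * Real.pi) : ℂ) * (Rt + 2 * Real.pi * ZP L s)‖ ≤ 49 := by
      rw [norm_mul]
      have h1 := mul_le_mul hnorm2 hRtb (norm_nonneg _) zero_le_one
      linarith
    have h3 : ‖(1 / (2 * Real.pi) : ℂ) * Lf‖ ≤ 20 * (C2 + 2 + H370.D0 + 1) * (l * Real.exp (-(L * r))) := by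
      rw [norm_mul]
      calc _ ≤ 1 * (20 * (C2 + 2 + H370.D0 + 1) * (l * Real.exp (-(L * r)))) := by gcongr
        _ = _ := one_mul _
    refine (norm_sub_le _ _).trans ?_
    have h4 := (norm_sub_le ((1 / (2 * Real.pi * I) : ℂ) * (Hc - Hd) + (1 / (2 * Real.pi) : ℂ) * (Rt + 2 * Real.pi * ZP L s))
      ((1 / (2 * Real.pi) : ℂ) * Lf))
    have h5 := norm_add_le ((1 / (2 * Real.pi * I) : ℂ) * (Hc - Hd)) ((1 / (2 * Real.pi) : ℂ) * (Rt + 2 * Real.pi * ZP L s))
    linarith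
  have hLDs : LD s = logDeriv riemannZeta s + 1 / (s - 1) := by
    rw [LD_eq (ne_one_im (by rw [hsim]; linarith)) (hnz s (by rw [hsre]; linarith) (by rw [hsim]; linarith)),
      logDeriv_apply]
  have hs'im : (s + ((1 / L : ℝ) : ℂ)).im = t := by rw [hs']
  have hs're : (s + ((1 / L : ℝ) : ℂ)).re = 1 / 2 + (r + 1 / L) := by rw [hs']
  have hLDs' : LD (s + ((1 / L : ℝ) : ℂ)) = logDeriv riemannZeta ⟨1 / 2 + (r + 1 / L), t⟩ +
      1 / (s + ((1 / L : ℝ) : ℂ) - 1) := by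
    rw [LD_eq (ne_one_im (by rw [hs'im]; linarith)) (hnz _ (by rw [hs're]; linarith) (by rw [hs'im]; linarith)),
      logDeriv_apply, hs']
  have hinv : ∀ z : ℂ, 1 ≤ z.im → ‖1 / (z - 1)‖ ≤ 1 := by
    intro z hz
    rw [norm_div, norm_one]
    have h4 : 1 ≤ ‖z - 1‖ := by
      have h5 := Complex.abs_im_le_norm (z - 1)
      have h6 : (z - 1).im = z.im := by simp
      rw [h6] at h5
      linarith [le_abs_self z.im]
    rw [div_le_one (by linarith)]
    exact h4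
  have htl := tail_ZP (L := L) hL (s := s) (by rw [hsre]; linarith) (N := ⌊Real.exp (4 * L)⌋₊)
    (Nat.lt_floor_add_one _).le
  have hk := kap_le hL
  have hkn : ‖((kap L : ℝ) : ℂ)‖ ≤ 3 := by
    rw [Complex.norm_real, Real.norm_of_nonneg (by linarith [hk.2])]
    exact hk.1
  set A := logDeriv riemannZeta s
  set B := logDeriv riemannZeta (⟨1 / 2 + (r + 1 / L), t⟩ : ℂ)
  set i1 := (1 : ℂ) / (s - 1) with hi1
  set i2 := (1 : ℂ) / (s + ((1 / L : ℝ) : ℂ) - 1) with hi2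
  have hi1b : ‖i1‖ ≤ 1 := hinv s (by rw [hsim]; linarith)
  have hi2b : ‖i2‖ ≤ 1 := hinv _ (by rw [hs'im]; linarith)
  rw [hLDs, hLDs'] at hmb
  have e5 : A - kap L * B + PN L ⌊Real.exp (4 * L)⌋₊ s = (A + i1 - kap L * (B + i2) + ZP L s) - i1 + kap L * i2 -
      (ZP L s - PN L ⌊Real.exp (4 * L)⌋₊ s) := by ring
  rw [e5]
  have h6 : ‖((kap L : ℝ) : ℂ) * i2‖ ≤ 3 := by
    rw [norm_mul]
    have h1 := mul_le_mul hkn hi2b (norm_nonneg _) (by norm_num)
    linarith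
  have h7 : ‖(A + i1 - kap L * (B + i2) + ZP L s) - i1 + kap L * i2 - (ZP L s - PN L ⌊Real.exp (4 * L)⌋₊ s)‖ ≤
      ‖A + i1 - kap L * (B + i2) + ZP L s‖ + ‖i1‖ + ‖((kap L : ℝ) : ℂ) * i2‖ + ‖ZP L s - PN L ⌊Real.exp (4 * L)⌋₊ s‖ := by
    refine (norm_sub_le _ _).trans (add_le_add ((norm_add_le _ _).trans (add_le_add (norm_sub_le _ _) le_rfl)) le_rfl)
  refine h7.trans ?_
  have h8 : 0 ≤ l * Real.exp (-(L * r)) := by positivity
  have h9 : 0 ≤ 12 / c1 := by positivity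
  set Y := l * Real.exp (-(L * r))
  nlinarith

end Pool.Agent.Helper44K9.AL
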