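import Mathlib

/-! Sums over separated sets of reals. -/

set_option autoImplicit false

namespace Pool.Agent.Helper44K9.AL

open Finset

/-- `S` is `δ`-separated -/
def SepS (δ : ℝ) (S : Finset ℝ) : Prop := ∀ x ∈ S, ∀ y ∈ S, x ≠ y → δ ≤ |x - y|

lemma SepS.subset {δ : ℝ} {S T : Finset ℝ} (h : SepS δ S) (hT : T ⊆ S) : SepS δ T :=
  fun x hx y hy hne => h x (hT hx) y (hT hy) hne

lemma floor_inj {δ x y : ℝ} (hδ : 0 < δ) (hx : 0 ≤ x) (hy : 0 ≤ y)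
    (h : ⌊x / δ⌋₊ = ⌊y / δ⌋₊) : |x - y| < δ := by
  have h1 := Nat.floor_le (show 0 ≤ x / δ by positivity)
  have h2 := Nat.lt_floor_add_one (x / δ)
  have h3 := Nat.floor_le (show 0 ≤ y / δ by positivity)
  have h4 := Nat.lt_floor_add_one (y / δ)
  rw [← h] at h3 h4
  rw [le_div_iff₀ hδ] at h1 h3
  rw [div_lt_iff₀ hδ] at h2 h4
  rw [abs_lt]
  constructor <;> linarith

lemma half_sum {δ : ℝ} (hδ : 0 < δ) (g : ℝ → ℝ) (hg0 : ∀ u, 0 ≤ u → 0 ≤ g u)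
    (hg : ∀ u v, 0 ≤ u → u ≤ v → g v ≤ g u) (S : Finset ℝ) (hsep : SepS δ S)
    (hs : (∀ y ∈ S, 0 ≤ y) ∨ (∀ y ∈ S, y < 0)) (a M : ℕ)
    (ha : ∀ y ∈ S, (a : ℝ) * δ ≤ |y|) (hM : ∀ y ∈ S, |y| < (M + 1) * δ) :
    ∑ y ∈ S, g |y| ≤ ∑ m ∈ Icc a M, g (m * δ) := by
  classical
  have hinj : Set.InjOn (fun y : ℝ => ⌊|y| / δ⌋₊) S := by
    intro x hx y hy hxy
    by_contra hne
    have h1 := floor_inj hδ (abs_nonneg x) (abs_nonneg y) hxy
    have h2 := hsep x hx y hy hne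
    have h3 : |(|x| - |y|)| = |x - y| := by
      rcases hs with h | h
      · rw [abs_of_nonneg (h x hx), abs_of_nonneg (h y hy)]
      · rw [abs_of_neg (h x hx), abs_of_neg (h y hy), ← abs_neg]
        congr 1; ring
    rw [h3] at h1
    linarith
  have h1 : ∀ y ∈ S, g |y| ≤ g ((⌊|y| / δ⌋₊ : ℕ) * δ) := by
    intro y _
    apply hg _ _ (by positivity)
    have h1 := Nat.floor_le (show 0 ≤ |y| / δ by positivity)
    rwa [le_div_iff₀ hδ] at h1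
  calc ∑ y ∈ S, g |y| ≤ ∑ y ∈ S, g ((⌊|y| / δ⌋₊ : ℕ) * δ) := Finset.sum_le_sum h1
    _ = ∑ m ∈ S.image (fun y : ℝ => ⌊|y| / δ⌋₊), g ((m : ℕ) * δ) := by
        rw [Finset.sum_image hinj]
    _ ≤ ∑ m ∈ Icc a M, g (m * δ) := by
        apply Finset.sum_le_sum_of_subset_of_nonneg
        · intro m hm
          rw [Finset.mem_image] at hm
          obtain ⟨y, hy, rfl⟩ := hm
          rw [Finset.mem_Icc]
          constructor
          · apply Nat.le_floor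
            rw [le_div_iff₀ hδ]
            exact ha y hy
          · have h2 := hM y hy
            rw [← div_lt_iff₀ hδ] at h2
            have h3 : ⌊|y| / δ⌋₊ < M + 1 := by
              rw [Nat.floor_lt (by positivity)]
              exact_mod_cast h2
            omega
        · intro m _ _
          exact hg0 _ (by positivity)

lemma both_sum {δ : ℝ} (hδ : 0 < δ) (g : ℝ → ℝ) (hg0 : ∀ u, 0 ≤ u → 0 ≤ g u)
    (hg : ∀ u v, 0 ≤ u → u ≤ v → g v ≤ g u) (S : Finset ℝ) (hsep : SepS δ S) (a M : ℕ)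
    (ha : ∀ y ∈ S, (a : ℝ) * δ ≤ |y|) (hM : ∀ y ∈ S, |y| < (M + 1) * δ) :
    ∑ y ∈ S, g |y| ≤ 2 * ∑ m ∈ Icc a M, g (m * δ) := by
  classical
  rw [← Finset.sum_filter_add_sum_filter_not S (fun y => 0 ≤ y), two_mul]
  apply add_le_add
  · exact half_sum hδ g hg0 hg _ (hsep.subset (Finset.filter_subset _ _))
      (Or.inl fun y hy => (Finset.mem_filter.1 hy).2) a M
      (fun y hy => ha y (Finset.mem_filter.1 hy).1) (fun y hy => hM y (Finset.mem_filter.1 hy).1)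
  · exact half_sum hδ g hg0 hg _ (hsep.subset (Finset.filter_subset _ _))
      (Or.inr fun y hy => not_le.1 (Finset.mem_filter.1 hy).2) a M
      (fun y hy => ha y (Finset.mem_filter.1 hy).1) (fun y hy => hM y (Finset.mem_filter.1 hy).1)

lemma exists_M {δ : ℝ} (hδ : 0 < δ) (S : Finset ℝ) : ∃ M : ℕ, ∀ y ∈ S, |y| < (M + 1) * δ := by
  classical
  refine ⟨⌈(∑ y ∈ S, |y|) / δ⌉₊, fun y hy => ?_⟩
  have h1 : |y| ≤ ∑ y ∈ S, |y| := Finset.single_le_sum (f := fun y : ℝ => |y|) (fun _ _ => abs_nonneg _) hy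
  have h2 := Nat.le_ceil ((∑ y ∈ S, |y|) / δ)
  rw [div_le_iff₀ hδ] at h2
  linarith

lemma tel_one {x0 δ : ℝ} (hx : 0 < x0) (hδ : 0 < δ) (M : ℕ) :
    ∑ m ∈ Icc 1 M, 1 / (x0 ^ 2 + ((m : ℝ) * δ) ^ 2) ≤ 2 / δ * (1 / x0 - 1 / (x0 + M * δ)) := by
  induction M with
  | zero => simp
  | succ M ih =>
    rw [Finset.sum_Icc_succ_top (by omega)]
    have hM : (0 : ℝ) ≤ M := Nat.cast_nonneg M
    have h1 : 1 / (x0 ^ 2 + (((M + 1 : ℕ) : ℝ) * δ) ^ 2) ≤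
        2 / δ * (1 / (x0 + M * δ) - 1 / (x0 + ((M + 1 : ℕ) : ℝ) * δ)) := by
      push_cast
      set A := x0 + M * δ with hA
      have hA0 : 0 < A := by positivity
      have e : x0 + (M + 1) * δ = A + δ := by rw [hA]; ring
      rw [e]
      have h2 : 2 / δ * (1 / A - 1 / (A + δ)) = 2 / (A * (A + δ)) := by
        field_simp
        ring
      rw [h2, div_le_div_iff₀ (by positivity) (by positivity)]
      have h3 : (A + δ) ^ 2 ≤ 2 * (x0 ^ 2 + ((M + 1) * δ) ^ 2) := by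
        rw [← e]
        nlinarith [sq_nonneg (x0 - (M + 1) * δ)]
      nlinarith
    have h4 : 2 / δ * (1 / x0 - 1 / (x0 + ((M + 1 : ℕ) : ℝ) * δ)) =
        2 / δ * (1 / x0 - 1 / (x0 + M * δ)) + 2 / δ * (1 / (x0 + M * δ) - 1 / (x0 + ((M + 1 : ℕ) : ℝ) * δ)) := by
      ring
    rw [h4]
    exact add_le_add ih h1

/-- sum of `1/(x0²+y²)` over a separated set -/
theorem sum_sq {δ x0 : ℝ} (hδ : 0 < δ) (hx : 0 < x0) (S : Finset ℝ) (hsep : SepS δ S) :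
    ∑ y ∈ S, 1 / (x0 ^ 2 + y ^ 2) ≤ 2 / x0 ^ 2 + 4 / (δ * x0) := by
  obtain ⟨M, hM⟩ := exists_M hδ S
  have h1 := both_sum hδ (fun u => 1 / (x0 ^ 2 + u ^ 2)) (fun u _ => by positivity)
    (fun u v hu huv => by gcongr) S hsep 0 M (fun y _ => by simp) hM
  simp only [sq_abs] at h1
  refine h1.trans ?_
  have h2 : ∑ m ∈ Icc 0 M, 1 / (x0 ^ 2 + ((m : ℝ) * δ) ^ 2) =
      1 / x0 ^ 2 + ∑ m ∈ Icc 1 M, 1 / (x0 ^ 2 + ((m : ℝ) * δ) ^ 2) := by
    rw [← Finset.add_sum_Ioc_eq_sum_Icc (Nat.zero_le M)]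
    congr 1
    simp
  rw [h2]
  have h3 := tel_one hx hδ M
  have h4 : 0 ≤ 1 / (x0 + M * δ) := by positivity
  have h5 : 2 / δ * (1 / x0 - 1 / (x0 + M * δ)) ≤ 2 / δ * (1 / x0) := by
    apply mul_le_mul_of_nonneg_left _ (by positivity)
    linarith
  have h6 : 2 / δ * (1 / x0) = 2 / (δ * x0) := by field_simp
  rw [h6] at h5
  have h7 : 2 / x0 ^ 2 + 4 / (δ * x0) = 2 * (1 / x0 ^ 2 + 2 / (δ * x0)) := by ring
  rw [h7]
  linarith

/-- sum of `r/(r²+y²)` over a separated set away from `0` -/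
theorem sum_F {δ r : ℝ} (hδ : 0 < δ) (hr : 0 < r) (S : Finset ℝ) (hsep : SepS δ S)
    (h0 : ∀ y ∈ S, δ ≤ |y|) : ∑ y ∈ S, r / (r ^ 2 + y ^ 2) ≤ 4 / δ := by
  obtain ⟨M, hM⟩ := exists_M hδ S
  have h1 := both_sum hδ (fun u => 1 / (r ^ 2 + u ^ 2)) (fun u _ => by positivity)
    (fun u v hu huv => by gcongr) S hsep 1 M (fun y hy => by simpa using h0 y hy) hM
  simp only [sq_abs] at h1
  have h3 := tel_one hr hδ M
  have h4 : 0 ≤ 1 / (r + M * δ) := by positivity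
  have h5 : 2 / δ * (1 / r - 1 / (r + M * δ)) ≤ 2 / δ * (1 / r) := by
    apply mul_le_mul_of_nonneg_left _ (by positivity)
    linarith
  have h6 : ∑ y ∈ S, r / (r ^ 2 + y ^ 2) = r * ∑ y ∈ S, 1 / (r ^ 2 + y ^ 2) := by
    rw [Finset.mul_sum]
    apply Finset.sum_congr rfl
    intro y _
    ring
  rw [h6]
  calc r * ∑ y ∈ S, 1 / (r ^ 2 + y ^ 2) ≤ r * (2 * (2 / δ * (1 / r))) := by
        gcongr
        linarith
    _ = 4 / δ := by field_simp; norm_num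

/-- sum of `r/(r²+y²)` over a separated set, `r ≥ δ` -/
theorem sum_F' {δ r : ℝ} (hδ : 0 < δ) (hr : δ ≤ r) (S : Finset ℝ) (hsep : SepS δ S) :
    ∑ y ∈ S, r / (r ^ 2 + y ^ 2) ≤ 6 / δ := by
  have hr0 : 0 < r := by linarith
  have h1 := sum_sq hδ hr0 S hsep
  have h6 : ∑ y ∈ S, r / (r ^ 2 + y ^ 2) = r * ∑ y ∈ S, 1 / (r ^ 2 + y ^ 2) := by
    rw [Finset.mul_sum]
    apply Finset.sum_congr rfl
    intro y _
    ring
  rw [h6]
  calc r * ∑ y ∈ S, 1 / (r ^ 2 + y ^ 2) ≤ r * (2 / r ^ 2 + 4 / (δ * r)) := by gcongr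
    _ = 2 / r + 4 / δ := by field_simp
    _ ≤ 2 / δ + 4 / δ := by gcongr
    _ = 6 / δ := by ring

/-- sum of `1/|x0 + iy|` over a separated set in `[-1, 1]` -/
theorem sum_abs {δ x0 : ℝ} (hδ : 0 < δ) (hδ1 : δ ≤ 1) (hx : δ ≤ x0) (S : Finset ℝ) (hsep : SepS δ S)
    (h1 : ∀ y ∈ S, |y| ≤ 2) :
    ∑ y ∈ S, 1 / √(x0 ^ 2 + y ^ 2) ≤ 4 / δ * (3 + Real.log (1 / δ)) := by
  have hx0 : 0 < x0 := by linarith
  set M := ⌊2 / δ⌋₊ with hMd
  have hM : ∀ y ∈ S, |y| < (M + 1) * δ := by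
    intro y hy
    have h2 := Nat.lt_floor_add_one (2 / δ)
    rw [div_lt_iff₀ hδ] at h2
    exact (h1 y hy).trans_lt h2
  have hM2 : (M : ℝ) ≤ 2 / δ := Nat.floor_le (by positivity)
  have h3 := both_sum hδ (fun u => 1 / √(x0 ^ 2 + u ^ 2)) (fun u _ => by positivity)
    (fun u v hu huv => by gcongr) S hsep 0 M (fun y _ => by simp) hM
  simp only [sq_abs] at h3
  have h4 : ∑ m ∈ Icc 0 M, 1 / √(x0 ^ 2 + ((m : ℝ) * δ) ^ 2) =
      1 / √(x0 ^ 2) + ∑ m ∈ Icc 1 M, 1 / √(x0 ^ 2 + ((m : ℝ) * δ) ^ 2) := by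
    rw [← Finset.add_sum_Ioc_eq_sum_Icc (Nat.zero_le M)]
    congr 1
    simp
  have h5 : ∑ m ∈ Icc 1 M, 1 / √(x0 ^ 2 + ((m : ℝ) * δ) ^ 2) ≤ 1 / δ * (1 + Real.log M) := by
    have h6 := harmonic_le_one_add_log M
    have h7 : ((harmonic M : ℚ) : ℝ) = ∑ m ∈ Icc 1 M, 1 / (m : ℝ) := by
      rw [harmonic_eq_sum_Icc]
      push_cast
      simp
    rw [h7] at h6
    refine le_trans ?_ (mul_le_mul_of_nonneg_left h6 (by positivity))
    rw [Finset.mul_sum]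
    apply Finset.sum_le_sum
    intro m hm
    rw [Finset.mem_Icc] at hm
    have hm1 : (1 : ℝ) ≤ m := by exact_mod_cast hm.1
    have h8 : (m : ℝ) * δ ≤ √(x0 ^ 2 + ((m : ℝ) * δ) ^ 2) := by
      apply Real.le_sqrt_of_sq_le
      nlinarith [sq_nonneg x0]
    calc 1 / √(x0 ^ 2 + ((m : ℝ) * δ) ^ 2) ≤ 1 / (m * δ) := by gcongr
      _ = 1 / δ * (1 / m) := by field_simp
  have h9 : Real.log M ≤ 1 + Real.log (1 / δ) := by
    rcases Nat.eq_zero_or_pos M with h | h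
    · rw [h, Nat.cast_zero, Real.log_zero]
      have : 0 ≤ Real.log (1 / δ) := Real.log_nonneg (by rw [le_div_iff₀ hδ]; linarith)
      linarith
    · have hM0 : (0 : ℝ) < M := by exact_mod_cast h
      have h10 : Real.log M ≤ Real.log (2 * (1 / δ)) := Real.log_le_log hM0 (by
        rw [mul_one_div]; exact hM2)
      rw [Real.log_mul (by norm_num) (by positivity)] at h10
      have := Real.log_two_lt_d9
      linarith
  rw [Real.sqrt_sq hx0.le] at h4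
  refine h3.trans ?_
  rw [h4]
  have h10 : 1 / x0 ≤ 1 / δ := by gcongr
  have h11 : 1 / δ * (1 + Real.log M) ≤ 1 / δ * (2 + Real.log (1 / δ)) :=
    mul_le_mul_of_nonneg_left (by linarith) (by positivity)
  have h12 : 0 ≤ Real.log (1 / δ) := Real.log_nonneg (by rw [le_div_iff₀ hδ]; linarith)
  have h13 : 0 ≤ 1 / δ * (3 + Real.log (1 / δ)) := by positivity
  have h14 : 4 / δ * (3 + Real.log (1 / δ)) = 4 * (1 / δ * (3 + Real.log (1 / δ))) := by ring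
  rw [h14]
  linarith

end Pool.Agent.Helper44K9.AL
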