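import Pool.Agent.Helper44K9.AL.Line
import Pool.Agent.Helper44K9.AL.Sep
import Pool.Agent.Helper44K9.AR.ZB
import Pool.Agent.Helper44K9.AR.Loc

/-! The contour integral of `ζ'/ζ` against the kernel. -/

set_option autoImplicit false

namespace Pool.Agent.Helper44K9.AL

open Complex Filter Topology Set MeasureTheory
open Pool.Agent.W120.WM (NT)
open Pool.Agent.W280.WM (z1_eq zeta_ne)
open Pool.Agent.Helper44K9.AR (Zf mem_Zf zeta_zero_NT rh_re hh ll)

/-- logarithmic derivative of `(z - 1) ζ(z)` -/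
noncomputable def LD (z : ℂ) : ℂ := deriv riemannZeta₁ z / riemannZeta₁ z

/-- residue at the second pole -/
noncomputable def kap (L : ℝ) : ℝ := Real.exp (1 + 1 / (2 * L ^ 2))

lemma diff_dz1 : Differentiable ℂ (deriv riemannZeta₁) := by
  have h := (differentiable_riemannZeta₁.differentiableOn (s := univ)).deriv isOpen_univ
  exact fun z => (h z (mem_univ z)).differentiableAt (isOpen_univ.mem_nhds (mem_univ z))

lemma z1_ne {z : ℂ} (h1 : z ≠ 1) (h0 : riemannZeta z ≠ 0) : riemannZeta₁ z ≠ 0 := by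
  rw [z1_eq z h1]
  exact mul_ne_zero (sub_ne_zero.2 h1) h0

lemma dz1 {z : ℂ} (h1 : z ≠ 1) : deriv riemannZeta₁ z = riemannZeta z + (z - 1) * deriv riemannZeta z := by
  have h3 : riemannZeta₁ =ᶠ[𝓝 z] fun s : ℂ => (s - 1) * riemannZeta s := by
    filter_upwards [isOpen_ne.mem_nhds h1] with s hs'
    exact z1_eq s hs'
  have h4 : HasDerivAt (fun s : ℂ => (s - 1) * riemannZeta s)
      (1 * riemannZeta z + (z - 1) * deriv riemannZeta z) z :=
    ((hasDerivAt_id z).sub_const 1).mul (differentiableAt_riemannZeta h1).hasDerivAt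
  rw [h3.deriv_eq, h4.deriv, one_mul]

lemma LD_eq {z : ℂ} (h1 : z ≠ 1) (h0 : riemannZeta z ≠ 0) :
    LD z = deriv riemannZeta z / riemannZeta z + 1 / (z - 1) := by
  unfold LD
  have h2 : z - 1 ≠ 0 := sub_ne_zero.2 h1
  rw [dz1 h1, z1_eq z h1]
  field_simp
  ring

lemma ne_one_im {z : ℂ} (h : 0 < z.im) : z ≠ 1 := by
  intro h1
  rw [h1] at h
  simp at h

/-- the residue formula -/
theorem res_ld {L c d : ℝ} (hL : 16 ≤ L) (hc : 0 < c) (hcd : c < d) {s : ℂ}
    (hs1 : 1 / 2 < s.re) (hs2 : s.re ≤ 5 / 4) (hs3 : c < s.im) (hs4 : s.im < d)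
    (hnz : ∀ z : ℂ, 1 / 2 < z.re → 0 < z.im → riemannZeta z ≠ 0)
    (h1 : ∀ σ ∈ Icc (-1 / 2 : ℝ) (3 / 2), riemannZeta (⟨σ, c⟩ : ℂ) ≠ 0)
    (h2 : ∀ σ ∈ Icc (-1 / 2 : ℝ) (3 / 2), riemannZeta (⟨σ, d⟩ : ℂ) ≠ 0)
    (hsim : ∀ ρ ∈ Zf c d, deriv riemannZeta ρ ≠ 0) :
    (∫ x in (-1 / 2 : ℝ)..(3 / 2), LD (⟨x, c⟩ : ℂ) * KK L (⟨x, c⟩ - s)) -
      (∫ x in (-1 / 2 : ℝ)..(3 / 2), LD (⟨x, d⟩ : ℂ) * KK L (⟨x, d⟩ - s)) +
      I * (∫ y in c..d, LD (⟨3 / 2, y⟩ : ℂ) * KK L (⟨3 / 2, y⟩ - s)) -
      I * (∫ y in c..d, LD (⟨-1 / 2, y⟩ : ℂ) * KK L (⟨-1 / 2, y⟩ - s)) =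
    2 * Real.pi * I * (LD s - kap L * LD (s + (1 / L : ℝ)) + ∑ ρ ∈ Zf c d, KK L (ρ - s)) := by
  classical
  have hL0 : 0 < L := by linarith
  have hLc : (L : ℂ) ≠ 0 := by exact_mod_cast hL0.ne'
  have hiL : 0 < 1 / L := by positivity
  have hiL16 : 1 / L ≤ 1 / 16 := by gcongr
  set s' : ℂ := s + (1 / L : ℝ) with hs'
  have hs're : s'.re = s.re + 1 / L := by simp [hs']
  have hs'im : s'.im = s.im := by simp [hs']
  have hs's : s' - s = ((1 / L : ℝ) : ℂ) := by rw [hs']; ring
  have hne : s ≠ s' := by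
    intro h
    have := congrArg Complex.re h
    rw [hs're] at this
    linarith
  set D : ℂ → ℂ := fun z => (z - s) * (1 - L * (z - s)) with hD
  have hDd : Differentiable ℂ D := by
    intro z
    simp only [hD]
    fun_prop
  have hD0 : ∀ z, D z = 0 ↔ z = s ∨ z = s' := by
    intro z
    simp only [hD]
    rw [mul_eq_zero, sub_eq_zero, sub_eq_zero]
    constructor
    · rintro (h | h)
      · exact Or.inl h
      · right
        rw [hs']
        push_cast
        field_simp
        linear_combination -h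
    · rintro (h | h)
      · exact Or.inl h
      · right
        rw [h, hs's]
        push_cast
        field_simp
  have hDs : ∀ z, HasDerivAt D (1 - 2 * L * (z - s)) z := by
    intro z
    have h3 : HasDerivAt D (1 * (1 - L * (z - s)) + (z - s) * (0 - L * 1)) z := by
      simp only [hD]
      exact ((hasDerivAt_id z).sub_const s).mul ((hasDerivAt_const z (1:ℂ)).sub
        (((hasDerivAt_id z).sub_const s).const_mul (L : ℂ)))
    convert h3 using 1
    ring
  set F : ℂ → ℂ := fun z => riemannZeta₁ z * D z with hF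
  set g : ℂ → ℂ := fun z => deriv riemannZeta₁ z * cexp ((z - s) ^ 2 / 2 + L * (z - s)) with hg
  have hFd : Differentiable ℂ F := differentiable_riemannZeta₁.mul hDd
  have hgd : Differentiable ℂ g := by
    apply diff_dz1.mul
    intro z
    fun_prop
  have hderF : ∀ z, deriv F z = deriv riemannZeta₁ z * D z + riemannZeta₁ z * (1 - 2 * L * (z - s)) := by
    intro z
    exact ((differentiable_riemannZeta₁ z).hasDerivAt.mul (hDs z)).deriv
  have hquot : ∀ z, g z / F z = LD z * KK L (z - s) := by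
    intro z
    simp only [hg, hF, LD, KK, hD]
    rw [mul_div_mul_comm]
  have hsnotZ : s ∉ Zf c d := by
    intro h
    obtain ⟨hρ1, hρ2, hρ3⟩ := (mem_Zf hc.le).1 h
    exact hnz s hs1 (hc.trans hs3) hρ1.1
  have hs'notZ : s' ∉ Zf c d := by
    intro h
    obtain ⟨hρ1, hρ2, hρ3⟩ := (mem_Zf hc.le).1 h
    exact hnz s' (by rw [hs're]; linarith) (by rw [hs'im]; linarith) hρ1.1
  have key := Pool.Agent.W565.WM.t_res F g (insert s (insert s' (Zf c d))) (-1 / 2) (3 / 2) c d (by norm_num) hcd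
    hFd hgd ?_ ?_
  · simp only [hquot] at key
    rw [key]
    congr 1
    rw [Finset.sum_insert (by
      rw [Finset.mem_insert, not_or]
      exact ⟨hne, hsnotZ⟩), Finset.sum_insert hs'notZ]
    have z1s : riemannZeta₁ s ≠ 0 := z1_ne (ne_one_im (hc.trans hs3)) (hnz s hs1 (hc.trans hs3))
    have z1s' : riemannZeta₁ s' ≠ 0 := z1_ne (ne_one_im (by rw [hs'im]; linarith))
      (hnz s' (by rw [hs're]; linarith) (by rw [hs'im]; linarith))
    have e1 : g s / deriv F s = LD s := by
      rw [hderF, (hD0 s).2 (Or.inl rfl), mul_zero, zero_add, sub_self, mul_zero, sub_zero, mul_one]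
      simp only [hg, sub_self]
      unfold LD
      simp
    have e2 : g s' / deriv F s' = -(kap L * LD s') := by
      have h5 : (1 - 2 * L * (s' - s) : ℂ) = -1 := by
        rw [hs's]
        push_cast
        field_simp
        norm_num
      rw [hderF, (hD0 s').2 (Or.inr rfl), mul_zero, zero_add, h5]
      simp only [hg]
      have h6 : cexp ((s' - s) ^ 2 / 2 + L * (s' - s)) = ((kap L : ℝ) : ℂ) := by
        rw [hs's]
        unfold kap
        rw [Complex.ofReal_exp]
        congr 1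
        push_cast
        field_simp
        ring
      rw [h6]
      unfold LD
      field_simp
    have e3 : ∑ ρ ∈ Zf c d, g ρ / deriv F ρ = ∑ ρ ∈ Zf c d, KK L (ρ - s) := by
      apply Finset.sum_congr rfl
      intro ρ hρ
      obtain ⟨hρ1, hρ2, hρ3⟩ := (mem_Zf hc.le).1 hρ
      have hρ1' : ρ ≠ 1 := ne_one_im (hc.trans hρ2)
      have h7 : riemannZeta₁ ρ = 0 := by rw [z1_eq ρ hρ1', hρ1.1, mul_zero]
      have h8 : deriv riemannZeta₁ ρ ≠ 0 := by
        rw [dz1 hρ1', hρ1.1, zero_add]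
        exact mul_ne_zero (sub_ne_zero.2 hρ1') (hsim ρ hρ)
      rw [hderF, h7, zero_mul, add_zero]
      simp only [hg, hD]
      unfold KK
      rw [mul_div_mul_left _ _ h8]
    rw [e1, e2, e3]
    ring
  · intro z hz
    rw [Complex.mem_reProdIm] at hz
    have him : 0 < z.im := hc.trans_le hz.2.1
    have hz1 := ne_one_im him
    simp only [hF]
    rw [mul_eq_zero, hD0, Finset.mem_insert, Finset.mem_insert, z1_eq z hz1, mul_eq_zero, mem_Zf hc.le]
    constructor
    · rintro ((h | h) | h)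
      · exact absurd (sub_eq_zero.1 h) hz1
      · right; right
        have hNT := zeta_zero_NT (by have := hz.1.1; linarith) h
        have he : (⟨z.re, z.im⟩ : ℂ) = z := by simp
        refine ⟨hNT, ?_, hz.2.2⟩
        rcases lt_or_eq_of_le hz.2.1 with h3 | h3
        · exact h3
        · exfalso
          apply h1 z.re hz.1
          rw [h3, he]; exact h
      · tauto
    · rintro (h | h | ⟨h3, -, -⟩)
      · right; left; exact h
      · right; right; exact h
      · left; right; exact h3.1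
  · intro ρ hρ
    rw [Finset.mem_insert, Finset.mem_insert] at hρ
    have hDne : ∀ z : ℂ, 1 / 2 < z.re → 0 < z.im → riemannZeta₁ z ≠ 0 := fun z a b => z1_ne (ne_one_im b) (hnz z a b)
    rcases hρ with rfl | rfl | hρ
    · refine ⟨?_, ?_⟩
      · rw [Complex.mem_reProdIm]
        exact ⟨⟨by linarith, by linarith⟩, hs3, hs4⟩
      · rw [hderF, (hD0 ρ).2 (Or.inl rfl), mul_zero, zero_add, sub_self, mul_zero, sub_zero, mul_one]
        exact hDne ρ hs1 (hc.trans hs3)
    · refine ⟨?_, ?_⟩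
      · rw [Complex.mem_reProdIm]
        exact ⟨⟨by rw [hs're]; linarith, by rw [hs're]; linarith⟩, by rw [hs'im]; exact hs3, by rw [hs'im]; exact hs4⟩
      · have h5 : (1 - 2 * L * (s' - s) : ℂ) = -1 := by
          rw [hs's]
          push_cast
          field_simp
          norm_num
        rw [hderF, (hD0 s').2 (Or.inr rfl), mul_zero, zero_add, h5]
        exact mul_ne_zero (hDne s' (by rw [hs're]; linarith) (by rw [hs'im]; linarith)) (by norm_num)
    · obtain ⟨hρ1, hρ2, hρ3⟩ := (mem_Zf hc.le).1 hρ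
      have hρ1' : ρ ≠ 1 := ne_one_im (hc.trans hρ2)
      refine ⟨?_, ?_⟩
      · rw [Complex.mem_reProdIm]
        refine ⟨⟨by linarith [hρ1.2.1], by linarith [hρ1.2.2]⟩, hρ2, ?_⟩
        rcases lt_or_eq_of_le hρ3 with h3 | h3
        · exact h3
        · exfalso
          apply h2 ρ.re ⟨by linarith [hρ1.2.1], by linarith [hρ1.2.2]⟩
          have he : (⟨ρ.re, ρ.im⟩ : ℂ) = ρ := by simp
          rw [← h3, he]; exact hρ1.1
      · have h7 : riemannZeta₁ ρ = 0 := by rw [z1_eq ρ hρ1', hρ1.1, mul_zero]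
        have h8 : deriv riemannZeta₁ ρ ≠ 0 := by
          rw [dz1 hρ1', hρ1.1, zero_add]
          exact mul_ne_zero (sub_ne_zero.2 hρ1') (hsim ρ hρ)
        rw [hderF, h7, zero_mul, add_zero]
        apply mul_ne_zero h8
        intro h
        rcases (hD0 ρ).1 h with h | h
        · exact hsnotZ (h ▸ hρ)
        · exact hs'notZ (h ▸ hρ)

end Pool.Agent.Helper44K9.AL
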