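import Pool.Agent.Helper44K9.AL.Comb2
import Pool.Agent.Helper44K9.AR.Tr

/-! From spacings to coherent windows: logarithmic rate. -/

set_option autoImplicit false

namespace Pool.Agent.Helper44K9.AL

open Complex Filter Topology Set MeasureTheory
open SG (ord NZ zmult)
open Pool.Agent.Helper44K9.AR (hh ll log_ge_one ev_log ph ll_le dc Far dc_gap ph_step ord_fin)

/-- a window without bad spacings is coherent -/
theorem coh_of_near2 {c : ℝ} (hc : 0 < c) (A : ℕ) :
    ∃ X0 : ℝ, 3 ≤ X0 ∧ ∀ X : ℝ, X0 ≤ X → ∀ T ∈ Icc X (2 * X),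
      (∀ n : ℕ, 1 ≤ n → |ord n - T| ≤ ll X → ¬ Far c (1 / Real.log X ^ (A + 6)) n) →
      CohE c (1 / Real.log X ^ A) (1 / 2) X T := by
  obtain ⟨X2, hX2, h2⟩ := ll_le
  obtain ⟨X3, hX3, h3⟩ := ev_log (3 + |Real.log c|)
  obtain ⟨X4, hX4, h4⟩ := ev_log 64
  refine ⟨max X2 (max X3 X4), by simp [hX2], fun X hX T hT hbad => ?_⟩
  simp only [max_le_iff] at hX
  obtain ⟨hXb, hXc, hXd⟩ := hX
  have hX3' : 3 ≤ X := hX2.trans hXb
  have hX0 : 0 < X := by linarith
  have h2 := h2 X hXb
  have h3 := h3 X hXc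
  have h4 := h4 X hXd
  have hl1 := log_ge_one hX3'
  set l := Real.log X with hl
  have hlp : 0 < l := by linarith
  have hllX : ll X = l ^ 4 := rfl
  have hpi := Real.pi_pos
  set η := 1 / l ^ (A + 6) with hη
  have hη0 : 0 < η := by positivity
  have hsmall : η ≤ 1 / 4 := by
    rw [hη]
    have h5 : l ^ 1 ≤ l ^ (A + 6) := pow_le_pow_right₀ hl1 (by omega)
    rw [pow_one] at h5
    apply one_div_le_one_div_of_le (by norm_num)
    linarith
  -- the gaps
  have hgap : ∀ n : ℕ, 1 ≤ n → |ord n - T| ≤ ll X → |ord (n + 1) - T| ≤ ll X →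
      1 / 2 / l ≤ ord (n + 1) - ord n := by
    intro n hn h5 h6
    have h7 := hbad n hn h5
    unfold Far at h7
    push Not at h7
    obtain ⟨k, hk1, hk2⟩ := h7
    have hk1' : (1 : ℝ) ≤ k := by exact_mod_cast hk1
    have h8 : 1 / 4 ≤ dc c n := by
      have := (abs_lt.1 hk2).1
      linarith
    have h9 := dc_gap hc hn
    have hmono := SG.ord_mono hn (Nat.le_succ n)
    have hb := SG.ord_pos (show 1 ≤ n + 1 by omega)
    have h10 : Real.log (ord (n + 1)) - Real.log c + 1 ≤ 2 * l := by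
      have h11 : ord (n + 1) ≤ 3 * X := by
        have := (abs_le.1 h6).2
        linarith [hT.2]
      have h12 : Real.log (ord (n + 1)) ≤ Real.log 3 + l := by
        rw [hl, ← Real.log_mul (by norm_num) hX0.ne']
        exact Real.log_le_log hb h11
      have h13 : Real.log 3 ≤ 2 := by
        rw [Real.log_le_iff_le_exp (by norm_num)]
        have := Real.add_one_le_exp (2 : ℝ)
        linarith
      have h14 := neg_abs_le (Real.log c)
      linarith
    have h15 : (ord (n + 1) - ord n) * (Real.log (ord (n + 1)) - Real.log c + 1) ≤ (ord (n + 1) - ord n) * (2 * l) := by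
      apply mul_le_mul_of_nonneg_left h10
      simpa using hmono
    rw [div_div, div_le_iff₀ (by positivity)]
    nlinarith [Real.pi_gt_three]
  have hwin : ∀ t : ℝ, |t - T| ≤ ll X → 0 < t := by
    intro t ht
    have := (abs_le.1 ht).1
    linarith [hT.1]
  have hbetween : ∀ a t b : ℝ, |a - T| ≤ ll X → |b - T| ≤ ll X → a ≤ t → t ≤ b → |t - T| ≤ ll X := by
    intro a t b ha hb h5 h6
    rw [abs_le] at *
    constructor <;> linarith [ha.1, hb.2]
  refine ⟨?_, ?_, ?_⟩
  · -- simple zeros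
    intro ρ h0 hre hw hder
    have him := hwin _ hw
    have h5 := SG.zmult_two him h0 hder
    obtain ⟨n, hn, h6, h7⟩ := SG.consecutive_of_jump him (by
      intro t ht
      have := SG.jump_one h0 (by rw [hre]; norm_num) (by rw [hre]; norm_num) him t ht
      omega)
    have hmono := SG.ord_mono hn (Nat.le_succ n)
    have hmono' : ord n ≤ ord (n + 1) := by simpa using hmono
    have e1 : ord n = ρ.im := le_antisymm (hmono'.trans h7) h6
    have e2 : ord (n + 1) = ρ.im := le_antisymm h7 (h6.trans hmono')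
    have := hgap n hn (by rw [e1]; exact hw) (by rw [e2]; exact hw)
    rw [e1, e2, sub_self] at this
    have : 0 < 1 / 2 / l := by positivity
    linarith
  · -- separation
    have key : ∀ ρ ρ' : ℂ, riemannZeta ρ = 0 → ρ.re = 1 / 2 → |ρ.im - T| ≤ ll X → riemannZeta ρ' = 0 →
        ρ'.re = 1 / 2 → |ρ'.im - T| ≤ ll X → ρ.im < ρ'.im → 1 / 2 / l ≤ ρ'.im - ρ.im := by
      intro ρ ρ' a1 a2 a3 b1 b2 b3 hlt
      obtain ⟨n, hn, h6, h7⟩ := SG.consecutive_of_lt a1 (by rw [a2]; norm_num) (by rw [a2]; norm_num)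
        (hwin _ a3) b1 (by rw [b2]; norm_num) (by rw [b2]; norm_num) hlt
      have hmono := SG.ord_mono hn (Nat.le_succ n)
      have hmono' : ord n ≤ ord (n + 1) := by simpa using hmono
      have := hgap n hn (hbetween _ _ _ a3 b3 h6 (hmono'.trans h7)) (hbetween _ _ _ a3 b3 (h6.trans hmono') h7)
      linarith
    intro ρ ρ' a1 a2 a3 b1 b2 b3 hne
    have himne : ρ.im ≠ ρ'.im := fun h => hne (Complex.ext (by rw [a2, b2]) h)
    rcases lt_or_gt_of_ne himne with h | h
    · have := key ρ ρ' a1 a2 a3 b1 b2 b3 h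
      rw [abs_sub_comm]
      exact this.trans (le_abs_self _)
    · have := key ρ' ρ b1 b2 b3 a1 a2 a3 h
      exact this.trans (le_abs_self _)
  · -- the phases
    have hord : ∀ ρ : ℂ, riemannZeta ρ = 0 → ρ.re = 1 / 2 → |ρ.im - T| ≤ ll X →
        ∃ n : ℕ, 1 ≤ n ∧ ord n = ρ.im := by
      intro ρ a1 a2 a3
      have him := hwin _ a3
      have hρ : ρ = 1 / 2 + I * (ρ.im : ℂ) := by
        apply Complex.ext
        · simp [a2]
        · simp
      have h0 : riemannZeta (1 / 2 + I * (ρ.im : ℂ)) = 0 := by rw [← hρ]; exact a1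
      have hm1 := SG.zmult_pos (s := 1 / 2 + I * (ρ.im : ℂ)) (by rw [← hρ]; exact him) h0
      have hm2 := LG.CU.mult_le_NZ him h0
      exact ⟨NZ ρ.im, by omega, LG.CU.ord_eq_of him h0 (by omega) le_rfl (by omega)⟩
    -- chains
    have hchain : ∀ m n : ℕ, 1 ≤ n → |ord n - T| ≤ ll X → |ord (n + m) - T| ≤ ll X →
        (m : ℝ) * (1 / 2 / l) ≤ ord (n + m) - ord n ∧
        ‖ph c (ord (n + m)) - ph c (ord n)‖ ≤ 4 * Real.pi * η * m := by
      intro m
      induction m with
      | zero => intro n _ _ _; simp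
      | succ m ih =>
        intro n hn h5 h6
        have m1 := SG.ord_mono hn (show n ≤ n + m by omega)
        have m2 := SG.ord_mono (show 1 ≤ n + m by omega) (show n + m ≤ n + m + 1 by omega)
        rw [← add_assoc] at h6 ⊢
        have h7 : |ord (n + m) - T| ≤ ll X := hbetween _ _ _ h5 h6 m1 m2
        obtain ⟨h8, h9⟩ := ih n hn h5 h7
        have h10 := hgap (n + m) (by omega) h7 h6
        have h11 := hbad (n + m) (by omega) h7
        unfold Far at h11
        push Not at h11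
        obtain ⟨k, hk1, hk2⟩ := h11
        have h12 := ph_step hc (show 1 ≤ n + m by omega) hk2.le
        constructor
        · push_cast
          linarith
        · calc ‖ph c (ord (n + m + 1)) - ph c (ord n)‖ =
              ‖(ph c (ord (n + m + 1)) - ph c (ord (n + m))) + (ph c (ord (n + m)) - ph c (ord n))‖ := by
                congr 1; ring
            _ ≤ 4 * Real.pi * η + 4 * Real.pi * η * m := (norm_add_le _ _).trans (add_le_add h12 h9)
            _ = _ := by push_cast; ring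
    have hfin : ∀ n m : ℕ, 1 ≤ n → n ≤ m → |ord n - T| ≤ ll X → |ord m - T| ≤ ll X →
        ‖ph c (ord m) - ph c (ord n)‖ ≤ 1 / l ^ A := by
      intro n m hn hnm h5 h6
      obtain ⟨j, rfl⟩ := Nat.exists_eq_add_of_le hnm
      obtain ⟨h7, h8⟩ := hchain j n hn h5 h6
      have h9 : ord (n + j) - ord n ≤ 2 * ll X := by
        have := (abs_le.1 h5).1
        have := (abs_le.1 h6).2
        linarith
      have h10 : (j : ℝ) ≤ 4 * l ^ 5 := by
        have := h7.trans h9
        rw [div_div, mul_one_div, div_le_iff₀ (by positivity), hllX] at this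
        nlinarith
      refine h8.trans ?_
      calc 4 * Real.pi * η * j ≤ 4 * Real.pi * η * (4 * l ^ 5) := by gcongr
        _ = (16 * Real.pi / l) * (1 / l ^ A) := by
            rw [hη, pow_add]
            field_simp
            ring
        _ ≤ 1 * (1 / l ^ A) := by
            gcongr
            rw [div_le_one hlp]
            linarith [Real.pi_lt_four]
        _ = _ := one_mul _
    by_cases hex : ∃ ρ : ℂ, riemannZeta ρ = 0 ∧ ρ.re = 1 / 2 ∧ |ρ.im - T| ≤ ll X
    · obtain ⟨ρ, a1, a2, a3⟩ := hex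
      obtain ⟨n, hn, en⟩ := hord ρ a1 a2 a3
      refine ⟨ph c ρ.im, ?_, fun ρ' b1 b2 b3 => ?_⟩
      · unfold ph
        have : (2 * I * (ρ.im * (Real.log ρ.im - Real.log c)) : ℂ) =
            ((2 * (ρ.im * (Real.log ρ.im - Real.log c)) : ℝ) : ℂ) * I := by push_cast; ring
        rw [this, Complex.norm_exp_ofReal_mul_I]
      · obtain ⟨m, hm, em⟩ := hord ρ' b1 b2 b3
        rw [← en, ← em]
        rw [← en] at a3
        rw [← em] at b3
        rcases le_total n m with h | h
        · exact hfin n m hn h a3 b3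
        · rw [norm_sub_rev]
          exact hfin m n hm h b3 a3
    · push Not at hex
      exact ⟨1, by simp, fun ρ' b1 b2 b3 => absurd b3 (not_le.2 (hex ρ' b1 b2))⟩


/-- almost all windows contain a bad spacing -/
theorem windows2 : ∃ A : ℕ, RiemannHypothesis → ∀ c : ℝ, 0 < c → ∀ ε : ℝ, 0 < ε →
    ∃ X0 : ℝ, 3 ≤ X0 ∧ ∀ X : ℝ, X0 ≤ X →
      volume.real {T : ℝ | T ∈ Icc X (2 * X) ∧ ∀ n : ℕ, 1 ≤ n → |ord n - T| ≤ ll X →
        ¬ Far c (1 / Real.log X ^ A) n} ≤ ε * X := by
  by_cases RH : RiemannHypothesis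
  swap
  · exact ⟨0, fun h => absurd h RH⟩
  obtain ⟨A, hA⟩ := coh_rare2 RH (c1 := 1 / 2) (by norm_num) (by norm_num)
  refine ⟨A + 6, fun _ c hc ε hε => ?_⟩
  obtain ⟨X1, hX1, h1⟩ := coh_of_near2 hc A
  obtain ⟨X2, hX2, h2⟩ := hA c hc ε hε
  refine ⟨max X1 X2, hX1.trans (le_max_left _ _), fun X hX => ?_⟩
  have hXa := (le_max_left _ _).trans hX
  have hXb := (le_max_right _ _).trans hX
  set η := 1 / Real.log X ^ (A + 6) with hη
  set B : Set ℕ := {n : ℕ | (1 ≤ n ∧ ord n ≤ 2 * X + ll X) ∧ Far c η n} with hB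
  have hBf : B.Finite := (ord_fin (2 * X + ll X)).subset (fun n hn => hn.1)
  set G : Set ℝ := {T : ℝ | T ∈ Icc X (2 * X) ∧ ∀ n : ℕ, 1 ≤ n → |ord n - T| ≤ ll X → ¬ Far c η n} with hG
  have hGe : G = Icc X (2 * X) \ ⋃ n ∈ B, Icc (ord n - ll X) (ord n + ll X) := by
    ext T
    simp only [hG, hB, Set.mem_ofPred_eq, Set.mem_sdiff, Set.mem_iUnion, not_exists]
    constructor
    · rintro ⟨h3, h4⟩
      refine ⟨h3, fun n hn h5 => ?_⟩
      exact h4 n hn.1.1 (abs_le.2 ⟨by linarith [h5.2], by linarith [h5.1]⟩) hn.2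
    · rintro ⟨h3, h4⟩
      refine ⟨h3, fun n hn h5 h6 => ?_⟩
      have h7 := abs_le.1 h5
      exact h4 n ⟨⟨hn, by linarith [h3.2, h7.2]⟩, h6⟩ ⟨by linarith [h7.2], by linarith [h7.1]⟩
  have hGm : MeasurableSet G := by
    rw [hGe]
    exact measurableSet_Icc.diff (hBf.measurableSet_biUnion fun _ _ => measurableSet_Icc)
  exact h2 X hXb G hGm (fun T hT => hT.1) (fun T hT => h1 X hXa T hT.1 hT.2)

end Pool.Agent.Helper44K9.AL
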