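import Pool.Agent.Helper44K9.AL.LogZ

/-! Lower bound for `|ζ'(ρ)|` in terms of a prime polynomial near `ρ`. -/

set_option autoImplicit false

namespace Pool.Agent.Helper44K9.AL

open Complex Filter Topology Set MeasureTheory
open Pool.Agent.Helper44K9.AR (Zf mem_Zf rh_re hh ll log_ge_one tiny hh_small)

/-- a slightly larger nice neighbourhood -/
def NiceG (c1 X t : ℝ) : Prop :=
  (∀ ρ : ℂ, riemannZeta ρ = 0 → ρ.re = 1 / 2 → |ρ.im - t| ≤ hh X + 3 → deriv riemannZeta ρ ≠ 0) ∧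
  (∀ ρ ρ' : ℂ, riemannZeta ρ = 0 → ρ.re = 1 / 2 → |ρ.im - t| ≤ hh X + 3 → riemannZeta ρ' = 0 → ρ'.re = 1 / 2 →
    |ρ'.im - t| ≤ hh X + 3 → ρ ≠ ρ' → c1 / Real.log X ≤ |ρ.im - ρ'.im|)

lemma NiceG.nice {c1 X γ t : ℝ} (h : NiceG c1 X γ) (ht : |t - γ| ≤ 1) : Nice c1 X t := by
  have hb : ∀ u : ℝ, |u - t| ≤ hh X + 2 → |u - γ| ≤ hh X + 3 := by
    intro u hu
    have := abs_sub_le u t γ
    linarith
  exact ⟨fun ρ a1 a2 a3 => h.1 ρ a1 a2 (hb _ a3), fun ρ ρ' a1 a2 a3 b1 b2 b3 hne =>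
    h.2 ρ ρ' a1 a2 (hb _ a3) b1 b2 (hb _ b3) hne⟩

theorem zp_low (RH : RiemannHypothesis) {c1 : ℝ} (hc1 : 0 < c1) (hc1' : c1 ≤ 1) :
    ∃ C X0 : ℝ, 0 < C ∧ 3 ≤ X0 ∧ ∀ X : ℝ, X0 ≤ X → ∀ γ : ℝ, X / 2 ≤ γ → γ ≤ 3 * X → NiceG c1 X γ →
    riemannZeta (⟨1 / 2, γ⟩ : ℂ) = 0 → ∀ t : ℝ, |t - γ| ≤ 1 / Real.log X → ∀ L : ℝ, 32 ≤ L → L ≤ Real.log X →
    -Real.log ‖deriv riemannZeta (⟨1 / 2, γ⟩ : ℂ)‖ ≤
      ‖QQ L t‖ + C * (1 + Real.log (Real.log X) + Real.log X / L) := by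
  obtain ⟨C1, X1, hC1, hX1, hlow⟩ := log_low RH hc1 hc1'
  obtain ⟨C2, X2, hC2, hX2, hld⟩ := ld_bounds RH hc1 hc1'
  refine ⟨C1 + 2 * C2, max (max X1 X2) 100, by positivity, le_trans (by norm_num) (le_max_right _ _),
    fun X hX γ hγ1 hγ2 hG h0 t ht L hL hLX => ?_⟩
  simp only [max_le_iff] at hX
  obtain ⟨⟨hXa, hXb⟩, hXc⟩ := hX
  have hX3 : 3 ≤ X := hX1.trans hXa
  set l := Real.log X with hl
  have hl32 : 32 ≤ l := hL.trans hLX
  have hli : 1 / l ≤ 1 / 32 := by gcongr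
  have hL0 : 0 < L := by linarith
  set a := 1 / L with ha
  have ha0 : 0 < a := by positivity
  have ha32 : a ≤ 1 / 32 := by rw [ha]; gcongr
  have hlla : 0 ≤ Real.log l := Real.log_nonneg (by linarith)
  have hca : c1 / l ≤ a := by
    rw [ha]
    calc c1 / l ≤ 1 / l := by gcongr
      _ ≤ 1 / L := by gcongr
  have ht1 := abs_le.1 ht
  have hγ0 : 0 < γ := by linarith
  have ht0 : 0 < t := by linarith [ht1.1]
  have hN : Nice c1 X γ := hG.nice (by simp)
  have hNt : Nice c1 X t := hG.nice (by linarith)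
  have h1 := hlow X hXa t (by linarith [ht1.1]) (by linarith [ht1.2]) hNt L hL hLX
  -- vertical movement
  have hne : ∀ σ v : ℝ, 1 / 2 < σ → 0 < v → riemannZeta (⟨σ, v⟩ : ℂ) ≠ 0 := fun σ v hσ hv =>
    rh_nz RH ⟨σ, v⟩ hσ hv
  set K := C2 * l * (1 + Real.log l) with hK
  have hvert : ‖riemannZeta (⟨1 / 2 + a, t⟩ : ℂ)‖ ≤
      Real.exp (K * ‖(⟨1 / 2 + a, t⟩ : ℂ) - ⟨1 / 2 + a, γ⟩‖) * ‖riemannZeta (⟨1 / 2 + a, γ⟩ : ℂ)‖ := by
    set S : Set ℂ := {z : ℂ | z.re = 1 / 2 + a ∧ |z.im - γ| ≤ 1 / 16} with hS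
    have hconv : Convex ℝ S := by
      have e : S = Complex.reLm ⁻¹' {1 / 2 + a} ∩ Complex.imLm ⁻¹' (Icc (γ - 1 / 16) (γ + 1 / 16)) := by
        ext z
        simp only [hS, Set.mem_ofPred_eq, Set.mem_inter_iff, Set.mem_preimage, Set.mem_singleton_iff,
          Complex.reLm_coe, Complex.imLm_coe, Set.mem_Icc, abs_le]
        constructor
        · rintro ⟨h1, h2, h3⟩
          exact ⟨h1, by linarith, by linarith⟩
        · rintro ⟨h1, h2, h3⟩
          exact ⟨h1, by linarith, by linarith⟩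
      rw [e]
      exact ((convex_singleton _).linear_preimage _).inter ((convex_Icc _ _).linear_preimage _)
    have hSim : ∀ w ∈ S, 0 < w.im := by
      intro w hw
      have := (abs_le.1 hw.2).1
      linarith
    have hmk : ∀ w ∈ S, (⟨1 / 2 + a, w.im⟩ : ℂ) = w := by
      intro w hw
      apply Complex.ext
      · exact hw.1.symm
      · rfl
    rw [mul_comm]
    refine Pool.Agent.H156R2.DZArc.growth (S := S) hconv (Q := riemannZeta) (K := K) (fun w hw =>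
      differentiableAt_riemannZeta (ne_one_im (hSim w hw))) (fun w hw => ?_) ?_ ?_
    · obtain ⟨-, h2, -⟩ := hld X hXb γ (by linarith) (by linarith) hN a w.im ha0 (by linarith) hw.2
      have h3 := h2 hca
      rw [hmk w hw, logDeriv_apply, norm_div] at h3
      have h4 : riemannZeta w ≠ 0 := by
        rw [← hmk w hw]; exact hne _ _ (by linarith) (hSim w hw)
      rwa [div_le_iff₀ (norm_pos_iff.2 h4)] at h3
    · exact ⟨rfl, by simp⟩
    · exact ⟨rfl, (ht.trans (by linarith) : |t - γ| ≤ 1 / 16)⟩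
  have hdist : ‖(⟨1 / 2 + a, t⟩ : ℂ) - ⟨1 / 2 + a, γ⟩‖ ≤ 1 / l := by
    have e : (⟨1 / 2 + a, t⟩ : ℂ) - ⟨1 / 2 + a, γ⟩ = ((t - γ : ℝ) : ℂ) * I := by
      apply Complex.ext <;> simp
    rw [e, norm_mul, Complex.norm_I, mul_one, Complex.norm_real, Real.norm_eq_abs]
    exact ht
  have hpt : 0 < ‖riemannZeta (⟨1 / 2 + a, t⟩ : ℂ)‖ := norm_pos_iff.2 (hne _ _ (by linarith) ht0)
  have hpγ : 0 < ‖riemannZeta (⟨1 / 2 + a, γ⟩ : ℂ)‖ := norm_pos_iff.2 (hne _ _ (by linarith) hγ0)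
  have h2 : FF t (1 / 2 + a) ≤ C2 * (1 + Real.log l) + FF γ (1 / 2 + a) := by
    unfold FF
    have h3 := Real.log_le_log hpt hvert
    rw [Real.log_mul (Real.exp_pos _).ne' hpγ.ne', Real.log_exp] at h3
    have h4 : K * ‖(⟨1 / 2 + a, t⟩ : ℂ) - ⟨1 / 2 + a, γ⟩‖ ≤ K * (1 / l) := by gcongr
    have h5 : K * (1 / l) = C2 * (1 + Real.log l) := by rw [hK]; field_simp
    linarith
  -- descent
  have hdesc : ∀ ε : ℝ, 0 < ε → ε ≤ a → FF γ (1 / 2 + a) - Real.log (a / ε) - C2 * (l / L) ≤ FF γ (1 / 2 + ε) := by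
    intro ε hε hεa
    obtain ⟨i3, e3⟩ := FF_int RH (t := γ) (a := 1 / 2 + ε) (b := 1 / 2 + a) hγ0 (by linarith) (by linarith)
    have h3 : ∫ x in (1 / 2 + ε)..(1 / 2 + a), (logDeriv riemannZeta (⟨x, γ⟩ : ℂ)).re ≤
        ∫ x in (1 / 2 + ε)..(1 / 2 + a), (1 / (x - 1 / 2) + C2 * l) := by
      apply intervalIntegral.integral_mono_on (by linarith)
      · apply ContinuousOn.intervalIntegrable
        intro x hx
        rw [uIcc_of_le (by linarith)] at hx
        exact (Complex.continuous_re.continuousAt.comp (ld_cont RH hγ0 (by linarith [hx.1]))).continuousWithinAt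
      · apply ContinuousOn.intervalIntegrable
        intro x hx
        rw [uIcc_of_le (by linarith)] at hx
        apply ContinuousAt.continuousWithinAt
        apply ContinuousAt.add _ continuousAt_const
        apply ContinuousAt.div continuousAt_const (by fun_prop)
        linarith [hx.1]
      · intro x hx
        obtain ⟨-, -, h4⟩ := hld X hXb γ (by linarith) (by linarith) hN (x - 1 / 2) γ (by linarith [hx.1])
          (by linarith [hx.2]) (by simp)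
        have h5 : 1 / 2 + (x - 1 / 2) = x := by ring
        rw [h5] at h4
        exact h4 h0
    have h4 : ∫ x in (1 / 2 + ε)..(1 / 2 + a), (1 / (x - 1 / 2) + C2 * l) =
        Real.log (a / ε) + C2 * l * (a - ε) := by
      have hd : ∀ x ∈ uIcc (1 / 2 + ε) (1 / 2 + a), HasDerivAt (fun x : ℝ => Real.log (x - 1 / 2) + C2 * l * x)
          (1 / (x - 1 / 2) + C2 * l) x := by
        intro x hx
        rw [uIcc_of_le (by linarith)] at hx
        have h5 : HasDerivAt (fun x : ℝ => Real.log (x - 1 / 2)) (1 / (x - 1 / 2)) x :=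
          ((hasDerivAt_id x).sub_const (1 / 2)).log (by simp only [id]; linarith [hx.1])
        have h6 : HasDerivAt (fun x : ℝ => C2 * l * x) (C2 * l * 1) x := (hasDerivAt_id x).const_mul _
        rw [mul_one] at h6
        exact h5.add h6
      rw [intervalIntegral.integral_eq_sub_of_hasDerivAt hd]
      · rw [Real.log_div ha0.ne' hε.ne']
        ring_nf
      · apply ContinuousOn.intervalIntegrable
        intro x hx
        rw [uIcc_of_le (by linarith)] at hx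
        apply ContinuousAt.continuousWithinAt
        apply ContinuousAt.add _ continuousAt_const
        apply ContinuousAt.div continuousAt_const (by fun_prop)
        linarith [hx.1]
    rw [e3, h4] at h3
    have h5 : C2 * l * (a - ε) ≤ C2 * (l / L) := by
      calc C2 * l * (a - ε) ≤ C2 * l * a := by
            gcongr
            linarith
        _ = C2 * (l / L) := by rw [ha]; ring
    linarith
  have hlim : ‖riemannZeta (⟨1 / 2 + a, γ⟩ : ℂ)‖ * Real.exp (-(C2 * (l / L))) ≤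
      ‖deriv riemannZeta (⟨1 / 2, γ⟩ : ℂ)‖ := by
    have h3 : HasDerivAt (fun x : ℝ => riemannZeta (⟨1 / 2 + x, γ⟩ : ℂ)) (deriv riemannZeta (⟨1 / 2, γ⟩ : ℂ)) 0 := by
      have h4 : HasDerivAt riemannZeta (deriv riemannZeta (⟨1 / 2, γ⟩ : ℂ)) (((1 / 2 : ℝ) : ℂ) + ((0 : ℝ) : ℂ) + γ * I) := by
        have : (((1 / 2 : ℝ) : ℂ) + ((0 : ℝ) : ℂ) + γ * I) = (⟨1 / 2, γ⟩ : ℂ) := by
          rw [mkc]; push_cast; ring
        rw [this]
        exact (differentiableAt_riemannZeta (ne_one_im hγ0)).hasDerivAt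
      have h5 : HasDerivAt (fun x : ℝ => ((1 / 2 : ℝ) : ℂ) + (x : ℂ) + γ * I) 1 0 := by
        have := ((Complex.ofRealCLM.hasDerivAt (x := (0:ℝ))).const_add ((1 / 2 : ℝ) : ℂ)).add_const ((γ : ℂ) * I)
        simpa using this
      have h6 := h4.comp (0:ℝ) h5
      rw [mul_one] at h6
      have e : (riemannZeta ∘ fun x : ℝ => ((1 / 2 : ℝ) : ℂ) + (x : ℂ) + γ * I) =
          fun x : ℝ => riemannZeta (⟨1 / 2 + x, γ⟩ : ℂ) := by
        funext x
        simp only [Function.comp]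
        rw [mkc]
        push_cast
        rfl
      rwa [e] at h6
    have h4 := h3.tendsto_slope_zero_right.norm
    simp only [zero_add, add_zero, h0, sub_zero] at h4
    apply ge_of_tendsto h4
    have hev : ∀ᶠ ε : ℝ in 𝓝[>] 0, ε ∈ Ioc (0:ℝ) a := Ioc_mem_nhdsGT ha0
    filter_upwards [hev] with ε hε
    have h5 := hdesc ε hε.1 hε.2
    have hpε : 0 < ‖riemannZeta (⟨1 / 2 + ε, γ⟩ : ℂ)‖ := norm_pos_iff.2 (hne _ _ (by linarith [hε.1]) hγ0)
    unfold FF at h5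
    rw [← Real.exp_le_exp, Real.exp_log hpε] at h5
    have h6 : Real.exp (Real.log ‖riemannZeta (⟨1 / 2 + a, γ⟩ : ℂ)‖ - Real.log (a / ε) - C2 * (l / L)) =
        ‖riemannZeta (⟨1 / 2 + a, γ⟩ : ℂ)‖ * (ε / a) * Real.exp (-(C2 * (l / L))) := by
      rw [sub_eq_add_neg, Real.exp_add, Real.exp_sub, Real.exp_log hpγ, Real.exp_log (div_pos ha0 hε.1)]
      have := hε.1
      field_simp
    rw [h6] at h5
    rw [norm_smul, norm_inv, Real.norm_of_nonneg hε.1.le, inv_mul_eq_div, le_div_iff₀ hε.1]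
    refine le_trans ?_ h5
    have h7 : ε ≤ ε / a := by
      rw [le_div_iff₀ ha0]
      nlinarith [hε.1]
    calc ‖riemannZeta (⟨1 / 2 + a, γ⟩ : ℂ)‖ * Real.exp (-(C2 * (l / L))) * ε ≤
        ‖riemannZeta (⟨1 / 2 + a, γ⟩ : ℂ)‖ * Real.exp (-(C2 * (l / L))) * (ε / a) := by gcongr
      _ = _ := by ring
  have h7 : FF γ (1 / 2 + a) - C2 * (l / L) ≤ Real.log ‖deriv riemannZeta (⟨1 / 2, γ⟩ : ℂ)‖ := by
    have h8 := Real.log_le_log (by positivity) hlim
    rw [Real.log_mul hpγ.ne' (Real.exp_pos _).ne', Real.log_exp] at h8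
    unfold FF
    linarith
  have h8 : 0 ≤ l / L := by positivity
  have h9 : 0 ≤ C2 * (1 + Real.log l) := by positivity
  nlinarith

end Pool.Agent.Helper44K9.AL
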